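import Pool.Agent.W2helper41.L.Val

/-!
# The `L`-functions of the twists
-/

set_option autoImplicit false
set_option linter.unusedSectionVars false
set_option linter.unusedVariables false

open Finset NumberField IsCyclotomicExtension.Rat H300.HW

namespace Pool.Agent.W2helper41.L

open scoped Classical

open Pool.Agent.W97.MT (ap E14 II)

open Pool.Agent.Y687 (Symb Symb2)

open Pool.Agent.Y700 (WM)

open Pool.Agent.Y682.XT hiding unitsMap_neg

open Pool.Agent.Y682.XD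

open Pool.Agent.Y682.XF hiding core2 prod_D val_D

section

variable {q d : ℕ} [NeZero q] [NeZero d] [NeZero (q * d)] {L : Type} [Field L] [NumberField L]
  [IsCyclotomicExtension {q} ℚ L] {K : IntermediateField ℚ L}

variable (q L K) in
/-- the valuation of the product of the values of the nontrivial twists -/
noncomputable def tv (d : ℕ) : ℕ :=
  haveI : Finite (GG q L K →* ℂˣ) := Finite.of_injective (cf q L K) cf_inj
  haveI : Fintype (GG q L K →* ℂˣ) := Fintype.ofFinite _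
  ∑ χ ∈ (univ : Finset (GG q L K →* ℂˣ)).erase 1, (tc L K (fun l => ap E14 l) d χ).card

/-- **the `L`-functions of the twist** -/
theorem ana_T (hlk : S_LK) (hNZ : S_NZ) (hLKD : S_LKD) (hTRD : S_TRD) (hKD : S_KD)
    (hH : S_HECKE) (hPR : S_PRIM) (hdet : S_DET) (hL1 : S_L1) (hRES : S_RES)
    (hun : S_UNITS) {s t : ℚ → ℤ} {Op Om : ℝ} (hSy : Sy s t Op Om)
    (hK : HypK s (fun l => ap E14 l) q L K) (hN : Odd (Nat.card (Y682.NCl K))) {D : ℤ}
    (hDp : 0 < D) (hDsq : Squarefree D) (hD4 : D % 4 = 1) (hD : D.natAbs = d)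
    (hd : DD q L K (fun l => ap E14 l) d) :
    ∃ G₀ P : ℂ → ℂ, Differentiable ℂ G₀ ∧ Differentiable ℂ P ∧ analyticOrderAt G₀ 1 ≠ ⊤ ∧
      (∀ z : ℂ, 3 / 2 < z.re → HasProd (factor (K := ℚ) (WM D) z) (G₀ z)) ∧
      (∀ z : ℂ, 3 / 2 < z.re → HasProd (factor (K := K) (WM D) z) (G₀ z * P z)) ∧
      (∃ ρ : ℚ, ρ ≠ 0 ∧ padicValRat 2 ρ = (tv q L K d : ℤ) ∧ P 1 * ((√|(discr K : ℝ)| : ℝ) : ℂ) =
        (ρ : ℂ) * (((2 * (if 0 < D then Op else Om) / √|(D : ℝ)|) ^
          (Module.finrank ℚ K - 1) : ℝ) : ℂ)) ∧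
      ∃ δ : DirichletCharacter ℂ d,
        (∀ u : (ZMod d)ˣ, δ (u : ZMod d) = (jacobiSym ((u : ZMod d).val : ℤ) d : ℂ)) ∧
        ∃ g : ℂ, g ^ 2 = (if 0 < D then 1 else -1) * d ∧
        g * G₀ 1 = ∑ u : (ZMod d)ˣ, δ (u : ZMod d) * II (((u : ZMod d).val : ℚ) / d) := by
  have hd0 : d ≠ 0 := NeZero.ne d
  have hdsq : Squarefree d := by rw [← hD]; exact Int.squarefree_natAbs.2 hDsq
  have hqd : q.Coprime d := by
    refine Nat.coprime_of_dvd ?_
    intro p hp hpq hpd
    exact (hd p hp hpd).1 (dvd_mul_of_dvd_right hpq _)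
  have hd14 : d.Coprime 14 := by
    refine Nat.coprime_of_dvd ?_
    intro p hp hpd hp14
    exact (hd p hp hpd).1 (dvd_mul_of_dvd_left hp14 _)
  obtain ⟨δ, hδp, hδk, hδ1, hδj⟩ := hKD D hDsq hD4 d hD.symm
  have hδ : ∀ u : (ZMod d)ˣ, δ (u : ZMod d) = 1 ∨ δ (u : ZMod d) = -1 := by
    intro u
    rw [hδj u]
    have hco : IsCoprime (((u : ZMod d).val : ℤ)) (d : ℤ) :=
      Nat.isCoprime_iff_coprime.2 (ZMod.val_coe_unit_coprime u)
    rcases jacobiSym.trichotomy ((u : ZMod d).val : ℤ) d with h | h | h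
    · exfalso
      rw [jacobiSym.eq_zero_iff_not_coprime] at h
      exact h (Int.isCoprime_iff_gcd_eq_one.1 hco)
    · left; rw [h]; push_cast; rfl
    · right; rw [h]; push_cast; rfl
  have hδi : δ⁻¹ = δ := quad_inv hδ
  have hco : (q * d).Coprime 14 := Nat.Coprime.mul_left hK.hco hd14
  obtain ⟨G, hG⟩ := exists_GG hco
  have hfG : Fintype (GG q L K) := Fintype.ofFinite _
  have : Finite (GG q L K →* ℂˣ) := Finite.of_injective (cf q L K) cf_inj
  have hfC : Fintype (GG q L K →* ℂˣ) := Fintype.ofFinite _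
  obtain ⟨S, hS, hSv⟩ : ∃ S : Finset (GG q L K →* ℂˣ), (∀ χ, χ ∈ S) ∧
      tv q L K d = ∑ χ ∈ S.erase 1, (tc L K (fun l => ap E14 l) d χ).card := by
    refine ⟨univ, fun χ => mem_univ χ, ?_⟩
    unfold tv
    refine sum_congr (Finset.ext fun χ => ?_) fun _ _ => rfl
    simp only [mem_erase, mem_univ]
  have hE := fun (F : IntermediateField ℚ L) {z : ℂ} (hz : 3 / 2 < z.re) =>
    euler_D (L := L) hLKD hPR hDsq hD4 (by rw [hD]; exact hd14) hD hK.hco hqd hδp hδk
      (fun χ s hs => (hG χ).2.1 s hs) F hz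
  -- the trivial field
  have hbot : ∀ z : ℂ, ∏ᶠ χ : YY q L (⊥ : IntermediateField ℚ L), G (XX δ χ) z =
      G (XX δ 1) z := by
    intro z
    have huniq : ∀ χ : YY q L (⊥ : IntermediateField ℚ L), χ.1 = 1 := by
      rintro ⟨χ, hχ⟩
      rw [mem_YY] at hχ
      apply MulChar.ext
      intro u
      have h1 := hχ ((galEquivZMod q L).symm u) (by
        rw [IntermediateField.fixingSubgroup_bot]
        exact Subgroup.mem_top _)
      rw [MulEquiv.apply_symm_apply] at h1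
      rw [h1, MulChar.one_apply_coe]
    have h1 : (1 : DirichletCharacter ℂ q) ∈ YY q L (⊥ : IntermediateField ℚ L) := one_mem _
    have hU : Unique (YY q L (⊥ : IntermediateField ℚ L)) :=
      { default := ⟨1, h1⟩, uniq := fun χ => Subtype.ext (huniq χ) }
    rw [finprod_unique, huniq]
  have hfin : ∀ z : ℂ, ∏ᶠ χ : YY q L K, G (XX δ χ) z =
      G (XX δ 1) z * ∏ ψ ∈ S.erase 1, G (XX δ (cf q L K ψ)) z := by
    intro z
    have hfY : Fintype (YY q L K) := Fintype.ofFinite _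
    rw [finprod_eq_prod_of_fintype]
    have h1 : ∏ χ : YY q L K, G (XX δ χ) z = ∏ ψ ∈ S, G (XX δ (cf q L K ψ)) z := by
      symm
      refine prod_bij (fun ψ _ => (⟨cf q L K ψ, cf_mem ψ⟩ : YY q L K)) ?_ ?_ ?_ ?_
      · intro ψ _; exact mem_univ _
      · intro ψ _ ψ' _ h
        exact cf_inj (congrArg Subtype.val h)
      · rintro ⟨χ, hχ⟩ _
        obtain ⟨ψ, rfl⟩ := cf_surj hχ
        exact ⟨ψ, hS ψ, rfl⟩
      · intro ψ _; rfl
    rw [h1, ← mul_prod_erase S _ (hS 1), cf_one]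
  obtain ⟨ρ, hρ0, hρv, hρ⟩ := val_T hH hPR hdet hL1 hRES hun hSy hK hN hDp hD hdsq hd hδp hδ1 hδ
    hδj (fun χ => (hG χ).2.2) S hS
  have hcard := card_erase S hS
  refine ⟨G (XX δ 1), fun z => ∏ ψ ∈ S.erase 1, G (XX δ (cf q L K ψ)) z, (hG _).1,
    Differentiable.fun_finsetProd fun ψ _ => (hG _).1, ?_, ?_, ?_, ⟨ρ, hρ0, by rw [hρv, hSv], ?_⟩, δ, hδj, ?_⟩
  · -- finite order
    intro htop
    obtain ⟨z, hz, hne⟩ := nz_all hlk hNZ hco (fun χ s hs => (hG χ).2.1 s hs)
    apply hne (XX δ 1)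
    rw [analyticOrderAt_eq_top] at htop
    have han : AnalyticOnNhd ℂ (G (XX δ 1)) Set.univ := fun z _ => (hG (XX δ 1)).1.analyticAt z
    have h2 := han.eqOn_zero_of_preconnected_of_eventuallyEq_zero isPreconnected_univ
      (Set.mem_univ (1 : ℂ)) htop
    exact h2 (Set.mem_univ z)
  · intro z hz
    have h1 := hE ⊥ hz
    rw [hbot] at h1
    exact hTRD (WM D) (⊥ : IntermediateField ℚ L) ℚ (IntermediateField.botEquiv ℚ L).toRingEquiv z _ h1
  · intro z hz
    have h1 := hE K hz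
    rw [hfin] at h1
    exact h1
  · have h1 : Module.finrank ℚ K - 1 = (S.erase (1 : GG q L K →* ℂˣ)).card := by omega
    rw [h1]
    exact hρ
  · -- the value of the first function
    have h1 := (hG (XX δ 1)).2.2
    have hc : (XX (q := q) δ 1).conductor = d := (hPR q d hqd 1 δ hδp).1.trans (by
      rw [DirichletCharacter.conductor_one, one_mul])
    have key : ∀ (F : ℕ) [NeZero F], F = d → ∀ (hFN : F ∣ q * d) (ρ : DirichletCharacter ℂ F),
        DirichletCharacter.changeLevel hFN ρ = XX δ 1 → ρ.IsPrimitive →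
        gaussSum ρ⁻¹ (ZMod.stdAddChar (N := F)) * G (XX δ 1) 1 =
          ∑ u : (ZMod F)ˣ, ρ⁻¹ (u : ZMod F) * II (((u : ZMod F).val : ℚ) / F) →
        ∃ g : ℂ, g ^ 2 = (if 0 < D then 1 else -1) * d ∧
        g * G (XX δ 1) 1 = ∑ u : (ZMod d)ˣ, δ (u : ZMod d) * II (((u : ZMod d).val : ℚ) / d) := by
      intro F _ hF hFN ρ hρ hρp hv
      subst hF
      have h2 : ρ = δ := by
        apply DirichletCharacter.changeLevel_injective hFN
        rw [hρ]
        unfold XX
        rw [map_one, one_mul]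
      subst h2
      rw [hδi] at hv
      refine ⟨gaussSum ρ (ZMod.stdAddChar (N := F)), ?_, hv⟩
      have hσ : ((if 0 < D then 1 else -1 : ℂ) = 1 ∨ (if 0 < D then 1 else -1 : ℂ) = -1) := by
        by_cases h : 0 < D
        · left; exact if_pos h
        · right; exact if_neg h
      have h3 := gauss_mulS hρp hσ hδ1
      rw [hδi] at h3
      rw [pow_two]
      exact h3
    have : NeZero (XX (q := q) δ 1).conductor := ⟨(XX (q := q) δ 1).conductor_ne_zero⟩
    exact key _ hc (XX δ 1).conductor_dvd_level (XX δ 1).primitiveCharacter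
      (XX δ 1).changeLevel_primitiveCharacter (XX δ 1).primitiveCharacter_isPrimitive h1

end

end Pool.Agent.W2helper41.L
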