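import Pool.Agent.W2helper41.L.Rec
import Pool.Agent.Y682.XF.ValA

/-!
# The two-adic valuation of the twisted sums, for the characters of a field
-/

set_option autoImplicit false
set_option linter.unusedSectionVars false
set_option linter.unusedVariables false

open Finset NumberField IsCyclotomicExtension.Rat H300.HW

namespace Pool.Agent.W2helper41.L

open scoped Classical

open Pool.Agent.Y687 (Symb Symb2)

open Pool.Agent.Y682.XT

open Pool.Agent.Y682.XD

open Pool.Agent.Y682.XF (wd sum_wd wd_congr)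

/-- the algebraic integers -/
abbrev OO : Type := integralClosure ℤ ℂ

/-- the inclusion -/
noncomputable def io : OO →+* ℂ := (integralClosure ℤ ℂ).subtype

lemma io_inj : Function.Injective io := Subtype.val_injective

/-- an integral rational number -/
lemma int_of_rat {x : OO} {r : ℚ} (h : io x = (r : ℂ)) : ∃ n : ℤ, x = (n : OO) := by
  have h1 : IsIntegral ℤ (r : ℂ) := by
    rw [← h]
    exact x.2
  have h2 : IsIntegral ℤ r := by
    have h3 : (r : ℂ) = algebraMap ℚ ℂ r := rfl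
    rw [h3] at h1
    exact (isIntegral_algebraMap_iff (algebraMap ℚ ℂ).injective).1 h1
  obtain ⟨n, hn⟩ := IsIntegrallyClosed.isIntegral_iff.1 h2
  refine ⟨n, ?_⟩
  apply io_inj
  rw [h, map_intCast, ← hn]
  simp

lemma not_unit_two : ¬ IsUnit (2 : OO) := by
  intro h
  obtain ⟨y, hy⟩ := h.exists_right_inv
  have h1 : io y = ((1 / 2 : ℚ) : ℂ) := by
    have h2 := congrArg io hy
    rw [map_mul, map_ofNat, map_one] at h2
    push_cast
    linear_combination h2 / 2
  obtain ⟨n, hn⟩ := int_of_rat h1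
  rw [hn, map_intCast] at h1
  have h3 : ((2 * n : ℤ) : ℂ) = ((1 : ℤ) : ℂ) := by
    push_cast
    rw [h1]
    push_cast
    norm_num
  have h4 : 2 * n = 1 := by exact_mod_cast h3
  omega

/-- a place above two -/
lemma exists_red : ∃ (k : Type) (_ : Field k) (_ : CharP k 2), Nonempty (OO →+* k) := by
  have h1 : Ideal.span {(2 : OO)} ≠ ⊤ := by
    rw [Ne, Ideal.span_singleton_eq_top]
    exact not_unit_two
  obtain ⟨m, hm, hle⟩ := Ideal.exists_le_maximal _ h1
  let F := Ideal.Quotient.field m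
  refine ⟨OO ⧸ m, F, ?_, ⟨Ideal.Quotient.mk m⟩⟩
  refine CharTwo.of_one_ne_zero_of_two_eq_zero one_ne_zero ?_
  have h2 : Ideal.Quotient.mk m (2 : OO) = 0 :=
    Ideal.Quotient.eq_zero_iff_mem.2 (hle (Ideal.mem_span_singleton_self _))
  rw [map_ofNat] at h2
  exact h2

/-- a character with values in the algebraic integers -/
lemma exists_X {G : Type} [CommGroup G] [Finite G] (χ : G →* ℂˣ) :
    ∃ X : G →* OO, ∀ g, io (X g) = ((χ g : ℂˣ) : ℂ) := by
  have h1 : ∀ g, IsIntegral ℤ ((χ g : ℂˣ) : ℂ) := by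
    intro g
    refine IsIntegral.of_pow (n := Nat.card G) Nat.card_pos ?_
    rw [← Units.val_pow_eq_pow_val, ← map_pow, pow_card_eq_one', map_one, Units.val_one]
    exact isIntegral_one
  refine ⟨{ toFun := fun g => ⟨((χ g : ℂˣ) : ℂ), h1 g⟩, map_one' := ?_, map_mul' := ?_ },
    fun g => rfl⟩
  · apply Subtype.ext
    show ((χ 1 : ℂˣ) : ℂ) = 1
    rw [map_one, Units.val_one]
  · intro g h
    apply Subtype.ext
    show ((χ (g * h) : ℂˣ) : ℂ) = ((χ g : ℂˣ) : ℂ) * ((χ h : ℂˣ) : ℂ)
    rw [map_mul, Units.val_mul]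

/-- the kernels -/
lemma red_one {k : Type} [Field k] [CharP k 2] (π : OO →+* k) {m : ℕ} (hm : Odd m) {z : OO}
    (hz : z ^ m = 1) : π z = 1 ↔ z = 1 := by
  constructor
  · intro h
    by_contra hne
    have h1 := mul_geom_sum z m
    rw [hz, sub_self] at h1
    rcases mul_eq_zero.1 h1 with h2 | h2
    · exact hne (sub_eq_zero.1 h2)
    · have h3 := congrArg π h2
      rw [map_sum, map_zero] at h3
      simp only [map_pow, h, one_pow, sum_const, card_range, nsmul_eq_mul, mul_one] at h3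
      rw [(CharP.cast_eq_zero_iff k 2 m)] at h3
      exact (Nat.not_even_iff_odd.2 hm) (even_iff_two_dvd.2 h3)
  · rintro rfl
    exact map_one π

section

variable {q : ℕ} [NeZero q] {L : Type} [Field L] [NumberField L] [IsCyclotomicExtension {q} ℚ L]
  {K : IntermediateField ℚ L}

/-- the character at the level of the conductor -/
lemma exists_lev {O : Type} [CommRing O] {f : ℕ} [NeZero f] (hf : f ∣ q) (ψ : GG q L K →* O)
    (hk : ∀ c : (ZMod q)ˣ, ZMod.unitsMap hf c = 1 → ψ (mkG q L K c) = 1) :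
    ∃ ψf : (ZMod f)ˣ →* O, (∀ c, ψf (ZMod.unitsMap hf c) = ψ (mkG q L K c)) ∧
      ∀ u, ψf u = ψ (mkG q L K (sect hf u)) := by
  have key : ∀ c c' : (ZMod q)ˣ, ZMod.unitsMap hf c = ZMod.unitsMap hf c' →
      ψ (mkG q L K c) = ψ (mkG q L K c') := by
    intro c c' h
    have h2 := hk (c * c'⁻¹) (by rw [map_mul, map_inv, h, mul_inv_cancel])
    have h3 : ψ (mkG q L K c) = ψ (mkG q L K (c * c'⁻¹)) * ψ (mkG q L K c') := by
      rw [← map_mul, ← map_mul, inv_mul_cancel_right]
    rw [h3, h2, one_mul]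
  refine ⟨{ toFun := fun u => ψ (mkG q L K (sect hf u)), map_one' := ?_, map_mul' := ?_ },
    fun c => ?_, fun u => rfl⟩
  · apply hk
    rw [map_sect]
  · intro u v
    rw [← map_mul, ← map_mul]
    apply key
    rw [map_mul, map_sect, map_sect, map_sect]
  · show ψ (mkG q L K (sect hf (ZMod.unitsMap hf c))) = ψ (mkG q L K c)
    apply key
    rw [map_sect]

variable (L K) in
/-- the primes of the second kind at which a character is trivial -/
noncomputable def tc (a : ℕ → ℤ) (d : ℕ) (χ : GG q L K →* ℂˣ) : Finset ℕ :=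
  d.primeFactors.filter (fun p => (4 : ℤ) ∣ a p ∧
    ∀ t : (ZMod q)ˣ, (t : ZMod q) = (p : ZMod q) → χ (mkG q L K t) = 1)

/-- the conditions on the primes of the twist -/
def DD (q : ℕ) [NeZero q] (L : Type) [Field L] [NumberField L] [IsCyclotomicExtension {q} ℚ L]
    (K : IntermediateField ℚ L) (a : ℕ → ℤ) (d : ℕ) : Prop :=
  ∀ p : ℕ, p.Prime → p ∣ d → ¬ p ∣ 14 * q ∧ p % 4 = 1 ∧ ((4 : ℤ) ∣ a p ∨
    ∀ t : (ZMod q)ˣ, (t : ZMod q) = (p : ZMod q) →
      ∀ x : GG q L K, x ∈ Subgroup.zpowers (mkG q L K t))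

/-- **the twisted sums** -/
theorem core3 (hH : S_HECKE) {s : ℚ → ℤ} {a : ℕ → ℤ} (hK : HypK s a q L K)
    {f d : ℕ} [NeZero f] [NeZero (f * d)] (hfq : f ∣ q) (hdsq : Squarefree d)
    (hd : DD q L K a d) (ε : (ZMod d)ˣ → ℤ) (hε : ∀ u, ε u = ∏ p ∈ d.primeFactors, jc p u)
    (k : Type) [Field k] [CharP k 2] (π : OO →+* k) (χ' : GG q L K →* ℂˣ)
    (hχ' : χ' ≠ 1) (hcc : (cf q L K χ').conductor = f) [Fintype (GG q L K)] :
    ∃ h : OO, ∑ g, ((χ' g : ℂˣ) : ℂ) * (wd L K hfq ε s g : ℂ) =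
      2 ^ (tc L K a d χ').card * io h ∧ π h ≠ 0 := by
  have hG0 : Finite (GG q L K) := inferInstance
  have hoc : Odd (Nat.card (GG q L K)) := by
    rw [Nat.card_eq_fintype_card]
    exact card_odd hK.hodd
  obtain ⟨X0, hX0⟩ := exists_X χ'
  obtain ⟨R, hR, hSg⟩ := hK.hR
  have hcne : cf q L K χ' ≠ 1 := fun h => hχ' (cf_inj (h.trans cf_one.symm))
  have hf1 : 1 < f := by
    have h2 : f ≠ 1 := fun h =>
      hcne (((cf q L K χ').eq_one_iff_conductor_eq_one).2 (hcc.trans h))
    have := NeZero.ne f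
    omega
  have hfo : Odd f := Odd.of_dvd_nat hK.hq hfq
  have hf14 : f.Coprime 14 := Nat.Coprime.coprime_dvd_left hfq hK.hco
  have hX1 : ∀ g, X0 g = 1 ↔ χ' g = 1 := by
    intro g
    rw [← Units.val_eq_one, ← hX0]
    constructor
    · intro h; rw [h, map_one]
    · intro h
      apply io_inj
      rw [h, map_one]
  have hker : ∀ g, π (X0 g) = 1 ↔ χ' g = 1 := by
    intro g
    rw [red_one π hoc (z := X0 g) (by rw [← map_pow, pow_card_eq_one', map_one]), hX1]
  obtain ⟨ψ, hψd⟩ : ∃ ψ : GG q L K →* k, ∀ g, ψ g = π (X0 g) :=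
    ⟨(π : OO →* k).comp X0, fun g => rfl⟩
  have hkerψ : ∀ g, ψ g = 1 ↔ χ' g = 1 := fun g => by rw [hψd]; exact hker g
  -- the character at the level `f`
  subst hcc
  have hval : ∀ c : (ZMod q)ˣ, ((χ' (mkG q L K c) : ℂˣ) : ℂ) =
      (cf q L K χ').primitiveCharacter ((ZMod.unitsMap hfq c :
        (ZMod (cf q L K χ').conductor)ˣ) : ZMod (cf q L K χ').conductor) := by
    intro c
    rw [← cf_apply]
    exact prim_unit _ c
  have hkf : ∀ c : (ZMod q)ˣ, ZMod.unitsMap hfq c = 1 → X0 (mkG q L K c) = 1 := by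
    intro c hc
    rw [hX1]
    apply Units.ext
    rw [hval, hc, Units.val_one, map_one, Units.val_one]
  obtain ⟨X, hX, hX'⟩ := exists_lev hfq X0 hkf
  have hneg : ∀ x : (ZMod q)ˣ, mkG q L K (-x) = mkG q L K x := by
    intro x
    rw [← neg_one_mul, map_mul, mkG_one.2 hK.hre, one_mul]
  have hev : ∀ x, X (-x) = X x := by
    intro x
    obtain ⟨c, rfl⟩ := ZMod.unitsMap_surjective hfq x
    rw [← unitsMap_neg, hX, hX, hneg]
  -- primitivity
  have hprm : Prm ((π : OO →* k).comp X) := by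
    intro f' h' hne'
    by_contra hcon
    push Not at hcon
    apply hne'
    have h2 : (cf q L K χ').primitiveCharacter.FactorsThrough f' := by
      rw [DirichletCharacter.factorsThrough_iff_ker_unitsMap h']
      intro κ hκ
      rw [MonoidHom.mem_ker] at hκ ⊢
      obtain ⟨c, rfl⟩ := ZMod.unitsMap_surjective hfq κ
      have h3 := hcon _ hκ
      rw [MonoidHom.comp_apply, hX] at h3
      have h4 := (hker _).1 h3
      apply Units.ext
      rw [MulChar.coe_toUnitHom, ← hval, h4]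
    have h3 := (cf q L K χ').primitiveCharacter.conductor_dvd_of_mem_conductorSet
      ((DirichletCharacter.mem_conductorSet_iff _).2 h2)
    rw [(DirichletCharacter.isPrimitive_def _).1
      (cf q L K χ').primitiveCharacter_isPrimitive] at h3
    exact Nat.dvd_antisymm h' h3
  -- the sum at the level `f`
  have hco2 : Nat.Coprime 2 q := by
    rw [Nat.coprime_two_left]; exact hK.hq
  have hco7 : Nat.Coprime 7 q := (Nat.Coprime.coprime_dvd_right (by norm_num) hK.hco).symm
  have hbase : NZ s ((π : OO →* k).comp X) (cf q L K χ').conductor := by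
    intro _ h
    have h5 := wf_ne' hK.H hK.hq hK.h1 hK.hco hK.hre hR hSg
      (t2 := ZMod.unitOfCoprime 2 hco2) (t7 := ZMod.unitOfCoprime 7 hco7)
      (by rw [ZMod.coe_unitOfCoprime]; norm_num) (by rw [ZMod.coe_unitOfCoprime]; norm_num)
      (hK.hg2 _ (by rw [ZMod.coe_unitOfCoprime]; norm_num))
      (hK.hg7 _ (by rw [ZMod.coe_unitOfCoprime]; norm_num)) χ' hχ' ψ hkerψ hfq hf1
      (hK.hs _ (cf_mem χ') hcne) (cf q L K χ').primitiveCharacter hval
      (cf q L K χ').primitiveCharacter_isPrimitive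
    rw [sum_wf] at h5
    intro h6
    apply h5
    rw [← h6]
    refine sum_congr rfl fun u _ => ?_
    have e : ZMod.unitsMap h u = u := by
      apply Units.ext
      rw [ZMod.unitsMap_val]
      exact ZMod.cast_id _ _
    rw [hψd, ← hX', e]
    rfl
  -- the two sets of primes
  obtain ⟨T1, hT1⟩ : ∃ T1, T1 = d.primeFactors.filter (fun p => TrivI a X p) := ⟨_, rfl⟩
  obtain ⟨T2, hT2⟩ : ∃ T2, T2 = d.primeFactors.filter (fun p => ¬ TrivI a X p) := ⟨_, rfl⟩
  have hun : T2 ∪ T1 = d.primeFactors := by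
    rw [hT1, hT2, union_comm, filter_union_filter_not_eq]
  have hdis : Disjoint T2 T1 := by
    rw [hT1, hT2]
    exact (disjoint_filter_filter_not _ _ _).symm
  have hdf : ∀ p ∈ d.primeFactors, ¬ p ∣ 14 * (cf q L K χ').conductor := by
    intro p hp h7
    exact (hd p (Nat.prime_of_mem_primeFactors hp) (Nat.dvd_of_mem_primeFactors hp)).1
      (h7.trans (mul_dvd_mul_left 14 hfq))
  have hval1 : ∀ p : ℕ, p.Coprime q → ((∀ t : (ZMod q)ˣ, (t : ZMod q) = (p : ZMod q) →
      χ' (mkG q L K t) = 1) ↔ ∀ t : (ZMod (cf q L K χ').conductor)ˣ,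
        (t : ZMod (cf q L K χ').conductor) = (p : ZMod (cf q L K χ').conductor) → X t = 1) := by
    intro p hpq
    constructor
    · intro h t ht
      have h9 := h (ZMod.unitOfCoprime p hpq) (ZMod.coe_unitOfCoprime p hpq)
      have h10 : ZMod.unitsMap hfq (ZMod.unitOfCoprime p hpq) = t := by
        apply Units.ext
        rw [ZMod.unitsMap_val, ZMod.coe_unitOfCoprime, ht, ZMod.cast_natCast hfq]
      rw [← h10, hX, hX1, h9]
    · intro h t ht
      rw [← hX1, ← hX]
      apply h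
      rw [ZMod.unitsMap_val, ht, ZMod.cast_natCast hfq]
  have hpq : ∀ p ∈ d.primeFactors, p.Coprime q := by
    intro p hp
    have hpp := Nat.prime_of_mem_primeFactors hp
    rw [Nat.Prime.coprime_iff_not_dvd hpp]
    exact fun h9 => (hd p hpp (Nat.dvd_of_mem_primeFactors hp)).1 (dvd_mul_of_dvd_right h9 _)
  have htc : T1 = tc L K a d χ' := by
    rw [hT1]
    unfold tc
    refine filter_congr fun p hp => ?_
    have hpp := Nat.prime_of_mem_primeFactors hp
    obtain ⟨h5, h6, -⟩ := hd p hpp (Nat.dvd_of_mem_primeFactors hp)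
    constructor
    · intro h
      exact ⟨h.dvd, (hval1 p (hpq p hp)).2 h.one⟩
    · rintro ⟨h7, h8⟩
      exact ⟨hpp, h6, hdf p hp, h7, (hval1 p (hpq p hp)).1 h8⟩
  have hO : ∀ p ∈ T2, OthI (cf q L K χ').conductor p := by
    intro p hp
    have hp' : p ∈ d.primeFactors := by rw [← hun]; exact mem_union_left _ hp
    have hpp := Nat.prime_of_mem_primeFactors hp'
    exact ⟨hpp, (hd p hpp (Nat.dvd_of_mem_primeFactors hp')).2.1, hdf p hp'⟩
  obtain ⟨h, hh1, hh2⟩ := rec_ io_inj hH hK.H hev hfo hf1 hf14 hprm hO T1 (fun p hp => by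
    rw [hT1] at hp
    exact (mem_filter.1 hp).2) hdis
  rw [hun, Nat.prod_primeFactors_of_squarefree hdsq] at hh1
  refine ⟨h, ?_, ?_⟩
  · rw [← htc]
    have h1 := congrArg io hh1
    rw [map_mul, map_pow, map_ofNat] at h1
    rw [← h1, HX_eq s X _ (dvd_mul_right _ d), map_sum, sum_wd (A := ℂ) hfq ε s
      (fun g => ((χ' g : ℂˣ) : ℂ))]
    refine sum_congr rfl fun u _ => ?_
    rw [map_mul, map_mul, map_intCast, map_intCast, ← hX0, hX', Int.cast_mul, ← mul_assoc]
    congr 2
    have hzd : NeZero d := ⟨hdsq.ne_zero⟩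
    rw [hε, ← JJ_map (dvd_mul_left d (cf q L K χ').conductor) (A := d.primeFactors)
      (fun p hp => Nat.dvd_of_mem_primeFactors hp)]
    rfl
  · rw [hh2]
    have hz2 : ((cf q L K χ').conductor * ∏ p ∈ T2, p) ≠ 0 := lvl_ne (oth_lvl hO)
    have hzz : NeZero ((cf q L K χ').conductor * ∏ p ∈ T2, p) := ⟨hz2⟩
    rw [HX_map π s X _ hz2 (dvd_mul_right _ _), HX_eq s _ _ (dvd_mul_right _ _)]
    have hprod := NZ_prod hH hK.H.toSymb hf1 hfo (ψ := (π : OO →* k).comp X) (fun x => by
      rw [MonoidHom.comp_apply, MonoidHom.comp_apply, hev]) hK.ev hbase T2 (by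
      intro p hp
      have hp' : p ∈ d.primeFactors := by rw [← hun]; exact mem_union_left _ hp
      refine ⟨(hO p hp).prime, (hO p hp).ndvd, fun t ht h8 => ?_⟩
      have h9 : χ' (mkG q L K (ZMod.unitOfCoprime p (hpq p hp'))) = 1 := by
        rw [← hker, ← hX]
        have h10 : ZMod.unitsMap hfq (ZMod.unitOfCoprime p (hpq p hp')) = t := by
          apply Units.ext
          rw [ZMod.unitsMap_val, ZMod.coe_unitOfCoprime, ht, ZMod.cast_natCast hfq]
        rw [h10]
        exact h8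
      have h11 : ∀ t : (ZMod q)ˣ, (t : ZMod q) = (p : ZMod q) → χ' (mkG q L K t) = 1 := by
        intro t ht
        have : t = ZMod.unitOfCoprime p (hpq p hp') :=
          Units.ext (by rw [ht, ZMod.coe_unitOfCoprime])
        rw [this]
        exact h9
      rcases (hd p (hO p hp).prime (Nat.dvd_of_mem_primeFactors hp')).2.2 with h12 | h12
      · rw [hT2] at hp
        exact (mem_filter.1 hp).2 ⟨(hO p (by rw [hT2]; exact hp)).prime,
          (hO p (by rw [hT2]; exact hp)).four, (hO p (by rw [hT2]; exact hp)).ndvd, h12,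
          (hval1 p (hpq p hp')).1 h11⟩
      · apply hχ'
        refine MonoidHom.ext fun g => ?_
        have h13 := h12 _ (ZMod.coe_unitOfCoprime p (hpq p hp')) g
        rw [← mem_powers_iff_mem_zpowers] at h13
        obtain ⟨n, hn⟩ := h13
        rw [← hn]
        simp only [map_pow, h9, one_pow, MonoidHom.one_apply])
    have h5 := hprod inferInstance (dvd_mul_right _ _)
    intro h6
    apply h5
    rw [← h6]
    refine sum_congr rfl fun u _ => ?_
    have h4 : ((JJ T2 u : ℤ) : k) = 1 := by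
      rcases JJ_sq (fun p hp => mem_dvd hp) u with h5 | h5
      · rw [h5, Int.cast_one]
      · rw [h5, Int.cast_neg, Int.cast_one, CharTwo.neg_eq]
    rw [h4, mul_one]

end

end Pool.Agent.W2helper41.L
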