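import Pool.Agent.W2helper41.L.Psh

/-!
# The sums of signs over the classes of the residue symbols do not depend on the class
-/

set_option autoImplicit false
set_option linter.unusedSectionVars false
set_option linter.unusedVariables false

open Finset

namespace Pool.Agent.W2helper41.L

open scoped Classical

open Pool.Agent.Y682.XT (oo oo_neg c2 PU IsH isH_PU mem_PU unit_ne oo_unit_neg evF)

open Pool.Agent.Y688.XD (unitsMap_neg fib s_val)

/-- the residue symbol of a unit -/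
def jc {M : ℕ} (q : ℕ) (u : (ZMod M)ˣ) : ℤ := jacobiSym ((u : ZMod M).val : ℤ) q

section

variable {M : ℕ} [NeZero M]

lemma jc_of {q : ℕ} (hq : q ∣ M) {u : (ZMod M)ˣ} {n : ℤ} (h : (u : ZMod M) = (n : ZMod M)) :
    jc q u = jacobiSym n q := by
  unfold jc
  have h1 : (((u : ZMod M).val : ℤ) : ZMod M) = (n : ZMod M) := by
    rw [Int.cast_natCast, ZMod.natCast_zmod_val, h]
  rw [ZMod.intCast_eq_intCast_iff] at h1
  have h2 : ((u : ZMod M).val : ℤ) ≡ n [ZMOD q] := h1.of_dvd (by exact_mod_cast hq)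
  rw [jacobiSym.mod_left, h2, ← jacobiSym.mod_left]

lemma jc_val {q : ℕ} (u : (ZMod M)ˣ) : (u : ZMod M) = (((u : ZMod M).val : ℤ) : ZMod M) := by
  rw [Int.cast_natCast, ZMod.natCast_zmod_val]

lemma jc_mul {q : ℕ} (hq : q ∣ M) (u v : (ZMod M)ˣ) : jc q (u * v) = jc q u * jc q v := by
  rw [jc_of hq (u := u * v) (n := ((u : ZMod M).val : ℤ) * ((v : ZMod M).val : ℤ)) (by
    push_cast
    rw [ZMod.natCast_zmod_val, ZMod.natCast_zmod_val]), jacobiSym.mul_left]
  rfl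

lemma jc_one {q : ℕ} (hq : q ∣ M) : jc q (1 : (ZMod M)ˣ) = 1 := by
  rw [jc_of hq (n := 1) (by push_cast; rfl), jacobiSym.one_left]

lemma jc_sq {q : ℕ} (hq : q ∣ M) (u : (ZMod M)ˣ) : jc q u = 1 ∨ jc q u = -1 := by
  have h1 : jc q u * jc q u⁻¹ = 1 := by rw [← jc_mul hq, mul_inv_cancel, jc_one hq]
  exact Int.isUnit_iff.1 (IsUnit.of_mul_eq_one _ h1)

lemma jc_inv {q : ℕ} (hq : q ∣ M) (u : (ZMod M)ˣ) : jc q u⁻¹ = jc q u := by
  have h1 : jc q u * jc q u⁻¹ = 1 := by rw [← jc_mul hq, mul_inv_cancel, jc_one hq]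
  rcases jc_sq hq u with h | h
  · rw [h, one_mul] at h1; rw [h, h1]
  · rw [h] at h1; rw [h]; linarith

lemma jc_neg {q : ℕ} (hq : q ∣ M) (hp : q.Prime) (h4 : q % 4 = 1) (u : (ZMod M)ˣ) :
    jc q (-u) = jc q u := by
  rw [jc_of hq (u := -u) (n := -((u : ZMod M).val : ℤ)) (by
    rw [Units.val_neg]; push_cast; rw [ZMod.natCast_zmod_val])]
  have h2 : Odd q := Nat.odd_iff.2 (by omega)
  rw [jacobiSym.neg _ h2, ZMod.χ₄_nat_one_mod_four h4, one_mul]
  rfl

lemma jc_map {M' q : ℕ} [NeZero M'] (h : M ∣ M') (hq : q ∣ M) (w : (ZMod M')ˣ) :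
    jc q (ZMod.unitsMap h w) = jc q w := by
  rw [jc_of hq (u := ZMod.unitsMap h w) (n := ((w : ZMod M').val : ℤ)) (by
    rw [ZMod.unitsMap_val, ZMod.cast_eq_val]; push_cast; rfl)]
  rfl

end

section

variable {k : Type} [Field k] [CharP k 2] {f : ℕ} [NeZero f]

/-- the indicator function of a class -/
noncomputable def ind (k : Type) [Field k] {M : ℕ} (T : Finset ℕ) (g : ℕ → ℤ) (u : (ZMod M)ˣ) : k :=
  if ∀ q ∈ T, jc q u = g q then 1 else 0

/-- the weight -/
noncomputable def WT (X : (ZMod f)ˣ →* k) {M : ℕ} (h : f ∣ M) (T : Finset ℕ) (g : ℕ → ℤ)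
    (u : (ZMod M)ˣ) : k := X (ZMod.unitsMap h u) * ind k T g u

lemma ind_empty {M : ℕ} (g : ℕ → ℤ) (u : (ZMod M)ˣ) : ind k ∅ g u = 1 := by
  unfold ind
  rw [if_pos]
  intro q hq
  exact absurd hq (notMem_empty q)

/-- sign patterns -/
def Sgn (T : Finset ℕ) (g : ℕ → ℤ) : Prop := ∀ q ∈ T, g q = 1 ∨ g q = -1

lemma Sgn.mono {T T' : Finset ℕ} (h : T' ⊆ T) {g : ℕ → ℤ} (hg : Sgn T g) : Sgn T' g :=
  fun q hq => hg q (h hq)

variable {M : ℕ} [NeZero M]

lemma ind_mul {T : Finset ℕ} (hT : ∀ q ∈ T, q ∣ M) {g : ℕ → ℤ} (x u : (ZMod M)ˣ) :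
    ind k T g (x * u) = ind k T (fun q => g q * jc q x) u := by
  unfold ind
  refine if_congr (forall₂_congr fun q hq => ?_) rfl rfl
  show _ ↔ jc q u = g q * jc q x
  rw [jc_mul (hT q hq)]
  rcases jc_sq (hT q hq) x with h | h
  · rw [h]; omega
  · rw [h]; omega

lemma ind_neg {T : Finset ℕ} (hT : ∀ q ∈ T, q ∣ M ∧ q.Prime ∧ q % 4 = 1) {g : ℕ → ℤ}
    (u : (ZMod M)ˣ) : ind k T g (-u) = ind k T g u := by
  unfold ind
  refine if_congr (forall₂_congr fun q hq => ?_) rfl rfl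
  rw [jc_neg (hT q hq).1 (hT q hq).2.1 (hT q hq).2.2]

lemma ind_map {M' : ℕ} [NeZero M'] (h : M ∣ M') {T : Finset ℕ} (hT : ∀ q ∈ T, q ∣ M) {g : ℕ → ℤ}
    (w : (ZMod M')ˣ) : ind k T g (ZMod.unitsMap h w) = ind k T g w := by
  unfold ind
  refine if_congr (forall₂_congr fun q hq => ?_) rfl rfl
  rw [jc_map h (hT q hq)]

lemma ind_congr {T : Finset ℕ} {g g' : ℕ → ℤ} (h : ∀ q ∈ T, g q = g' q) (u : (ZMod M)ˣ) :
    ind k T g u = ind k T g' u := by
  unfold ind
  refine if_congr (forall₂_congr fun q hq => ?_) rfl rfl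
  rw [h q hq]

/-- the sum of the two classes -/
lemma ind_flip {T : Finset ℕ} {q : ℕ} (hq : q ∈ T) (hqM : q ∣ M) {g : ℕ → ℤ} (hg : Sgn T g)
    (u : (ZMod M)ˣ) : ind k T g u + ind k T (Function.update g q (-g q)) u =
      ind k (T.erase q) g u := by
  unfold ind
  have e1 : (∀ r ∈ T, jc r u = g r) ↔ (jc q u = g q ∧ ∀ r ∈ T.erase q, jc r u = g r) := by
    constructor
    · exact fun h => ⟨h q hq, fun r hr => h r (mem_of_mem_erase hr)⟩
    · rintro ⟨h1, h2⟩ r hr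
      by_cases hrq : r = q
      · rw [hrq]; exact h1
      · exact h2 r (mem_erase.2 ⟨hrq, hr⟩)
  have e2 : (∀ r ∈ T, jc r u = Function.update g q (-g q) r) ↔
      (jc q u = -g q ∧ ∀ r ∈ T.erase q, jc r u = g r) := by
    constructor
    · refine fun h => ⟨by rw [h q hq, Function.update_self], fun r hr => ?_⟩
      rw [h r (mem_of_mem_erase hr), Function.update_of_ne (ne_of_mem_erase hr)]
    · rintro ⟨h1, h2⟩ r hr
      by_cases hrq : r = q
      · rw [hrq, Function.update_self]; exact h1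
      · rw [Function.update_of_ne hrq]; exact h2 r (mem_erase.2 ⟨hrq, hr⟩)
  rw [if_congr e1 rfl rfl, if_congr e2 rfl rfl]
  by_cases h : ∀ r ∈ T.erase q, jc r u = g r
  · rw [if_pos h]
    rcases jc_sq hqM u with h1 | h1 <;> rcases hg q hq with h2 | h2
    · rw [if_pos ⟨by rw [h1, h2], h⟩, if_neg (by rw [h1, h2]; rintro ⟨h3, -⟩; omega), add_zero]
    · rw [if_neg (by rw [h1, h2]; rintro ⟨h3, -⟩; omega), if_pos ⟨by rw [h1, h2]; rfl, h⟩, zero_add]
    · rw [if_neg (by rw [h1, h2]; rintro ⟨h3, -⟩; omega), if_pos ⟨by rw [h1, h2], h⟩, zero_add]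
    · rw [if_pos ⟨by rw [h1, h2], h⟩, if_neg (by rw [h1, h2]; rintro ⟨h3, -⟩; omega), add_zero]
  · rw [if_neg (fun h' => h h'.2), if_neg (fun h' => h h'.2), if_neg h, add_zero]

end

section

variable {k : Type} [Field k] [CharP k 2] {f : ℕ} [NeZero f]

/-- the primes at which the character is trivial -/
structure TrivAt (X : (ZMod f)ˣ →* k) (q : ℕ) : Prop where
  four : q % 4 = 1
  one : ∀ t : (ZMod f)ˣ, (t : ZMod f) = (q : ZMod f) → X t = 1

/-- the sums over the classes agree -/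
def Cst (X : (ZMod f)ˣ →* k) (T : Finset ℕ) : Prop := ∀ (M : ℕ) [NeZero M] (h : f ∣ M),
  M = f * ∏ q ∈ T, q → ∀ T1 ⊆ T, (∀ q ∈ T1, TrivAt X q) → ∀ (b : (ZMod M)ˣ) (g g' : ℕ → ℤ),
  Sgn T1 g → Sgn T1 g' → SV b (WT X h T1 g) = SV b (WT X h T1 g')

/-- the primes of the level -/
def Lvl (f : ℕ) (T : Finset ℕ) : Prop := ∀ q ∈ T, q.Prime ∧ Odd q ∧ ¬ q ∣ f

lemma Lvl.mono {T T' : Finset ℕ} (h : T' ⊆ T) (hT : Lvl f T) : Lvl f T' :=
  fun q hq => hT q (h hq)

lemma lvl_not_dvd {T : Finset ℕ} (hT : Lvl f T) {q : ℕ} (hq : q.Prime) (hqT : q ∉ T)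
    (hqf : ¬ q ∣ f) : ¬ q ∣ f * ∏ r ∈ T, r := by
  intro h
  rcases (hq.dvd_mul).1 h with h | h
  · exact hqf h
  · rw [hq.prime.dvd_finsetProd_iff] at h
    obtain ⟨r, hr, h3⟩ := h
    rw [Nat.prime_dvd_prime_iff_eq hq (hT r hr).1] at h3
    rw [h3] at hqT
    exact hqT hr

lemma lvl_odd {T : Finset ℕ} (hf : Odd f) (hT : Lvl f T) : Odd (f * ∏ r ∈ T, r) :=
  hf.mul (Finset.prod_induction _ Odd (fun _ _ => Odd.mul) odd_one fun r hr => (hT r hr).2.1)

lemma lvl_ne {T : Finset ℕ} (hT : Lvl f T) : f * ∏ r ∈ T, r ≠ 0 :=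
  mul_ne_zero (NeZero.ne f) (prod_ne_zero_iff.2 fun r hr => (hT r hr).1.ne_zero)

lemma lvl_lt {T : Finset ℕ} (hf : 1 < f) (hT : Lvl f T) : 1 < f * ∏ r ∈ T, r :=
  lt_of_lt_of_le hf (Nat.le_mul_of_pos_right _ (Nat.pos_of_ne_zero
    (prod_ne_zero_iff.2 fun r hr => (hT r hr).1.ne_zero)))

/-- one flip -/
lemma flip_one {X : (ZMod f)ˣ →* k} (hf : Odd f) (hf1 : 1 < f) (hX : ∀ x, X (-x) = X x)
    {T : Finset ℕ} (hT : Lvl f T) {q : ℕ} (hqT : q ∈ T) (ih : Cst X (T.erase q))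
    (M : ℕ) [NeZero M] (h : f ∣ M) (hM : M = f * ∏ q ∈ T, q) {T1 : Finset ℕ} (hT1 : T1 ⊆ T)
    (hq1 : q ∈ T1) (htr : ∀ q ∈ T1, TrivAt X q) (b : (ZMod M)ˣ) {g : ℕ → ℤ} (hg : Sgn T1 g) :
    SV b (WT X h T1 g) = SV b (WT X h T1 (Function.update g q (-g q))) := by
  obtain ⟨hqp, hqo, hqf⟩ := hT q hqT
  have hT' : Lvl f (T.erase q) := hT.mono (erase_subset _ _)
  obtain ⟨M', hM'⟩ : ∃ M', M' = f * ∏ r ∈ T.erase q, r := ⟨_, rfl⟩
  have hMM : M = M' * q := by
    rw [hM, hM', mul_assoc, mul_comm _ q, mul_prod_erase T (fun r => r) hqT]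
  subst hMM
  have : NeZero M' := ⟨by rw [hM']; exact lvl_ne hT'⟩
  have hMo : Odd M' := by rw [hM']; exact lvl_odd hf hT'
  have hM1 : 1 < M' := by rw [hM']; exact lvl_lt hf1 hT'
  have hqM : ¬ q ∣ M' := by rw [hM']; exact lvl_not_dvd hT' hqp (notMem_erase q T) hqf
  have h' : f ∣ M' := by rw [hM']; exact dvd_mul_right _ _
  obtain ⟨t, ht⟩ : ∃ t : (ZMod M')ˣ, (t : ZMod M') = (q : ZMod M') :=
    ⟨ZMod.unitOfCoprime q ((Nat.Prime.coprime_iff_not_dvd hqp).2 hqM), ZMod.coe_unitOfCoprime _ _⟩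
  have hdv : ∀ r ∈ T1.erase q, r ∣ M' := by
    intro r hr
    rw [hM']
    exact dvd_mul_of_dvd_right (dvd_prod_of_mem _ (erase_subset_erase q hT1 hr)) _
  have hXt : X (ZMod.unitsMap h' t) = 1 := by
    refine (htr q hq1).one _ ?_
    rw [ZMod.unitsMap_val, ht, ZMod.cast_natCast h']
  have hneg : ∀ u : (ZMod M')ˣ, WT X h' (T1.erase q) g (-u) = WT X h' (T1.erase q) g u := by
    intro u
    unfold WT
    rw [unitsMap_neg, hX, ind_neg fun r hr => ⟨hdv r hr, (hT r (hT1 (mem_of_mem_erase hr))).1,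
      (htr r (mem_of_mem_erase hr)).four⟩]
  have e1 : SV b (WT X h T1 g) + SV b (WT X h T1 (Function.update g q (-g q))) =
      SV b (fun w => WT X h' (T1.erase q) g (ZMod.unitsMap (dvd_mul_right M' q) w)) := by
    rw [← SV_add]
    refine SV_congr fun w => ?_
    unfold WT
    rw [← mul_add, ind_flip hq1 (dvd_mul_left q M') hg, ind_map _ hdv]
    congr 2
    rw [← MonoidHom.comp_apply, ZMod.unitsMap_comp]
  have e2 : SV b (fun w => WT X h' (T1.erase q) g (ZMod.unitsMap (dvd_mul_right M' q) w)) = 0 := by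
    rw [SV_push hMo hM1 hqo hqp hqM ht b hneg, SV_add]
    have e3 : ∀ u : (ZMod M')ˣ, WT X h' (T1.erase q) g (t * u) =
        WT X h' (T1.erase q) (fun r => g r * jc r t) u := by
      intro u
      unfold WT
      rw [map_mul, map_mul, hXt, one_mul, ind_mul hdv]
    rw [SV_congr e3, ih M' h' hM' (T1.erase q) (erase_subset_erase q hT1)
      (fun r hr => htr r (mem_of_mem_erase hr)) _ (fun r => g r * jc r t) g ?_
      (hg.mono (erase_subset _ _)), CharTwo.add_self_eq_zero]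
    intro r hr
    rcases hg r (mem_of_mem_erase hr) with h1 | h1 <;> rcases jc_sq (hdv r hr) t with h2 | h2 <;>
      simp only [h1, h2] <;> norm_num
  rw [e2] at e1
  exact CharTwo.add_eq_zero.1 e1

/-- **the sums over the classes agree** -/
theorem cst {X : (ZMod f)ˣ →* k} (hf : Odd f) (hf1 : 1 < f) (hX : ∀ x, X (-x) = X x) :
    ∀ (T : Finset ℕ), Lvl f T → Cst X T := by
  intro T
  induction T using Finset.strongInduction with
  | H T ih =>
    intro hT M _ h hM T1 hT1 htr b g g' hg hg'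
    obtain ⟨n, hn⟩ : ∃ n, n = (T1.filter fun q => g q ≠ g' q).card := ⟨_, rfl⟩
    induction n generalizing g with
    | zero =>
      have h2 : ∀ q ∈ T1, g q = g' q := by
        intro q hq
        by_contra hne
        have h3 := card_eq_zero.1 hn.symm
        have h4 : q ∈ T1.filter fun q => g q ≠ g' q := mem_filter.2 ⟨hq, hne⟩
        rw [h3] at h4
        exact notMem_empty q h4
      refine SV_congr fun u => ?_
      unfold WT
      rw [ind_congr h2]
    | succ n ihn =>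
      obtain ⟨q, hq⟩ : (T1.filter fun q => g q ≠ g' q).Nonempty := by
        rw [← card_pos]; omega
      obtain ⟨hq1, hqne⟩ := mem_filter.1 hq
      rw [flip_one hf hf1 hX hT (hT1 hq1) (ih _ (erase_ssubset (hT1 hq1))
        (hT.mono (erase_subset _ _))) M h hM hT1 hq1 htr b hg]
      refine ihn (Function.update g q (-g q)) ?_ ?_
      · intro r hr
        by_cases hrq : r = q
        · rw [hrq, Function.update_self]
          rcases hg q hq1 with h1 | h1 <;> rw [h1] <;> norm_num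
        · rw [Function.update_of_ne hrq]; exact hg r hr
      · have h3 : (T1.filter fun r => Function.update g q (-g q) r ≠ g' r) =
            (T1.filter fun q => g q ≠ g' q).erase q := by
          ext r
          rw [mem_erase, mem_filter, mem_filter]
          by_cases hrq : r = q
          · rw [hrq, Function.update_self]
            have h4 : -g q = g' q := by
              rcases hg q hq1 with h1 | h1 <;> rcases hg' q hq1 with h2 | h2 <;>
                rw [h1, h2] at hqne ⊢ <;> first | exact absurd rfl hqne | norm_num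
            exact ⟨fun h5 => absurd h4 h5.2, fun h5 => absurd rfl h5.1⟩
          · rw [Function.update_of_ne hrq]
            exact ⟨fun h5 => ⟨hrq, h5⟩, fun h5 => h5.2⟩
        rw [h3, card_erase_of_mem hq, ← hn]
        rfl

end

end Pool.Agent.W2helper41.L
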