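import Pool.Agent.W2helper41.L.Ana
import Pool.Agent.Y702.L.Loc
import Pool.Agent.Y44.XF.Mind

/-!
# The decomposition of the primes in a subfield of a cyclotomic field
-/

set_option autoImplicit false
set_option linter.unusedSectionVars false
set_option linter.unusedVariables false

open Finset NumberField IsDedekindDomain IsCyclotomicExtension.Rat H300.HW WithZero

namespace Pool.Agent.W2helper41.L

open scoped Classical

open Polynomial (C X)

open Pool.Agent.H921R2.TatePole (below deg nm nm_eq)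

open Pool.Agent.Y702.L (pv local_all)

open Pool.Agent.Y682.XT

section

variable {q : ℕ} [NeZero q] {L : Type} [Field L] [NumberField L] [IsCyclotomicExtension {q} ℚ L]
  {K : IntermediateField ℚ L}

lemma pv_eq {χ : DirichletCharacter ℂ q} {p : ℕ} {u : (ZMod q)ˣ} (hu : (u : ZMod q) = (p : ZMod q)) :
    pv q χ p = χ (p : ZMod q) := by
  unfold pv
  rw [← hu, prim_unit χ u]
  congr 1
  rw [ZMod.unitsMap_val, hu, ZMod.cast_natCast χ.conductor_dvd_level]

/-- the values of the characters -/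
lemma pv_cf (ψ : GG q L K →* ℂˣ) {p : ℕ} {u : (ZMod q)ˣ} (hu : (u : ZMod q) = (p : ZMod q)) :
    pv q (cf q L K ψ) p = ((ψ (mkG q L K u) : ℂˣ) : ℂ) := by
  rw [pv_eq hu, ← hu, cf_apply]

variable (q L K) in
/-- a product over the characters -/
lemma prod_YY {A : Type} [CommMonoid A] [Fintype (GG q L K →* ℂˣ)]
    (F : DirichletCharacter ℂ q → A) :
    ∏ χ : YY q L K, F χ = ∏ ψ : GG q L K →* ℂˣ, F (cf q L K ψ) := by
  symm
  refine prod_bij (fun ψ _ => (⟨cf q L K ψ, cf_mem ψ⟩ : YY q L K)) ?_ ?_ ?_ ?_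
  · intro ψ _; exact mem_univ _
  · intro ψ _ ψ' _ h
    exact cf_inj (congrArg Subtype.val h)
  · rintro ⟨χ, hχ⟩ _
    obtain ⟨ψ, rfl⟩ := cf_surj hχ
    exact ⟨ψ, mem_univ _, rfl⟩
  · intro ψ _; rfl

/-- the local identity -/
lemma loc_id [Fintype (GG q L K →* ℂˣ)] (p : Nat.Primes) {u : (ZMod q)ˣ}
    (hu : (u : ZMod q) = ((p : ℕ) : ZMod q)) :
    (∏ v : {v : HeightOneSpectrum (𝓞 K) // below v = p}, (1 - X ^ deg v.1) : Polynomial ℂ) =
      ∏ ψ : GG q L K →* ℂˣ, (1 - C ((ψ (mkG q L K u) : ℂˣ) : ℂ) * X) := by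
  apply Polynomial.funext
  intro y
  rw [Polynomial.eval_prod, Polynomial.eval_prod]
  simp only [Polynomial.eval_sub, Polynomial.eval_one, Polynomial.eval_mul, Polynomial.eval_C,
      Polynomial.eval_X, Polynomial.eval_pow]
  rw [local_all q L K p y, prod_YY q L K (fun χ => 1 - pv q χ p * y)]
  exact prod_congr rfl fun ψ _ => by rw [pv_cf ψ hu]

lemma exists_unit {p : ℕ} (hp : p.Prime) (hpq : ¬ p ∣ q) :
    ∃ u : (ZMod q)ˣ, (u : ZMod q) = (p : ZMod q) :=
  ⟨ZMod.unitOfCoprime p ((Nat.Prime.coprime_iff_not_dvd hp).2 hpq), ZMod.coe_unitOfCoprime p _⟩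

/-- the residue degrees are odd -/
theorem deg_odd (hodd : Odd (Module.finrank ℚ K)) (v : HeightOneSpectrum (𝓞 K))
    (hpq : ¬ (below v : ℕ) ∣ q) : Odd (deg v) := by
  have : Finite (GG q L K →* ℂˣ) := Finite.of_injective (cf q L K) cf_inj
  have hf : Fintype (GG q L K →* ℂˣ) := Fintype.ofFinite _
  have hfG : Fintype (GG q L K) := Fintype.ofFinite _
  obtain ⟨u, hu⟩ := exists_unit (below v).2 hpq
  have h1 := congrArg (Polynomial.eval (-1)) (loc_id (K := K) (below v) hu)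
  rw [Polynomial.eval_prod, Polynomial.eval_prod] at h1
  simp only [Polynomial.eval_sub, Polynomial.eval_one, Polynomial.eval_mul, Polynomial.eval_C,
      Polynomial.eval_X, Polynomial.eval_pow] at h1
  by_contra hcon
  rw [Nat.not_odd_iff_even] at hcon
  rw [prod_eq_zero (i := (⟨v, rfl⟩ : {w : HeightOneSpectrum (𝓞 K) // below w = below v}))
    (mem_univ _) (by rw [hcon.neg_one_pow, sub_self])] at h1
  obtain ⟨ψ, -, h2⟩ := prod_eq_zero_iff.1 h1.symm
  have h3 : ((ψ (mkG q L K u) : ℂˣ) : ℂ) = -1 := by linear_combination h2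
  have h4 : ((ψ (mkG q L K u) : ℂˣ) : ℂ) ^ Fintype.card (GG q L K) = 1 := by
    rw [← Units.val_pow_eq_pow_val, ← map_pow, pow_card_eq_one, map_one, Units.val_one]
  rw [h3, (card_odd hodd).neg_one_pow] at h4
  norm_num at h4

lemma natDegree_lin {a : ℂ} (ha : a ≠ 0) : (1 - C a * X : Polynomial ℂ).natDegree = 1 := by
  have : (1 - C a * X : Polynomial ℂ) = C (-a) * X + C 1 := by
    rw [map_neg, map_one]
    ring
  rw [this]
  exact Polynomial.natDegree_linear (neg_ne_zero.2 ha)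

lemma natDegree_one_sub {d : ℕ} (hd : d ≠ 0) : (1 - X ^ d : Polynomial ℂ).natDegree = d := by
  have : (1 - X ^ d : Polynomial ℂ) = -(X ^ d - C 1) := by
    rw [map_one]
    ring
  rw [this, Polynomial.natDegree_neg, Polynomial.natDegree_X_pow_sub_C]

lemma card_dual [Fintype (GG q L K →* ℂˣ)] :
    Fintype.card (GG q L K →* ℂˣ) = Module.finrank ℚ K := by
  rw [← card_GG (q := q), ← CommGroup.card_monoidHom_of_hasEnoughRootsOfUnity (GG q L K) ℂ,
    Nat.card_eq_fintype_card]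

/-- the sum of the residue degrees -/
theorem sum_deg (p : Nat.Primes) (hpq : ¬ (p : ℕ) ∣ q) :
    ∑ v : {v : HeightOneSpectrum (𝓞 K) // below v = p}, deg v.1 = Module.finrank ℚ K := by
  have : Finite (GG q L K →* ℂˣ) := Finite.of_injective (cf q L K) cf_inj
  have hf : Fintype (GG q L K →* ℂˣ) := Fintype.ofFinite _
  obtain ⟨u, hu⟩ := exists_unit p.2 hpq
  have h1 := congrArg Polynomial.natDegree (loc_id (K := K) p hu)
  rw [Polynomial.natDegree_prod _ _ (fun v _ => by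
      intro h
      have h2 := natDegree_one_sub (nm_eq v.1).2.1.ne'
      rw [h, Polynomial.natDegree_zero] at h2
      exact (nm_eq v.1).2.1.ne' h2.symm),
    Polynomial.natDegree_prod _ _ (fun ψ _ => by
      intro h
      have h2 := natDegree_lin (ψ (mkG q L K u)).ne_zero
      rw [h, Polynomial.natDegree_zero] at h2
      exact absurd h2 (by norm_num)),
    sum_congr rfl fun v _ => natDegree_one_sub (nm_eq v.1).2.1.ne',
    sum_congr rfl fun ψ _ => natDegree_lin (ψ (mkG q L K u)).ne_zero, sum_const, card_univ,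
    card_dual, smul_eq_mul, mul_one] at h1
  exact h1

lemma mult_eq {A B : Polynomial ℂ} {m n : ℕ} (h : (1 - X) ^ m * A = (1 - X) ^ n * B)
    (hA : A.eval 1 ≠ 0) (hB : B.eval 1 ≠ 0) : m = n := by
  have hX : (1 - X : Polynomial ℂ) ≠ 0 := by
    intro h
    have := congrArg (Polynomial.eval 0) h
    simp at this
  have key : ∀ {A B : Polynomial ℂ} {m n : ℕ}, (1 - X) ^ m * A = (1 - X) ^ n * B →
      A.eval 1 ≠ 0 → ¬ m < n := by
    intro A B m n h hA hlt
    obtain ⟨r, rfl⟩ := Nat.exists_eq_add_of_lt hlt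
    have h1 : (1 - X) ^ m * A = (1 - X) ^ m * ((1 - X) ^ (r + 1) * B) := by
      rw [h]
      ring
    have h2 := mul_left_cancel₀ (pow_ne_zero m hX) h1
    apply hA
    rw [h2]
    simp
  rcases lt_trichotomy m n with h1 | h1 | h1
  · exact absurd h1 (key h hA)
  · exact h1
  · exact absurd h1 (key h.symm hB)

/-- **the number of the primes above `p`** -/
theorem card_fib [Fintype (GG q L K →* ℂˣ)] (p : Nat.Primes) {u : (ZMod q)ˣ}
    (hu : (u : ZMod q) = ((p : ℕ) : ZMod q)) :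
    Fintype.card {v : HeightOneSpectrum (𝓞 K) // below v = p} =
      (univ.filter (fun ψ : GG q L K →* ℂˣ => ψ (mkG q L K u) = 1)).card := by
  have h1 := loc_id (K := K) p hu
  refine mult_eq (A := ∏ v : {v : HeightOneSpectrum (𝓞 K) // below v = p},
      ∑ i ∈ range (deg v.1), X ^ i)
    (B := ∏ ψ ∈ univ.filter (fun ψ : GG q L K →* ℂˣ => ¬ ψ (mkG q L K u) = 1),
      (1 - C ((ψ (mkG q L K u) : ℂˣ) : ℂ) * X)) ?_ ?_ ?_
  · have e1 : ∀ v : {v : HeightOneSpectrum (𝓞 K) // below v = p},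
        (1 - X ^ deg v.1 : Polynomial ℂ) = (1 - X) * ∑ i ∈ range (deg v.1), X ^ i := by
      intro v
      rw [mul_neg_geom_sum]
    have e2 : ∏ ψ ∈ univ.filter (fun ψ : GG q L K →* ℂˣ => ψ (mkG q L K u) = 1),
        (1 - C ((ψ (mkG q L K u) : ℂˣ) : ℂ) * X) =
        (1 - X) ^ (univ.filter (fun ψ : GG q L K →* ℂˣ => ψ (mkG q L K u) = 1)).card := by
      rw [← prod_const]
      refine prod_congr rfl fun ψ hψ => ?_
      rw [(mem_filter.1 hψ).2, Units.val_one, map_one, one_mul]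
    rw [← prod_filter_mul_prod_filter_not univ
      (fun ψ : GG q L K →* ℂˣ => ψ (mkG q L K u) = 1), e2, prod_congr rfl fun v _ => e1 v,
      prod_mul_distrib, prod_const, card_univ] at h1
    exact h1
  · rw [Polynomial.eval_prod, prod_ne_zero_iff]
    intro v _
    rw [Polynomial.eval_finset_sum]
    simp only [Polynomial.eval_pow, Polynomial.eval_X, one_pow, sum_const, card_range,
      nsmul_eq_mul, mul_one]
    exact_mod_cast (nm_eq v.1).2.1.ne'
  · rw [Polynomial.eval_prod, prod_ne_zero_iff]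
    intro ψ hψ
    simp only [Polynomial.eval_sub, Polynomial.eval_one, Polynomial.eval_mul, Polynomial.eval_C,
      Polynomial.eval_X, mul_one]
    intro h
    apply (mem_filter.1 hψ).2
    apply Units.ext
    rw [Units.val_one]
    linear_combination -h

lemma below_eq {v : HeightOneSpectrum (𝓞 K)} {p : ℕ} (hp : p.Prime)
    (h : ((p : ℕ) : 𝓞 K) ∈ v.asIdeal) : below v = ⟨p, hp⟩ :=
  Pool.Agent.H82R3.EK.below_eq_of_mem (p := ⟨p, hp⟩) K v h

/-- the primes that do not divide the level are unramified -/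
theorem val_unr (v : HeightOneSpectrum (𝓞 K)) (hpq : ¬ (below v : ℕ) ∣ q) :
    v.valuation K ((below v : ℕ) : K) = exp (-1 : ℤ) := by
  obtain ⟨p, hpv⟩ : ∃ p, p = below v := ⟨_, rfl⟩
  rw [← hpv] at hpq ⊢
  have hsum := sum_deg (K := K) p hpq
  set J : Ideal (𝓞 K) := ∏ w : {v : HeightOneSpectrum (𝓞 K) // below v = p}, w.1.asIdeal with hJ
  have hpm : ∀ w : {v : HeightOneSpectrum (𝓞 K) // below v = p},
      ((p : ℕ) : 𝓞 K) ∈ w.1.asIdeal := by
    intro w
    have := (nm_eq w.1).2.2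
    rwa [w.2] at this
  have hcop : ∀ u w : HeightOneSpectrum (𝓞 K), u ≠ w → IsCoprime u.asIdeal w.asIdeal := by
    intro u w huw
    have hne : u.asIdeal ≠ w.asIdeal := fun h => huw (HeightOneSpectrum.ext h)
    rw [Ideal.isCoprime_iff_sup_eq]
    exact (u.isPrime.isMaximal u.ne_bot).coprime_of_ne (w.isPrime.isMaximal w.ne_bot) hne
  have hdvd : J ∣ Ideal.span {(((p : ℕ) : 𝓞 K))} := by
    refine Finset.prod_dvd_of_isRelPrime ?_ ?_
    · intro u _ w _ huw
      exact (hcop u.1 w.1 (fun h => huw (Subtype.ext h))).isRelPrime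
    · intro w _
      rw [Ideal.dvd_iff_le, Ideal.span_singleton_le_iff_mem]
      exact hpm w
  have hnJ : Ideal.absNorm J = (p : ℕ) ^ Module.finrank ℚ K := by
    rw [hJ, map_prod, ← hsum, ← prod_pow_eq_pow_sum]
    refine prod_congr rfl fun w _ => ?_
    have := (nm_eq w.1).1
    rw [w.2] at this
    exact this
  have hnp : Ideal.absNorm (Ideal.span {(((p : ℕ) : 𝓞 K))}) = (p : ℕ) ^ Module.finrank ℚ K := by
    rw [Ideal.absNorm_span_natCast, RingOfIntegers.rank]
  have heq : J = Ideal.span {(((p : ℕ) : 𝓞 K))} := by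
    obtain ⟨I, hI⟩ := hdvd
    have h1 := congrArg Ideal.absNorm hI
    rw [map_mul, hnJ, hnp] at h1
    have h2 : Ideal.absNorm I = 1 := by
      have h3 : (p : ℕ) ^ Module.finrank ℚ K ≠ 0 := pow_ne_zero _ p.2.ne_zero
      exact (Nat.mul_left_cancel (Nat.pos_of_ne_zero h3) (by rw [mul_one]; exact h1)).symm
    rw [Ideal.absNorm_eq_one_iff] at h2
    rw [hI, h2, Ideal.mul_top]
  have hv : v.asIdeal ∣ Ideal.span {(((p : ℕ) : 𝓞 K))} := by
    rw [Ideal.dvd_iff_le, Ideal.span_singleton_le_iff_mem]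
    exact hpm ⟨v, hpv.symm⟩
  have hv2 : ¬ v.asIdeal ^ 2 ∣ Ideal.span {(((p : ℕ) : 𝓞 K))} := by
    rw [← heq, hJ, ← mul_prod_erase univ _ (mem_univ (⟨v, hpv.symm⟩ :
      {v : HeightOneSpectrum (𝓞 K) // below v = p})), pow_two]
    intro h
    have hv0 : v.asIdeal ≠ 0 := v.ne_bot
    have h1 := (mul_dvd_mul_iff_left hv0).1 h
    have h2 : IsCoprime v.asIdeal (∏ w ∈ univ.erase (⟨v, hpv.symm⟩ :
        {v : HeightOneSpectrum (𝓞 K) // below v = p}), w.1.asIdeal) := by
      refine IsCoprime.prod_right fun w hw => hcop _ _ ?_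
      rintro rfl
      exact (mem_erase.1 hw).1 rfl
    exact v.isPrime.ne_top (Ideal.isUnit_iff.1 (h2.isUnit_of_dvd' dvd_rfl h1))
  have e : algebraMap (𝓞 K) K (((p : ℕ) : 𝓞 K)) = ((p : ℕ) : K) := map_natCast _ _
  rw [← e, v.valuation_of_algebraMap]
  have h1 : v.intValuation (((p : ℕ) : 𝓞 K)) ≤ exp (-((1 : ℕ) : ℤ)) := by
    rw [v.intValuation_le_pow_iff_dvd, pow_one]
    exact hv
  have h2 : ¬ v.intValuation (((p : ℕ) : 𝓞 K)) ≤ exp (-((2 : ℕ) : ℤ)) := by
    rw [v.intValuation_le_pow_iff_dvd]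
    exact hv2
  have hp0 : (((p : ℕ) : 𝓞 K)) ≠ 0 := Nat.cast_ne_zero.2 p.2.ne_zero
  have h3 : v.intValuation (((p : ℕ) : 𝓞 K)) ≠ 0 := v.intValuation_ne_zero _ hp0
  obtain ⟨n, hn⟩ : ∃ n : ℤ, v.intValuation (((p : ℕ) : 𝓞 K)) = exp n :=
    ⟨_, (WithZero.exp_log h3).symm⟩
  rw [hn, exp_le_exp] at h1 h2
  rw [hn]
  congr 1
  push_cast at h1 h2
  omega

end

end Pool.Agent.W2helper41.L
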