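import Pool.Agent.W2helper41.L.Dec
import Pool.Agent.W2helper41.X.Sel
import Pool.Agent.Y682.XF.Dsc

/-!
# The descent when the inert-type primes decompose
-/

set_option autoImplicit false
set_option linter.unusedSectionVars false
set_option linter.unusedVariables false

open Finset NumberField NumberField.InfinitePlace IsDedekindDomain WeierstrassCurve

namespace Pool.Agent.W2helper41.L

open scoped Classical

open Pool.Agent.H921R2.TatePole (below deg nm nm_eq)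

open Pool.Agent.Y682 (NCl gc BadOK)

open Pool.Agent.Y682.XF (prime_Q ncl_Q trans_D rank Sha2)

open Pool.Agent.Y700 (WM)

open Pool.Agent.W2helper41.X (Ine Spl sq_seven cast_ne)

lemma sq_all (x : ZMod 2) : IsSquare x := by
  fin_cases x
  · exact ⟨0, rfl⟩
  · exact ⟨1, rfl⟩

section

variable {K : Type} [Field K] [NumberField K]

/-- a nonsquare modulo `p` is not a square modulo a place of odd degree above `p` -/
theorem no_sq (v : HeightOneSpectrum (𝓞 K)) (hodd : Odd (deg v)) {c : ℤ}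
    (hc : ¬ IsSquare (c : ZMod (below v : ℕ))) (b : 𝓞 K) : b ^ 2 - (c : 𝓞 K) ∉ v.asIdeal := by
  obtain ⟨p, hp⟩ : ∃ p : ℕ, p = (below v : ℕ) := ⟨_, rfl⟩
  have hpp : p.Prime := by rw [hp]; exact (below v).2
  obtain ⟨h1, h2, h3⟩ := nm_eq v
  rw [← hp] at hc h1 h3
  intro hb
  have : Fact p.Prime := ⟨hpp⟩
  have hp2 : p ≠ 2 := by
    rintro rfl
    apply hc
    exact sq_all _
  set P : Ideal (𝓞 K) := v.asIdeal with hP
  have hmax : P.IsMaximal := v.isMaximal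
  let _ : Field (𝓞 K ⧸ P) := Ideal.Quotient.field P
  have hcard : Nat.card (𝓞 K ⧸ P) = p ^ deg v := by
    rw [← h1]
    exact (Submodule.cardQuot_apply P).symm
  have hfin : Finite (𝓞 K ⧸ P) := by
    apply Nat.finite_of_card_ne_zero
    rw [hcard]
    exact pow_ne_zero _ hpp.ne_zero
  have := Fintype.ofFinite (𝓞 K ⧸ P)
  have hmk : ∀ m : ℤ, (p : ℤ) ∣ m → ((m : ℤ) : 𝓞 K ⧸ P) = 0 := by
    rintro m ⟨t, rfl⟩
    have h1 : Ideal.Quotient.mk P ((p : ℕ) : 𝓞 K) = 0 := Ideal.Quotient.eq_zero_iff_mem.2 h3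
    rw [map_natCast] at h1
    push_cast
    rw [h1, zero_mul]
  have hmk' : ∀ m : ℤ, ¬ (p : ℤ) ∣ m → ((m : ℤ) : 𝓞 K ⧸ P) ≠ 0 := by
    intro m hm h0
    obtain ⟨a, b, hab⟩ : IsCoprime (p : ℤ) m :=
      (Prime.irreducible (Nat.prime_iff_prime_int.1 hpp)).coprime_iff_not_dvd.2 hm
    have h4 := congrArg (fun z : ℤ => (z : 𝓞 K ⧸ P)) hab
    push_cast at h4
    have h5 := hmk p dvd_rfl
    rw [Int.cast_natCast] at h5
    rw [h0, h5, mul_zero, mul_zero, add_zero] at h4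
    exact zero_ne_one h4
  set y : 𝓞 K ⧸ P := Ideal.Quotient.mk P b with hy
  have hy1 : y ^ 2 = ((c : ℤ) : 𝓞 K ⧸ P) := by
    have h2 : Ideal.Quotient.mk P (b ^ 2 - (c : 𝓞 K)) = 0 := Ideal.Quotient.eq_zero_iff_mem.2 hb
    rw [map_sub, map_pow, map_intCast] at h2
    linear_combination h2
  have hodd' : p % 2 = 1 := (hpp.eq_two_or_odd).resolve_left hp2
  have hc0 : (c : ZMod p) ≠ 0 := by
    intro h0
    apply hc
    rw [h0]
    exact ⟨0, by ring⟩
  have h7 : ((c : ℤ) : 𝓞 K ⧸ P) ^ (p / 2) = -1 := by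
    have h1 : (c : ZMod p) ^ (p / 2) = -1 := by
      rcases ZMod.pow_div_two_eq_neg_one_or_one p hc0 with h | h
      · exact absurd ((ZMod.euler_criterion p hc0).2 h) hc
      · exact h
    have h2 : (p : ℤ) ∣ c ^ (p / 2) + 1 := by
      rw [← ZMod.intCast_zmod_eq_zero_iff_dvd]
      push_cast
      rw [h1]
      ring
    have h3 := hmk _ h2
    push_cast at h3 ⊢
    linear_combination h3
  have hfrob : y ^ p = -y := by
    have e : p = 2 * (p / 2) + 1 := by omega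
    have h1 : y ^ p = (y ^ 2) ^ (p / 2) * y := by
      conv_lhs => rw [e]
      rw [pow_succ, pow_mul]
    rw [h1, hy1, h7]
    ring
  have hpow : ∀ k : ℕ, y ^ p ^ k = (-1) ^ k * y := by
    intro k
    induction k with
    | zero => simp
    | succ k ih =>
      rw [pow_succ, pow_mul, ih, mul_pow, hfrob, ← pow_mul, mul_comm k p, pow_mul,
        (Nat.odd_iff.2 hodd').neg_one_pow, pow_succ]
      ring
  have hlast : y ^ p ^ deg v = y := by
    rw [← hcard, Nat.card_eq_fintype_card]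
    exact FiniteField.pow_card y
  rw [hpow, hodd.neg_one_pow] at hlast
  have h2y : ((2 : ℤ) : 𝓞 K ⧸ P) * y = 0 := by
    push_cast
    linear_combination -hlast
  have h2 : ((2 : ℤ) : 𝓞 K ⧸ P) ≠ 0 := by
    apply hmk'
    intro h
    have := (Nat.prime_dvd_prime_iff_eq hpp Nat.prime_two).1 (by exact_mod_cast h)
    exact hp2 this
  have hy0 : y = 0 := (mul_eq_zero.1 h2y).resolve_left h2
  rw [hy0] at hy1
  apply hmk' c _ (by rw [← hy1]; ring)
  intro h1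
  exact hc0 ((ZMod.intCast_zmod_eq_zero_iff_dvd c p).2 h1)

end

lemma Ine.nsq7 {p : ℕ} (h : Ine p) : ¬ IsSquare (-7 : ZMod p) := by
  have : Fact p.Prime := ⟨h.1⟩
  have h8 := h.2.1
  rw [sq_seven p (by omega) (by rintro rfl; omega)]
  have := h.2.2
  omega

lemma Ine.nsq2 {p : ℕ} (h : Ine p) : ¬ IsSquare (2 : ZMod p) := by
  have : Fact p.Prime := ⟨h.1⟩
  have h8 := h.2.1
  rw [ZMod.exists_sq_eq_two_iff (by rintro rfl; omega)]
  omega

lemma Ine.nsqA {p : ℕ} (h : Ine p) : ¬ IsSquare ((128 : ℤ) : ZMod p) := by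
  have : Fact p.Prime := ⟨h.1⟩
  rintro ⟨r, hr⟩
  apply Ine.nsq2 h
  have n2 := h.two_ne
  have n8 : (8 : ZMod p) ≠ 0 := by
    rw [show (8 : ZMod p) = 2 ^ 3 by norm_num]; exact pow_ne_zero _ n2
  refine ⟨r / 8, ?_⟩
  rw [div_mul_div_comm, ← hr, eq_div_iff (mul_ne_zero n8 n8)]
  push_cast
  ring

lemma Ine.nsqB {p : ℕ} (h : Ine p) : ¬ IsSquare (((13 : ℤ) ^ 2 - 4 * (128 : ℤ) : ℤ) : ZMod p) := by
  have : Fact p.Prime := ⟨h.1⟩
  rintro ⟨r, hr⟩
  apply Ine.nsq7 h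
  have n7 := h.seven_ne
  refine ⟨r / 7, ?_⟩
  rw [div_mul_div_comm, ← hr, eq_div_iff (mul_ne_zero n7 n7)]
  push_cast
  ring

section

variable {q : ℕ} [NeZero q] {L : Type} [Field L] [NumberField L] [IsCyclotomicExtension {q} ℚ L]
  {K : IntermediateField ℚ L}

/-- the condition on the primes of the twist -/
def Cnd (q : ℕ) {L : Type} [Field L] [NumberField L] (K : IntermediateField ℚ L) (D : ℤ) : Prop :=
  ∀ p : ℕ, p.Prime → (p : ℤ) ∣ D → ¬ p ∣ q ∧ (Ine p ∨ (Ideal.span {((p : ℕ) : 𝓞 K)}).IsPrime)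

/-- the stability over a field of odd degree -/
theorem stabT (hre : ∀ w : InfinitePlace K, w.IsReal)
    (hcl : Odd (Nat.card (NCl K))) (hodd : Odd (Module.finrank ℚ K))
    (hp2 : (Ideal.span {((2 : ℕ) : 𝓞 K)}).IsPrime) (hp7 : (Ideal.span {((7 : ℕ) : 𝓞 K)}).IsPrime)
    {D : ℤ} (hD : Odd D) (hpd : Cnd q K D) :
    Pool.Agent.TH841.NF.D.rk (gc (13 * D) (128 * D ^ 2) K) =
      Pool.Agent.TH841.SH.D.rk (gc (13 * D) (128 * D ^ 2) ℚ) ∧
    Nonempty (AddCommGroup.primaryComponent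
        (Pool.Agent.TH841.NF.D.Sha (gc (13 * D) (128 * D ^ 2) K)) 2 ≃+
      AddCommGroup.primaryComponent
        (Pool.Agent.TH841.SH.D.Sha (gc (13 * D) (128 * D ^ 2) ℚ)) 2) := by
  have htr : IsTotallyReal K := ⟨hre⟩
  obtain ⟨k, hk⟩ := hD
  have hd0 : D ≠ 0 := by omega
  have hd2 : 0 < D ^ 2 := by positivity
  have hp2' : (Ideal.span {(2 : 𝓞 K)}).IsPrime := by exact_mod_cast hp2
  refine @Pool.Agent.Y682.stabH K _ _ htr DivisionRing.toRatAlgebra inferInstance (13 * D)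
    (128 * D ^ 2) (by positivity) (by nlinarith) (by omega)
    ⟨fun _ => Or.inl (by omega), fun _ => ⟨by positivity, Or.inr (by nlinarith)⟩⟩
    (fun _ => ⟨fun h => by omega, fun h => by omega⟩) hp2' hcl hodd ?_
  intro p hp hdvd
  have hpi := Nat.prime_iff_prime_int.1 hp
  have e : 128 * D ^ 2 * ((13 * D) ^ 2 - 4 * (128 * D ^ 2)) = -(2 ^ 7 * 7 ^ 3 * D ^ 4) := by ring
  rw [e, dvd_neg] at hdvd
  rcases hpi.dvd_mul.1 hdvd with h | h
  · refine Or.inl ?_
    rcases hpi.dvd_mul.1 h with h | h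
    · have h1 : p ∣ 2 := by exact_mod_cast hpi.dvd_of_dvd_pow h
      rw [(Nat.prime_dvd_prime_iff_eq hp Nat.prime_two).1 h1]
      exact Pool.Agent.Y657.XD.uniq Nat.prime_two hp2
    · have h1 : p ∣ 7 := by exact_mod_cast hpi.dvd_of_dvd_pow h
      rw [(Nat.prime_dvd_prime_iff_eq hp (by norm_num)).1 h1]
      exact Pool.Agent.Y657.XD.uniq (by norm_num) hp7
  · obtain ⟨hpq, h1 | h1⟩ := hpd p hp (hpi.dvd_of_dvd_pow h)
    · refine Or.inr ⟨?_, D, 13, 128, hd0, by ring, by ring, ?_⟩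
      · rintro rfl
        have := h1.2.1
        omega
      · intro v hv x
        have hb := below_eq (K := K) hp hv
        have hdv : Odd (deg v) := deg_odd (q := q) hodd v (by rw [hb]; exact hpq)
        have hA : ¬ IsSquare ((128 : ℤ) : ZMod (below v : ℕ)) := by rw [hb]; exact Ine.nsqA h1
        have hB : ¬ IsSquare (((13 : ℤ) ^ 2 - 4 * (128 : ℤ) : ℤ) : ZMod (below v : ℕ)) := by
          rw [hb]; exact Ine.nsqB h1
        exact ⟨no_sq v hdv hA x, no_sq v hdv hB x⟩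
    · exact Or.inl (Pool.Agent.Y657.XD.uniq hp h1)

/-- **the descent** -/
theorem dsc_T (hre : ∀ w : InfinitePlace K, w.IsReal)
    (hcl : Odd (Nat.card (NCl K))) (hodd : Odd (Module.finrank ℚ K))
    (hp2 : (Ideal.span {((2 : ℕ) : 𝓞 K)}).IsPrime) (hp7 : (Ideal.span {((7 : ℕ) : 𝓞 K)}).IsPrime)
    {D : ℤ} (hD : D % 4 = 1) (hpd : Cnd q K D) :
    rank K (WM D) = rank ℚ (WM D) ∧ Nonempty (Sha2 K (WM D) ≃+ Sha2 ℚ (WM D)) := by
  have hDo : Odd D := Int.odd_iff.2 (by omega)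
  obtain ⟨h1, ⟨e1⟩⟩ := stabT hre hcl hodd hp2 hp7 hDo hpd
  obtain ⟨h2, ⟨e2⟩⟩ := Pool.Agent.Y682.XF.stabD (K := ℚ) (fun w => IsTotallyReal.isReal w) ncl_Q
    (by rw [Module.finrank_self]; exact odd_one) (prime_Q Nat.prime_two)
    (prime_Q (by norm_num)) hDo (fun p hp _ => prime_Q hp)
  obtain ⟨h3, ⟨e3⟩⟩ := trans_D K hD
  obtain ⟨h4, ⟨e4⟩⟩ := trans_D ℚ hD
  exact ⟨by rw [h3, h4, h1, h2], ⟨((e3.trans e1).trans e2.symm).trans e4.symm⟩⟩

end

end Pool.Agent.W2helper41.L
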