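import Pool.Agent.W2helper41.L.Cor

/-!
# The product of the twisted sums
-/

set_option autoImplicit false
set_option linter.unusedSectionVars false
set_option linter.unusedVariables false

open Finset NumberField IsCyclotomicExtension.Rat H300.HW

namespace Pool.Agent.W2helper41.L

open scoped Classical

open Polynomial (aeval C X)

open Pool.Agent.Y687 (Symb Symb2)

open Pool.Agent.Y682.XT

open Pool.Agent.Y682.XD

open Pool.Agent.Y682.XF (wd sum_wd wd_congr)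

section

variable {G : Type} [CommGroup G] [Fintype G]

/-- a product of conjugate character sums is an integer -/
theorem prod_int (S : Finset (G →* ℂˣ)) (hS : ∀ χ, χ ∈ S)
    (w : (G →* ℂˣ) → G → ℤ)
    (hw : ∀ χ (a : ℕ), a.Coprime (Fintype.card G) → w (χ ^ a) = w χ) :
    ∃ N : ℤ, ∏ χ ∈ S.erase 1, ∑ g, ((χ g : ℂˣ) : ℂ) * (w χ g : ℂ) = N := by
  set m := Fintype.card G with hm
  have hpos : 0 < m := Fintype.card_pos
  have hne : NeZero m := ⟨hpos.ne'⟩
  have : Fintype (G →* ℂˣ) := ⟨S, hS⟩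
  have hcard : Nat.card (G →* ℂˣ) = m := by
    rw [CommGroup.card_monoidHom_of_hasEnoughRootsOfUnity, Nat.card_eq_fintype_card]
  obtain ⟨ζ, hζ⟩ : ∃ ζ : ℂ, IsPrimitiveRoot ζ m := ⟨_, Complex.isPrimitiveRoot_exp _ hpos.ne'⟩
  have hex : ∀ (χ : G →* ℂˣ) (g : G), ∃ e : ℕ, ζ ^ e = ((χ g : ℂˣ) : ℂ) := by
    intro χ g
    have h3 : ((χ g : ℂˣ) : ℂ) ^ m = 1 := by
      rw [← Units.val_pow_eq_pow_val, ← map_pow, hm, pow_card_eq_one, map_one, Units.val_one]
    obtain ⟨i, _, hi⟩ := hζ.eq_pow_of_pow_eq_one h3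
    exact ⟨i, hi⟩
  choose e he using hex
  set P : Polynomial ℤ := ∏ χ ∈ S.erase 1, ∑ g, C (w χ g) * X ^ (e χ g) with hP
  set F : (G →* ℂˣ) → ℂ := fun χ => if χ = 1 then 1 else ∑ g, ((χ g : ℂˣ) : ℂ) * (w χ g : ℂ) with hF
  have hprod : ∏ χ ∈ S.erase 1, ∑ g, ((χ g : ℂˣ) : ℂ) * (w χ g : ℂ) = ∏ χ, F χ := by
    have h3 : (univ : Finset (G →* ℂˣ)) = S := by ext χ; simp [hS]
    rw [h3, ← mul_prod_erase S F (hS 1)]
    rw [show F 1 = 1 from if_pos rfl, one_mul]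
    refine prod_congr rfl fun χ hχ => ?_
    rw [hF]
    exact (if_neg (mem_erase.1 hχ).1).symm
  have hev : ∀ a : ℕ, a.Coprime m → aeval (ζ ^ a) P = ∏ χ, F χ := by
    intro a ha
    have hco : (Nat.card (G →* ℂˣ)).Coprime a := by rw [hcard]; exact ha.symm
    rw [← Fintype.prod_equiv (powCoprime hco) (fun χ => F (χ ^ a)) F (fun χ => rfl), hP,
      map_prod]
    have h3 : (univ : Finset (G →* ℂˣ)) = S := by ext χ; simp [hS]
    rw [h3, ← mul_prod_erase S _ (hS 1)]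
    have h1a : ((1 : G →* ℂˣ) ^ a) = 1 :=
      MonoidHom.ext fun g => by rw [MonoidHom.pow_apply, MonoidHom.one_apply, one_pow]
    have h4 : F (1 ^ a) = 1 := by rw [h1a]; exact if_pos rfl
    rw [h4, one_mul]
    refine prod_congr rfl fun χ hχ => ?_
    have h5 : χ ^ a ≠ 1 := by
      intro h6
      apply (mem_erase.1 hχ).1
      apply (powCoprime hco).injective
      show χ ^ a = 1 ^ a
      rw [h6, h1a]
    rw [hF]
    show _ = if χ ^ a = 1 then (1 : ℂ) else _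
    rw [if_neg h5, map_sum]
    refine sum_congr rfl fun g _ => ?_
    rw [map_mul, map_pow, Polynomial.aeval_X, Polynomial.aeval_C, hw χ a ha, ← pow_mul, mul_comm a,
      pow_mul, he χ g]
    simp only [algebraMap_int_eq, eq_intCast, MonoidHom.pow_apply, Units.val_pow_eq_pow_val]
    ring
  have hev1 := hev 1 (Nat.coprime_one_left m)
  rw [pow_one] at hev1
  obtain ⟨N, hN1, hN2⟩ := same_value hpos hζ P (fun a ha => by rw [hev a ha, hev1])
  exact ⟨N, by rw [hprod, ← hev1, hN1]⟩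

end

section

variable {q : ℕ} [NeZero q] {L : Type} [Field L] [NumberField L] [IsCyclotomicExtension {q} ℚ L]
  {K : IntermediateField ℚ L}

/-- **the product of the twisted sums** -/
theorem prod_T (hH : S_HECKE) {s : ℚ → ℤ} {a : ℕ → ℤ} (hK : HypK s a q L K)
    {d : ℕ} (hd0 : d ≠ 0) (hdsq : Squarefree d) (hd : DD q L K a d)
    (ε : (ZMod d)ˣ → ℤ) (hε : ∀ u, ε u = ∏ p ∈ d.primeFactors, jc p u)
    [Fintype (GG q L K)] (S : Finset (GG q L K →* ℂˣ)) (hS : ∀ χ, χ ∈ S) :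
    ∃ N : ℤ, Odd N ∧ ∏ χ ∈ S.erase 1,
      (haveI : NeZero ((cf q L K χ).conductor * d) :=
        ⟨mul_ne_zero (cf q L K χ).conductor_ne_zero hd0⟩
      ∑ g, ((χ g : ℂˣ) : ℂ) * (wd L K (cf q L K χ).conductor_dvd_level ε s g : ℂ)) =
        2 ^ (∑ χ ∈ S.erase 1, (tc L K a d χ).card) * N := by
  obtain ⟨k, hk1, hk2, ⟨π⟩⟩ := exists_red
  obtain ⟨N', hN'⟩ := prod_int S hS (fun χ =>
    haveI : NeZero ((cf q L K χ).conductor * d) := ⟨mul_ne_zero (cf q L K χ).conductor_ne_zero hd0⟩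
    wd L K (cf q L K χ).conductor_dvd_level ε s) (by
    intro χ a ha
    have : NeZero ((cf q L K χ).conductor * d) := ⟨mul_ne_zero (cf q L K χ).conductor_ne_zero hd0⟩
    have : NeZero ((cf q L K (χ ^ a)).conductor * d) :=
      ⟨mul_ne_zero (cf q L K (χ ^ a)).conductor_ne_zero hd0⟩
    apply wd_congr
    exact cond_pow χ ha)
  have key : ∀ χ ∈ S.erase 1, ∃ h : OO,
      (haveI : NeZero ((cf q L K χ).conductor * d) :=
        ⟨mul_ne_zero (cf q L K χ).conductor_ne_zero hd0⟩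
      ∑ g, ((χ g : ℂˣ) : ℂ) * (wd L K (cf q L K χ).conductor_dvd_level ε s g : ℂ)) =
        2 ^ (tc L K a d χ).card * io h ∧ π h ≠ 0 := by
    intro χ hχ
    have : NeZero (cf q L K χ).conductor := ⟨(cf q L K χ).conductor_ne_zero⟩
    have : NeZero ((cf q L K χ).conductor * d) := ⟨mul_ne_zero (cf q L K χ).conductor_ne_zero hd0⟩
    exact core3 hH hK (cf q L K χ).conductor_dvd_level hdsq hd ε hε k π χ (mem_erase.1 hχ).1 rfl
  choose! h hh1 hh2 using key
  have h1 : ∏ χ ∈ S.erase 1,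
      (haveI : NeZero ((cf q L K χ).conductor * d) :=
        ⟨mul_ne_zero (cf q L K χ).conductor_ne_zero hd0⟩
      ∑ g, ((χ g : ℂˣ) : ℂ) * (wd L K (cf q L K χ).conductor_dvd_level ε s g : ℂ)) =
      2 ^ (∑ χ ∈ S.erase 1, (tc L K a d χ).card) * io (∏ χ ∈ S.erase 1, h χ) := by
    rw [prod_congr rfl hh1, prod_mul_distrib, prod_pow_eq_pow_sum, map_prod]
  have h2 : io (∏ χ ∈ S.erase 1, h χ) =
      (((N' : ℚ) / 2 ^ (∑ χ ∈ S.erase 1, (tc L K a d χ).card) : ℚ) : ℂ) := by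
    rw [h1] at hN'
    push_cast
    rw [eq_div_iff (pow_ne_zero _ two_ne_zero), mul_comm]
    exact hN'
  obtain ⟨n, hn⟩ := int_of_rat h2
  refine ⟨n, ?_, ?_⟩
  · have h3 : π (∏ χ ∈ S.erase 1, h χ) ≠ 0 := by
      rw [map_prod]
      exact prod_ne_zero_iff.2 hh2
    rw [hn, map_intCast] at h3
    rw [← Int.not_even_iff_odd]
    intro h4
    exact h3 ((CharP.intCast_eq_zero_iff k 2 n).2 (even_iff_two_dvd.1 h4))
  · rw [h1, hn, map_intCast]

end

end Pool.Agent.W2helper41.L
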