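import Pool.Agent.Y682.XT.Sym2
import Pool.Agent.Y688.XD.Hecke

/-!
# Sums of signs over the half system: change of the level by a new prime
-/

set_option autoImplicit false

open Finset

namespace Pool.Agent.W2helper41.L

open scoped Classical

open Pool.Agent.Y682.XT (oo oo_neg c2 PU IsH isH_PU mem_PU unit_ne oo_unit_neg evF)

open Pool.Agent.Y688.XD (unitsMap_neg fib s_val)

/-- the numerator of the fractional part -/
noncomputable def fr (x : ℚ) : ℤ := (Int.fract x).num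

lemma fr_per (x : ℚ) : fr (x + 1) = fr x := by
  unfold fr
  rw [Int.fract_add_one]

lemma fr_val {M : ℕ} (hM : Odd M) {n : ℕ} (hn : n < M) :
    ((fr ((n : ℚ) / M) : ℤ) : ZMod 2) = (n : ZMod 2) := by
  have hM0 : 0 < M := by omega
  have hMq : (0 : ℚ) < M := by exact_mod_cast hM0
  have h1 : Int.fract ((n : ℚ) / M) = (n : ℚ) / M := by
    rw [Int.fract_eq_self]
    refine ⟨by positivity, ?_⟩
    rw [div_lt_one hMq]
    exact_mod_cast hn
  unfold fr
  rw [h1]
  set x : ℚ := (n : ℚ) / M with hx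
  have h2 : (n : ℚ) * x.den = x.num * M := by
    have h3 : x = (x.num : ℚ) / x.den := (Rat.num_div_den x).symm
    have h4 : (x.den : ℚ) ≠ 0 := by exact_mod_cast x.den_nz
    have h5 : (n : ℚ) / M = (x.num : ℚ) / x.den := by rw [← hx]; exact h3
    rw [div_eq_div_iff hMq.ne' h4] at h5
    exact h5
  have h3 : (n : ℤ) * x.den = x.num * M := by exact_mod_cast h2
  have h4 : x.den ∣ M := by
    have h5 := Rat.den_dvd (n : ℤ) (M : ℤ)
    rw [Rat.divInt_eq_div, Int.cast_natCast, Int.cast_natCast] at h5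
    exact Int.natCast_dvd_natCast.1 h5
  have h5 : ((x.den : ℕ) : ZMod 2) = 1 := (ZMod.natCast_eq_one_iff_odd).2 (Odd.of_dvd_nat hM h4)
  have h6 : ((M : ℕ) : ZMod 2) = 1 := (ZMod.natCast_eq_one_iff_odd).2 hM
  have h7 := congrArg (fun z : ℤ => (z : ZMod 2)) h3
  simp only [Int.cast_mul, Int.cast_natCast] at h7
  rw [h5, h6, mul_one, mul_one] at h7
  exact h7.symm

section

variable {M p : ℕ} [NeZero M] [NeZero (M * p)]

/-- a sum over a fibre of the reduction, the level multiplied by a new prime -/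
lemma fiber_new (hM : Odd M) (hpo : Odd p) (hp : p.Prime) (hpM : ¬ p ∣ M) {t : (ZMod M)ˣ}
    (ht : (t : ZMod M) = (p : ZMod M)) (u : (ZMod M)ˣ) :
    ∑ w ∈ univ.filter (fun w : (ZMod (M * p))ˣ => ZMod.unitsMap (dvd_mul_right M p) w = u),
      oo (w : ZMod (M * p)) =
    oo (u : ZMod M) + oo ((t⁻¹ * u : (ZMod M)ˣ) : ZMod M) + ∑ b ∈ range p, (b : ZMod 2) := by
  have h1 := congrArg (fun z : ℤ => (z : ZMod 2)) (fib fr_per hp hpM t u ht)
  simp only [Int.cast_sum, Int.cast_add] at h1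
  have hM0 : 0 < M := Nat.pos_of_ne_zero (NeZero.ne M)
  have hMp : Odd (M * p) := hM.mul hpo
  have hMq : (M : ℚ) ≠ 0 := by exact_mod_cast hM0.ne'
  have hpq : (p : ℚ) ≠ 0 := by exact_mod_cast hp.ne_zero
  have e1 : ((M : ℕ) : ZMod 2) = 1 := (ZMod.natCast_eq_one_iff_odd).2 hM
  have e2 : ((p : ℕ) : ZMod 2) = 1 := (ZMod.natCast_eq_one_iff_odd).2 hpo
  have h2 : ∑ b ∈ range p, ((fr ((((u : ZMod M).val : ℚ) / M + b) / p) : ℤ) : ZMod 2) =
      oo (u : ZMod M) + ∑ b ∈ range p, (b : ZMod 2) := by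
    have h3 : ∀ b ∈ range p, ((fr ((((u : ZMod M).val : ℚ) / M + b) / p) : ℤ) : ZMod 2) =
        oo (u : ZMod M) + (b : ZMod 2) := by
      intro b hb
      have h4 : ((((u : ZMod M).val : ℚ) / M + b) / p) =
          (((u : ZMod M).val + M * b : ℕ) : ℚ) / ((M * p : ℕ) : ℚ) := by
        push_cast
        field_simp
      rw [h4, fr_val hMp]
      · unfold oo
        push_cast
        rw [e1, one_mul]
      · have h5 := ZMod.val_lt (u : ZMod M)
        have h6 := mem_range.1 hb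
        calc (u : ZMod M).val + M * b < M + M * b := by omega
          _ = M * (b + 1) := by ring
          _ ≤ M * p := Nat.mul_le_mul_left _ h6
    rw [sum_congr rfl h3, sum_add_distrib, sum_const, card_range, nsmul_eq_mul, e2, one_mul]
  rw [h2, fr_val hM (ZMod.val_lt _)] at h1
  have h3 : ∀ w : (ZMod (M * p))ˣ,
      ((fr (((w : ZMod (M * p)).val : ℚ) / ((M * p : ℕ) : ℚ)) : ℤ) : ZMod 2) =
        oo (w : ZMod (M * p)) := fun w => fr_val hMp (ZMod.val_lt _)
  rw [sum_congr rfl fun w _ => h3 w] at h1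
  change oo (u : ZMod M) + ∑ b ∈ range p, (b : ZMod 2) = oo ((t⁻¹ * u : (ZMod M)ˣ) : ZMod M) +
    ∑ w ∈ univ.filter (fun w : (ZMod (M * p))ˣ => ZMod.unitsMap (dvd_mul_right M p) w = u),
      oo (w : ZMod (M * p)) at h1
  generalize oo ((t⁻¹ * u : (ZMod M)ˣ) : ZMod M) = y at h1 ⊢
  have h4 : y + y = 0 := CharTwo.add_self_eq_zero _
  linear_combination -h1 - h4

end

section

variable (k : Type) [Field k] [CharP k 2] {M : ℕ} [NeZero M]

/-- the signs -/
noncomputable def VV (b u : (ZMod M)ˣ) : k :=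
  c2 k (oo (u : ZMod M) + oo ((b * u : (ZMod M)ˣ) : ZMod M))

lemma VV_neg (hM : Odd M) (h1 : 1 < M) (b u : (ZMod M)ˣ) : VV k b (-u) = VV k b u := by
  unfold VV
  rw [mul_neg, oo_unit_neg hM h1, oo_unit_neg hM h1]
  congr 1
  have : (1 : ZMod 2) + 1 = 0 := by decide
  linear_combination this

variable {k}

/-- the weighted sum of the signs -/
noncomputable def SV (b : (ZMod M)ˣ) (Φ : (ZMod M)ˣ → k) : k := ∑ u ∈ PU M, Φ u * VV k b u

lemma SV_add (b : (ZMod M)ˣ) (Φ Φ' : (ZMod M)ˣ → k) :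
    SV b (fun u => Φ u + Φ' u) = SV b Φ + SV b Φ' := by
  unfold SV
  rw [← sum_add_distrib]
  exact sum_congr rfl fun u _ => add_mul _ _ _

lemma SV_smul (b : (ZMod M)ˣ) (c : k) (Φ : (ZMod M)ˣ → k) :
    SV b (fun u => c * Φ u) = c * SV b Φ := by
  unfold SV
  rw [mul_sum]
  exact sum_congr rfl fun u _ => mul_assoc _ _ _

lemma SV_congr {b : (ZMod M)ˣ} {Φ Φ' : (ZMod M)ˣ → k} (h : ∀ u, Φ u = Φ' u) :
    SV b Φ = SV b Φ' := by
  unfold SV
  exact sum_congr rfl fun u _ => by rw [h]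

end

section

variable {k : Type} [Field k] [CharP k 2] {M p : ℕ} [NeZero M] [NeZero (M * p)]

/-- the fibres -/
lemma VV_fiber (hM : Odd M) (hpo : Odd p) (hp : p.Prime) (hpM : ¬ p ∣ M) {t : (ZMod M)ˣ}
    (ht : (t : ZMod M) = (p : ZMod M)) (b : (ZMod (M * p))ˣ) (u : (ZMod M)ˣ) :
    ∑ w ∈ univ.filter (fun w : (ZMod (M * p))ˣ => ZMod.unitsMap (dvd_mul_right M p) w = u),
      VV k b w = VV k (ZMod.unitsMap (dvd_mul_right M p) b) u +
        VV k (ZMod.unitsMap (dvd_mul_right M p) b) (t⁻¹ * u) := by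
  unfold VV
  rw [← map_sum, sum_add_distrib, fiber_new hM hpo hp hpM ht, ← map_add]
  have h2 : ∑ w ∈ univ.filter (fun w : (ZMod (M * p))ˣ => ZMod.unitsMap (dvd_mul_right M p) w = u),
      oo ((b * w : (ZMod (M * p))ˣ) : ZMod (M * p)) =
      ∑ w ∈ univ.filter (fun w : (ZMod (M * p))ˣ => ZMod.unitsMap (dvd_mul_right M p) w =
        ZMod.unitsMap (dvd_mul_right M p) b * u), oo (w : ZMod (M * p)) := by
    refine sum_bij' (fun z _ => b * z) (fun z _ => b⁻¹ * z) ?_ ?_ ?_ ?_ ?_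
    · intro z hz
      simp only [mem_filter, mem_univ, true_and] at hz ⊢
      rw [map_mul, hz]
    · intro z hz
      simp only [mem_filter, mem_univ, true_and] at hz ⊢
      rw [map_mul, hz, map_inv, inv_mul_cancel_left]
    · intro z _
      exact inv_mul_cancel_left b z
    · intro z _
      exact mul_inv_cancel_left b z
    · intro z _
      rfl
  rw [h2, fiber_new hM hpo hp hpM ht]
  congr 1
  rw [mul_left_comm t⁻¹]
  have h3 : ∑ b ∈ range p, (b : ZMod 2) + ∑ b ∈ range p, (b : ZMod 2) = 0 :=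
    CharTwo.add_self_eq_zero _
  linear_combination h3

/-- **change of the level** -/
theorem SV_push (hM : Odd M) (h1 : 1 < M) (hpo : Odd p) (hp : p.Prime) (hpM : ¬ p ∣ M)
    {t : (ZMod M)ˣ} (ht : (t : ZMod M) = (p : ZMod M)) (b : (ZMod (M * p))ˣ)
    {Φ : (ZMod M)ˣ → k} (hΦ : ∀ u, Φ (-u) = Φ u) :
    SV b (fun w => Φ (ZMod.unitsMap (dvd_mul_right M p) w)) =
      SV (ZMod.unitsMap (dvd_mul_right M p) b) (fun u => Φ u + Φ (t * u)) := by
  have hPU := isH_PU hM h1
  have hMpo : Odd (M * p) := hM.mul hpo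
  have hMp1 : 1 < M * p := lt_of_lt_of_le h1 (Nat.le_mul_of_pos_right _ hp.pos)
  have hH : IsH (univ.filter (fun w : (ZMod (M * p))ˣ =>
      ZMod.unitsMap (dvd_mul_right M p) w ∈ PU M)) := by
    constructor
    · intro b
      simp only [mem_filter, mem_univ, true_and, unitsMap_neg]
      exact hPU.mem _
    · intro b hb
      simp only [mem_filter, mem_univ, true_and, unitsMap_neg] at hb ⊢
      exact hPU.neg _ hb
  have e1 : SV b (fun w => Φ (ZMod.unitsMap (dvd_mul_right M p) w)) =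
      ∑ u ∈ PU M, Φ u * (VV k (ZMod.unitsMap (dvd_mul_right M p) b) u +
        VV k (ZMod.unitsMap (dvd_mul_right M p) b) (t⁻¹ * u)) := by
    unfold SV
    rw [← hH.sum_eq (isH_PU hMpo hMp1) (fun w => Φ (ZMod.unitsMap (dvd_mul_right M p) w) * VV k b w)
      (fun x => by rw [unitsMap_neg, hΦ, VV_neg k hMpo hMp1])]
    rw [← sum_fiberwise_of_maps_to (g := fun w => ZMod.unitsMap (dvd_mul_right M p) w)
      (t := PU M) (fun w hw => (mem_filter.1 hw).2)]
    refine sum_congr rfl fun u hu => ?_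
    rw [← VV_fiber hM hpo hp hpM ht b u, mul_sum]
    refine sum_congr ?_ fun w hw => ?_
    · ext w
      simp only [mem_filter, mem_univ, true_and]
      exact ⟨fun h => h.2, fun h => ⟨by rw [h]; exact hu, h⟩⟩
    · rw [(mem_filter.1 hw).2]
  rw [e1, SV_add]
  unfold SV
  simp only [mul_add, sum_add_distrib]
  congr 1
  rw [← hPU.sum_equiv (Equiv.mulLeft t) (fun x => mul_neg t x)
      (fun u => Φ u * VV k (ZMod.unitsMap (dvd_mul_right M p) b) (t⁻¹ * u))
      (fun x => by rw [hΦ, mul_neg, VV_neg k hM h1])]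
  refine sum_congr rfl fun u _ => ?_
  show Φ (t * u) * VV k _ (t⁻¹ * (t * u)) = _
  rw [inv_mul_cancel_left]

end

end Pool.Agent.W2helper41.L
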