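import Pool.Agent.W2helper41.L.Van2
import Pool.Agent.Y682.XD.Nv

/-!
# The two-adic valuations of the twisted sums
-/

set_option autoImplicit false
set_option linter.unusedSectionVars false
set_option linter.unusedVariables false

open Finset

namespace Pool.Agent.W2helper41.L

open scoped Classical

open Pool.Agent.Y687 (Symb Symb2)

open Pool.Agent.Y682.XT (PU IsH isH_PU mem_PU unit_ne Prm)

open Pool.Agent.Y682.XD (S_HECKE NZ)

open Pool.Agent.Y688.XD (unitsMap_neg)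

/-- the product of the residue symbols of a unit -/
noncomputable def JJ (A : Finset ℕ) {M : ℕ} (u : (ZMod M)ˣ) : ℤ := ∏ q ∈ A, jc q u

/-- the product of the residue symbols of a number -/
noncomputable def jn (A : Finset ℕ) (p : ℕ) : ℤ := ∏ q ∈ A, jacobiSym (p : ℤ) q

section

variable {M : ℕ} [NeZero M]

lemma JJ_mul {A : Finset ℕ} (hA : ∀ q ∈ A, q ∣ M) (u v : (ZMod M)ˣ) :
    JJ A (u * v) = JJ A u * JJ A v := by
  unfold JJ
  rw [← prod_mul_distrib]
  exact prod_congr rfl fun q hq => jc_mul (hA q hq) u v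

lemma JJ_one {A : Finset ℕ} (hA : ∀ q ∈ A, q ∣ M) : JJ A (1 : (ZMod M)ˣ) = 1 := by
  unfold JJ
  exact prod_eq_one fun q hq => jc_one (hA q hq)

lemma JJ_neg {A : Finset ℕ} (hA : ∀ q ∈ A, q ∣ M ∧ q.Prime ∧ q % 4 = 1) (u : (ZMod M)ˣ) :
    JJ A (-u) = JJ A u := by
  unfold JJ
  exact prod_congr rfl fun q hq => jc_neg (hA q hq).1 (hA q hq).2.1 (hA q hq).2.2 u

lemma JJ_inv {A : Finset ℕ} (hA : ∀ q ∈ A, q ∣ M) (u : (ZMod M)ˣ) : JJ A u⁻¹ = JJ A u := by
  unfold JJ
  exact prod_congr rfl fun q hq => jc_inv (hA q hq) u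

lemma JJ_map {M' : ℕ} [NeZero M'] (h : M ∣ M') {A : Finset ℕ} (hA : ∀ q ∈ A, q ∣ M)
    (w : (ZMod M')ˣ) : JJ A (ZMod.unitsMap h w) = JJ A w := by
  unfold JJ
  exact prod_congr rfl fun q hq => jc_map h (hA q hq) w

lemma JJ_of {A : Finset ℕ} (hA : ∀ q ∈ A, q ∣ M) {t : (ZMod M)ˣ} {p : ℕ}
    (h : (t : ZMod M) = (p : ZMod M)) : JJ A t = jn A p := by
  unfold JJ jn
  exact prod_congr rfl fun q hq => jc_of (hA q hq) (by rw [h]; push_cast; rfl)

lemma JJ_sq {A : Finset ℕ} (hA : ∀ q ∈ A, q ∣ M) (u : (ZMod M)ˣ) : JJ A u = 1 ∨ JJ A u = -1 := by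
  have h1 : JJ A u * JJ A u⁻¹ = 1 := by rw [← JJ_mul hA, mul_inv_cancel, JJ_one hA]
  exact Int.isUnit_iff.1 (IsUnit.of_mul_eq_one _ h1)

end

section

variable {R : Type} [CommRing R] {f : ℕ} [NeZero f]

/-- the twisted sum at the level `M` -/
noncomputable def HX (s : ℚ → ℤ) (X : (ZMod f)ˣ →* R) (A : Finset ℕ) (M : ℕ) : R :=
  if h : f ∣ M ∧ M ≠ 0 then
    (haveI : NeZero M := ⟨h.2⟩
    ∑ u ∈ PU M, X (ZMod.unitsMap h.1 u) * (JJ A u : R) *
      ((s (((u : ZMod M).val : ℚ) / (M : ℚ)) : ℤ) : R)) else 0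

lemma HX_eq (s : ℚ → ℤ) (X : (ZMod f)ˣ →* R) (A : Finset ℕ) {M : ℕ} [NeZero M] (h : f ∣ M) :
    HX s X A M = ∑ u ∈ PU M, X (ZMod.unitsMap h u) * (JJ A u : R) *
      ((s (((u : ZMod M).val : ℚ) / (M : ℚ)) : ℤ) : R) := by
  unfold HX
  rw [dif_pos ⟨h, NeZero.ne M⟩]

lemma HX_map {R' : Type} [CommRing R'] (ι : R →+* R') (s : ℚ → ℤ) (X : (ZMod f)ˣ →* R)
    (A : Finset ℕ) {M : ℕ} (hM : M ≠ 0) (h : f ∣ M) :
    ι (HX s X A M) = HX s ((ι : R →* R').comp X) A M := by
  have : NeZero M := ⟨hM⟩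
  rw [HX_eq s X A h, HX_eq s _ A h, map_sum]
  refine sum_congr rfl fun u _ => ?_
  rw [map_mul, map_mul, map_intCast, map_intCast]
  rfl

/-- HECKE at the level of fields -/
lemma heckeF {F : Type} [Field F] (hH : S_HECKE) {s : ℚ → ℤ} {a : ℕ → ℤ} (H : Symb s a)
    {X : (ZMod f)ˣ →* F} (hX : ∀ x, X (-x) = X x) {M p : ℕ} (hMo : Odd M) (hM1 : 1 < M)
    (h : f ∣ M) (hp : p.Prime) (hpo : Odd p) (hpM : ¬ p ∣ 14 * M) {A : Finset ℕ}
    (hA : ∀ q ∈ A, q ∣ M ∧ q.Prime ∧ q % 4 = 1) {t : (ZMod f)ˣ}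
    (ht : (t : ZMod f) = (p : ZMod f)) :
    HX s X A (M * p) = ((a p : F) - X t * (jn A p : F) - X t⁻¹ * (jn A p : F)) * HX s X A M := by
  have hM0 : M ≠ 0 := by omega
  have : NeZero M := ⟨hM0⟩
  have : NeZero (M * p) := ⟨mul_ne_zero hM0 hp.ne_zero⟩
  have hA' : ∀ q ∈ A, q ∣ M := fun q hq => (hA q hq).1
  have h' : f ∣ M * p := dvd_mul_of_dvd_left h p
  obtain ⟨ψ, hψ⟩ : ∃ ψ : (ZMod M)ˣ →* F, ∀ u, ψ u = X (ZMod.unitsMap h u) * (JJ A u : F) := by
    refine ⟨{ toFun := fun u => X (ZMod.unitsMap h u) * (JJ A u : F), map_one' := ?_,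
              map_mul' := ?_ }, fun u => rfl⟩
    · rw [map_one, map_one, JJ_one hA', Int.cast_one, one_mul]
    · intro u v
      rw [map_mul, map_mul, JJ_mul hA', Int.cast_mul]
      ring
  have hψe : ∀ x, ψ (-x) = ψ x := by
    intro x
    rw [hψ, hψ, unitsMap_neg, hX, JJ_neg hA]
  have hpc : p.Coprime M := by
    rw [Nat.Prime.coprime_iff_not_dvd hp]
    exact fun h2 => hpM (dvd_mul_of_dvd_right h2 _)
  obtain ⟨t', ht'⟩ : ∃ t' : (ZMod M)ˣ, (t' : ZMod M) = (p : ZMod M) :=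
    ⟨ZMod.unitOfCoprime p hpc, ZMod.coe_unitOfCoprime p hpc⟩
  have htt : ZMod.unitsMap h t' = t := by
    apply Units.ext
    rw [ZMod.unitsMap_val, ht', ht, ZMod.cast_natCast h]
  have h2 := hH s a H M p hMo hM1 hpo hp hpM F ψ hψe t' ht'
  have e1 : ψ t' = X t * (jn A p : F) := by rw [hψ, htt, JJ_of hA' ht']
  have e2 : ψ t'⁻¹ = X t⁻¹ * (jn A p : F) := by
    rw [hψ, map_inv, htt, JJ_inv hA', JJ_of hA' ht']
  rw [e1, e2] at h2
  rw [HX_eq s X A h', HX_eq s X A h]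
  have h3 : ∀ u : (ZMod (M * p))ˣ, ψ (ZMod.unitsMap (dvd_mul_right M p) u) =
      X (ZMod.unitsMap h' u) * (JJ A u : F) := by
    intro u
    rw [hψ, JJ_map (dvd_mul_right M p) hA']
    congr 2
    rw [← MonoidHom.comp_apply, ZMod.unitsMap_comp]
  rw [← sum_congr rfl fun u _ => by rw [← h3 u], h2]
  congr 1
  exact sum_congr rfl fun u _ => by rw [hψ]

end

section

variable {O : Type} [CommRing O] {ι : O →+* ℂ} {f : ℕ} [NeZero f]

/-- HECKE at the level of a subring of the complex numbers -/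
lemma hecke (hι : Function.Injective ι) (hH : S_HECKE) {s : ℚ → ℤ} {a : ℕ → ℤ} (H : Symb s a)
    {X : (ZMod f)ˣ →* O} (hX : ∀ x, X (-x) = X x) {M p : ℕ} (hMo : Odd M) (hM1 : 1 < M)
    (h : f ∣ M) (hp : p.Prime) (hpo : Odd p) (hpM : ¬ p ∣ 14 * M) {A : Finset ℕ}
    (hA : ∀ q ∈ A, q ∣ M ∧ q.Prime ∧ q % 4 = 1) {t : (ZMod f)ˣ}
    (ht : (t : ZMod f) = (p : ZMod f)) (h1 : X t = 1) :
    HX s X A (M * p) = (((a p : ℤ) - 2 * jn A p : ℤ) : O) * HX s X A M := by
  have hM0 : M ≠ 0 := by omega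
  apply hι
  rw [HX_map ι s X A (mul_ne_zero hM0 hp.ne_zero) (dvd_mul_of_dvd_left h p),
    heckeF hH H (X := (ι : O →* ℂ).comp X) (fun x => by
      rw [MonoidHom.comp_apply, MonoidHom.comp_apply, hX]) hMo hM1 h hp hpo hpM hA ht,
    map_mul, map_intCast, HX_map ι s X A hM0 h]
  have e1 : ((ι : O →* ℂ).comp X) t = 1 := by rw [MonoidHom.comp_apply, h1, map_one]
  have e2 : ((ι : O →* ℂ).comp X) t⁻¹ = 1 := by
    have h3 : ((ι : O →* ℂ).comp X) t * ((ι : O →* ℂ).comp X) t⁻¹ = 1 := by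
      rw [← map_mul, mul_inv_cancel, map_one]
    rwa [e1, one_mul] at h3
  rw [e1, e2]
  push_cast
  ring

/-- the primes at which the character is trivial, of the second kind -/
structure TrivI (a : ℕ → ℤ) (X : (ZMod f)ˣ →* O) (q : ℕ) : Prop where
  prime : q.Prime
  four : q % 4 = 1
  ndvd : ¬ q ∣ 14 * f
  dvd : (4 : ℤ) ∣ a q
  one : ∀ t : (ZMod f)ˣ, (t : ZMod f) = (q : ZMod f) → X t = 1

/-- the other primes -/
structure OthI (f : ℕ) (q : ℕ) : Prop where
  prime : q.Prime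
  four : q % 4 = 1
  ndvd : ¬ q ∣ 14 * f

lemma TrivI.oth {a : ℕ → ℤ} {X : (ZMod f)ˣ →* O} {q : ℕ} (h : TrivI a X q) : OthI f q :=
  ⟨h.prime, h.four, h.ndvd⟩

lemma oth_lvl {T : Finset ℕ} (hT : ∀ q ∈ T, OthI f q) : Lvl f T := by
  intro q hq
  refine ⟨(hT q hq).prime, Nat.odd_iff.2 (by have := (hT q hq).four; omega), fun h => ?_⟩
  exact (hT q hq).ndvd (dvd_mul_of_dvd_right h _)

lemma oth_seven {T : Finset ℕ} (hT : ∀ q ∈ T, OthI f q) : 7 ∉ T := by
  intro h
  exact (hT 7 h).ndvd (dvd_mul_of_dvd_left (by norm_num) _)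

/-- several new primes -/
lemma hecke_prod (hι : Function.Injective ι) (hH : S_HECKE) {s : ℚ → ℤ} {a : ℕ → ℤ}
    (H : Symb s a) {X : (ZMod f)ˣ →* O} (hX : ∀ x, X (-x) = X x) (hf : Odd f) (hf1 : 1 < f)
    {A : Finset ℕ} (hA : ∀ q ∈ A, OthI f q) (B : Finset ℕ) (hB : ∀ q ∈ B, TrivI a X q)
    (hAB : Disjoint A B) :
    HX s X A (f * ∏ q ∈ A ∪ B, q) =
      ((∏ q ∈ B, (a q - 2 * jn A q) : ℤ) : O) * HX s X A (f * ∏ q ∈ A, q) := by
  induction B using Finset.induction_on with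
  | empty => rw [union_empty, prod_empty, Int.cast_one, one_mul]
  | insert p B hp ih =>
    have hB' : ∀ q ∈ B, TrivI a X q := fun q hq => hB q (mem_insert_of_mem hq)
    have hAB' : Disjoint A B := disjoint_of_subset_right (subset_insert _ _) hAB
    have hpA : p ∉ A := fun h => (disjoint_left.1 hAB) h (mem_insert_self _ _)
    have hT : ∀ q ∈ A ∪ B, OthI f q := by
      intro q hq
      rcases mem_union.1 hq with h | h
      · exact hA q h
      · exact (hB' q h).oth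
    have hpi := hB p (mem_insert_self _ _)
    have hpAB : p ∉ A ∪ B := by
      rw [mem_union, not_or]
      exact ⟨hpA, hp⟩
    have hL := oth_lvl hT
    have hpf : ¬ p ∣ f := fun h => hpi.ndvd (dvd_mul_of_dvd_right h _)
    have e1 : f * ∏ q ∈ A ∪ insert p B, q = (f * ∏ q ∈ A ∪ B, q) * p := by
      rw [union_insert, prod_insert hpAB]
      ring
    obtain ⟨t, ht⟩ : ∃ t : (ZMod f)ˣ, (t : ZMod f) = (p : ZMod f) :=
      ⟨ZMod.unitOfCoprime p ((Nat.Prime.coprime_iff_not_dvd hpi.prime).2 hpf),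
        ZMod.coe_unitOfCoprime p _⟩
    rw [e1, hecke hι hH H hX (lvl_odd hf hL) (lvl_lt hf1 hL) (dvd_mul_right _ _) hpi.prime
      (Nat.odd_iff.2 (by have := hpi.four; omega)) ?_ ?_ ht (hpi.one t ht), ih hB' hAB',
      prod_insert hp]
    · push_cast
      ring
    · intro h
      rcases (hpi.prime.dvd_mul).1 h with h | h
      · exact hpi.ndvd (dvd_mul_of_dvd_left h _)
      · exact lvl_not_dvd hL hpi.prime hpAB hpf h
    · intro q hq
      exact ⟨mem_dvd (mem_union_left _ hq), (hA q hq).prime, (hA q hq).four⟩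

end

section

variable {O : Type} [CommRing O] {ι : O →+* ℂ} {k : Type} [Field k] [CharP k 2] {π : O →+* k}
  {f : ℕ} [NeZero f]

/-- the sum of the products of residue symbols over the subsets -/
lemma sum_JJ {M : ℕ} [NeZero M] {T1 T2 : Finset ℕ} (h1 : ∀ q ∈ T1, q ∣ M) (hd : Disjoint T2 T1)
    (u : (ZMod M)ˣ) : ∑ A ∈ T1.powerset, JJ (T2 ∪ A) u =
      2 ^ T1.card * (JJ T2 u * if ∀ q ∈ T1, jc q u = 1 then 1 else 0) := by
  have e1 : ∀ A ∈ T1.powerset, JJ (T2 ∪ A) u = JJ T2 u * ∏ q ∈ A, jc q u := by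
    intro A hA
    unfold JJ
    rw [prod_union (disjoint_of_subset_right (mem_powerset.1 hA) hd)]
  rw [sum_congr rfl e1, ← mul_sum, ← prod_one_add]
  by_cases h : ∀ q ∈ T1, jc q u = 1
  · rw [if_pos h, prod_congr rfl (g := fun _ => (2 : ℤ)) (fun q hq => by rw [h q hq]; norm_num),
      prod_const]
    ring
  · rw [if_neg h]
    push Not at h
    obtain ⟨q, hq, hne⟩ := h
    have h2 : jc q u = -1 := by
      rcases jc_sq (h1 q hq) u with h3 | h3
      · exact absurd h3 hne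
      · exact h3
    rw [prod_eq_zero hq (by rw [h2]; norm_num)]
    ring

/-- **the two-adic valuations** -/
theorem rec_ (hι : Function.Injective ι) (hH : S_HECKE) {s : ℚ → ℤ} {a : ℕ → ℤ}
    (H : Symb2 s a) {X : (ZMod f)ˣ →* O} (hX : ∀ x, X (-x) = X x) (hf : Odd f) (hf1 : 1 < f)
    (hfc : f.Coprime 14) (hp : Prm ((π : O →* k).comp X)) {T2 : Finset ℕ}
    (hT2 : ∀ q ∈ T2, OthI f q) :
    ∀ T1 : Finset ℕ, (∀ q ∈ T1, TrivI a X q) → Disjoint T2 T1 →
      ∃ h : O, HX s X (T2 ∪ T1) (f * ∏ q ∈ T2 ∪ T1, q) = 2 ^ T1.card * h ∧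
        π h = π (HX s X T2 (f * ∏ q ∈ T2, q)) := by
  intro T1
  induction T1 using Finset.strongInduction with
  | H T1 ih =>
    intro hT1 hd
    by_cases hne : T1 = ∅
    · subst hne
      rw [union_empty]
      exact ⟨_, by rw [card_empty, pow_zero, one_mul], rfl⟩
    have hne' : T1.Nonempty := nonempty_iff_ne_empty.2 hne
    have hT : ∀ q ∈ T2 ∪ T1, OthI f q := by
      intro q hq
      rcases mem_union.1 hq with h | h
      · exact hT2 q h
      · exact (hT1 q h).oth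
    have hL := oth_lvl hT
    obtain ⟨M, hM⟩ : ∃ M, M = f * ∏ q ∈ T2 ∪ T1, q := ⟨_, rfl⟩
    have hz : NeZero (f * ∏ q ∈ T2 ∪ T1, q) := ⟨lvl_ne hL⟩
    have hfM : f ∣ f * ∏ q ∈ T2 ∪ T1, q := dvd_mul_right _ _
    have hd1 : ∀ q ∈ T1, q ∣ f * ∏ q ∈ T2 ∪ T1, q := fun q hq => mem_dvd (mem_union_right _ hq)
    have hd2 : ∀ q ∈ T2, q ∣ f * ∏ q ∈ T2 ∪ T1, q := fun q hq => mem_dvd (mem_union_left _ hq)
    -- the sums over the proper subsets
    have key : ∀ A ∈ T1.ssubsets, ∃ h : O, HX s X (T2 ∪ A) (f * ∏ q ∈ T2 ∪ T1, q) =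
        2 ^ T1.card * h ∧ π h = π (HX s X T2 (f * ∏ q ∈ T2, q)) := by
      intro A hA
      have hAT := mem_ssubsets.1 hA
      obtain ⟨h, h1, h2⟩ := ih A hAT (fun q hq => hT1 q (hAT.1 hq))
        (disjoint_of_subset_right hAT.1 hd)
      have e1 : T2 ∪ T1 = (T2 ∪ A) ∪ (T1 \ A) := by
        rw [union_assoc, union_sdiff_of_subset hAT.1]
      have e2 := hecke_prod hι hH H.toSymb hX hf hf1 (A := T2 ∪ A) (by
        intro q hq
        rcases mem_union.1 hq with h | h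
        · exact hT2 q h
        · exact (hT1 q (hAT.1 h)).oth) (T1 \ A) (fun q hq => hT1 q (mem_sdiff.1 hq).1) (by
        rw [disjoint_union_left]
        exact ⟨disjoint_of_subset_right sdiff_subset hd, disjoint_sdiff⟩)
      rw [← e1] at e2
      have e3 : ∀ q ∈ T1 \ A, ∃ c : ℤ, a q - 2 * jn (T2 ∪ A) q = 2 * (2 * c + 1) := by
        intro q hq
        have hq1 := (mem_sdiff.1 hq).1
        obtain ⟨b, hb⟩ := (hT1 q hq1).dvd
        have h3 : jn (T2 ∪ A) q = 1 ∨ jn (T2 ∪ A) q = -1 := by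
          unfold jn
          refine Finset.prod_induction _ (fun x : ℤ => x = 1 ∨ x = -1) ?_ (Or.inl rfl) ?_
          · rintro x y (rfl | rfl) (rfl | rfl) <;> norm_num
          · intro r hr
            have hr' : r ∈ T2 ∪ T1 := union_subset_union_right hAT.1 hr
            have hqr : ((q : ℕ) : ℤ).gcd (r : ℤ) = 1 := by
              rw [Int.gcd_natCast_natCast]
              rw [← Nat.coprime_iff_gcd_eq_one, Nat.coprime_primes (hT1 q hq1).prime
                (hT r hr').prime]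
              rintro rfl
              rcases mem_union.1 hr with h4 | h4
              · exact (disjoint_left.1 hd) h4 hq1
              · exact (mem_sdiff.1 hq).2 h4
            exact jacobiSym.eq_one_or_neg_one hqr
        rcases h3 with h3 | h3
        · exact ⟨b - 1, by rw [h3, hb]; ring⟩
        · exact ⟨b, by rw [h3, hb]; ring⟩
      choose! c hc using e3
      refine ⟨((∏ q ∈ T1 \ A, (2 * c q + 1) : ℤ) : O) * h, ?_, ?_⟩
      · rw [e2, h1, prod_congr rfl hc, prod_mul_distrib, prod_const]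
        have e4 : T1.card = (T1 \ A).card + A.card := by
          rw [card_sdiff_of_subset hAT.1]
          have := card_le_card hAT.1
          omega
        rw [e4, pow_add]
        push_cast
        ring
      · rw [map_mul, map_intCast, h2]
        have e5 : ((∏ q ∈ T1 \ A, (2 * c q + 1) : ℤ) : k) = 1 := by
          rw [Int.cast_prod]
          refine prod_eq_one fun q _ => ?_
          push_cast
          rw [CharTwo.two_eq_zero, zero_mul, zero_add]
        rw [e5, one_mul]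
    choose! h hh1 hh2 using key
    -- the sum over all the subsets
    obtain ⟨c, hc⟩ : ∃ c : O, c = ∑ u ∈ PU (f * ∏ q ∈ T2 ∪ T1, q),
      X (ZMod.unitsMap hfM u) * ((JJ T2 u * if ∀ q ∈ T1, jc q u = 1 then 1 else 0 : ℤ) : O) *
        ((s (((u : ZMod (f * ∏ q ∈ T2 ∪ T1, q)).val : ℚ) /
          ((f * ∏ q ∈ T2 ∪ T1, q : ℕ) : ℚ)) : ℤ) : O) := ⟨_, rfl⟩
    have hsum : ∑ A ∈ T1.powerset, HX s X (T2 ∪ A) (f * ∏ q ∈ T2 ∪ T1, q) =
        2 ^ T1.card * c := by
      simp only [HX_eq s X _ hfM]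
      rw [sum_comm, hc, mul_sum]
      refine sum_congr rfl fun u _ => ?_
      rw [← sum_mul, ← mul_sum, ← Int.cast_sum, sum_JJ hd1 hd]
      push_cast
      ring
    have hπc : π c = 0 := by
      have h2 := van H hf hf1 hfc (X := (π : O →* k).comp X) (fun x => by
        rw [MonoidHom.comp_apply, MonoidHom.comp_apply, hX]) hp hL (oth_seven hT)
        (T1 := T1) subset_union_right hne' (fun q hq => ⟨(hT1 q hq).four, fun t ht => by
          rw [MonoidHom.comp_apply, (hT1 q hq).one t ht, map_one]⟩) (g := fun _ => 1)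
        (fun q _ => Or.inl rfl)
      rw [hc, map_sum, ← h2]
      refine sum_congr rfl fun u _ => ?_
      rw [map_mul, map_mul, map_intCast, map_intCast]
      unfold WT ind
      rw [MonoidHom.comp_apply]
      have h3 : ((JJ T2 u * if ∀ q ∈ T1, jc q u = 1 then 1 else 0 : ℤ) : k) =
          if ∀ q ∈ T1, jc q u = 1 then 1 else 0 := by
        rw [Int.cast_mul]
        have h4 : ((JJ T2 u : ℤ) : k) = 1 := by
          rcases JJ_sq hd2 u with h5 | h5
          · rw [h5, Int.cast_one]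
          · rw [h5, Int.cast_neg, Int.cast_one, CharTwo.neg_eq]
        rw [h4, one_mul]
        split_ifs
        · exact Int.cast_one
        · exact Int.cast_zero
      rw [h3]
      rfl
    refine ⟨c - ∑ A ∈ T1.ssubsets, h A, ?_, ?_⟩
    · have e1 : T1.powerset = insert T1 T1.ssubsets := by
        rw [ssubsets, insert_erase (mem_powerset.2 (Subset.refl _))]
      rw [e1, sum_insert (by rw [mem_ssubsets]; exact ssubset_irrefl _), sum_congr rfl hh1,
        ← mul_sum] at hsum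
      rw [mul_sub, ← hsum]
      ring
    · rw [map_sub, hπc, map_sum, sum_congr rfl hh2, sum_const, zero_sub, nsmul_eq_mul]
      have e1 : (T1.ssubsets.card : k) = 1 := by
        have h3 : T1.ssubsets.card + 1 = 2 ^ T1.card := by
          rw [ssubsets, card_erase_of_mem (mem_powerset.2 (Subset.refl _)), card_powerset]
          exact Nat.sub_add_cancel (Nat.one_le_two_pow)
        have h4 : ((T1.ssubsets.card : ℕ) : k) + 1 = 0 := by
          have h5 := congrArg (fun n : ℕ => (n : k)) h3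
          simp only [Nat.cast_add, Nat.cast_one, Nat.cast_pow, Nat.cast_ofNat] at h5
          rw [h5, CharTwo.two_eq_zero, zero_pow (card_pos.2 hne').ne']
        exact CharTwo.add_eq_zero.1 h4
      rw [e1, one_mul, CharTwo.neg_eq]

end

end Pool.Agent.W2helper41.L
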