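import Pool.Agent.W2helper41.L.Prd
import Pool.Agent.Y682.XF.ValC

/-!
# The product of the values of the twisted `L`-functions
-/

set_option autoImplicit false
set_option linter.unusedSectionVars false
set_option linter.unusedVariables false

open Finset NumberField IsCyclotomicExtension.Rat H300.HW

namespace Pool.Agent.W2helper41.L

open scoped Classical

open Pool.Agent.W97.MT (ap E14 II)

open Pool.Agent.Y687 (Symb Symb2)

open Pool.Agent.Y700 (WM)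

open Pool.Agent.Y682.XT hiding unitsMap_neg

open Pool.Agent.Y682.XD

open Pool.Agent.Y682.XF hiding core2 prod_D val_D

section

variable {q d : ℕ} [NeZero q] [NeZero d] [NeZero (q * d)] {L : Type} [Field L] [NumberField L]
  [IsCyclotomicExtension {q} ℚ L] {K : IntermediateField ℚ L}

/-- **the product of the central values of the nontrivial twists** -/
theorem val_T (hH : S_HECKE) (hPR : S_PRIM) (hdet : S_DET) (hL1 : S_L1) (hRES : S_RES)
    (hun : S_UNITS) {s t : ℚ → ℤ} {Op Om : ℝ} (hSy : Sy s t Op Om)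
    (hK : HypK s (fun l => ap E14 l) q L K) (hN : Odd (Nat.card (Y682.NCl K))) {D : ℤ}
    (hDp : 0 < D) (hD : D.natAbs = d) (hdsq : Squarefree d)
    (hd : DD q L K (fun l => ap E14 l) d)
    {δ : DirichletCharacter ℂ d} (hδp : δ.IsPrimitive)
    (hδ1 : δ (-1) = (if 0 < D then 1 else -1))
    (hδ : ∀ u : (ZMod d)ˣ, δ (u : ZMod d) = 1 ∨ δ (u : ZMod d) = -1)
    (hδj : ∀ u : (ZMod d)ˣ, δ (u : ZMod d) = (jacobiSym ((u : ZMod d).val : ℤ) d : ℂ))
    {G : DirichletCharacter ℂ (q * d) → ℂ → ℂ}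
    (hG : ∀ χ : DirichletCharacter ℂ (q * d),
      haveI : NeZero χ.conductor := ⟨χ.conductor_ne_zero⟩
      gaussSum (χ.primitiveCharacter)⁻¹ (ZMod.stdAddChar (N := χ.conductor)) * G χ 1 =
        ∑ u : (ZMod χ.conductor)ˣ, (χ.primitiveCharacter)⁻¹ (u : ZMod χ.conductor) *
          II (((u : ZMod χ.conductor).val : ℚ) / χ.conductor))
    [Fintype (GG q L K)] (S : Finset (GG q L K →* ℂˣ)) (hS : ∀ χ, χ ∈ S) :
    ∃ ρ : ℚ, ρ ≠ 0 ∧ padicValRat 2 ρ =
        ((∑ χ ∈ S.erase 1, (tc L K (fun l => ap E14 l) d χ).card : ℕ) : ℤ) ∧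
      (∏ ψ ∈ S.erase 1, G (XX δ (cf q L K ψ)) 1) * ((√|(discr K : ℝ)| : ℝ) : ℂ) =
        (ρ : ℂ) * (((2 * (if 0 < D then Op else Om) / √|(D : ℝ)|) ^
          (S.erase (1 : GG q L K →* ℂˣ)).card : ℝ) : ℂ) := by
  have hd0 : d ≠ 0 := NeZero.ne d
  have hδi : δ⁻¹ = δ := quad_inv hδ
  have hqd : q.Coprime d := by
    refine Nat.coprime_of_dvd ?_
    intro p hp hpq hpd
    exact (hd p hp hpd).1 (dvd_mul_of_dvd_right hpq _)
  have hd14 : d.Coprime 14 := by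
    refine Nat.coprime_of_dvd ?_
    intro p hp hpd hp14
    exact (hd p hp hpd).1 (dvd_mul_of_dvd_left hp14 _)
  have hdo : Odd d := by
    have : d.Coprime 2 := Nat.Coprime.coprime_dvd_right (by norm_num) hd14
    exact Nat.coprime_two_right.1 this
  -- class number formula
  obtain ⟨φ, hφ⟩ := exists_phi q L
  obtain ⟨R, hR⟩ := Pool.Agent.Y682.XT.exists_half q L K hK.hq hK.h1 hK.hre
  obtain ⟨U, hU⟩ := exists_cyc hun hK.hq hK.h1 hK.hre hφ hR
  obtain ⟨hnar, hidx⟩ := narrow hdet hL1 hRES hK.hq hK.h1 hR hU hK.hre hK.hodd hK.hs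
  have hI := hidx hN
  have hcl : Odd (classNumber K) := ((odd_NCl_iff K).1 hN).1
  have hcnf := cnf hdet hL1 hRES hK.hq hK.h1 hR hU hK.hre hK.hodd hK.hs S hS
  have hcard := card_erase S hS
  have hev : Even (S.erase (1 : GG q L K →* ℂˣ)).card := by
    have h1 := hK.hodd
    rw [← hcard] at h1
    rcases Nat.even_or_odd (S.erase (1 : GG q L K →* ℂˣ)).card with h2 | h2
    · exact h2
    · exact absurd h1 (Nat.not_odd_iff_even.2 (h2.add_odd odd_one))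
  -- the sign character as an integral function
  set ε : (ZMod d)ˣ → ℤ := fun u => if δ (u : ZMod d) = 1 then 1 else -1 with hεdef
  have hε1 : ∀ u, ε u = 1 ∨ ε u = -1 := by
    intro u
    by_cases h : δ (u : ZMod d) = 1
    · exact Or.inl (if_pos h)
    · exact Or.inr (if_neg h)
  have hε2 : ∀ u, (ε u : ℂ) = δ (u : ZMod d) := by
    intro u
    by_cases h : δ (u : ZMod d) = 1
    · have : ε u = 1 := if_pos h
      rw [this, h, Int.cast_one]
    · have : ε u = -1 := if_neg h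
      rw [this]
      rcases hδ u with h1 | h1
      · exact absurd h1 h
      · rw [h1]; push_cast; rfl
  have hε3 : ∀ u : (ZMod d)ˣ, ε u = ∏ p ∈ d.primeFactors, jc p u := by
    intro u
    have h1 : ((∏ p ∈ d.primeFactors, jc p u : ℤ) : ℂ) = (ε u : ℂ) := by
      rw [hε2, hδj]
      congr 1
      have h2 := Pool.Agent.Y687.jac_prod ((u : ZMod d).val : ℤ) d.primeFactors
        (fun p hp => Nat.prime_of_mem_primeFactors hp)
      rw [Nat.prod_primeFactors_of_squarefree hdsq] at h2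
      rw [h2]
      rfl
    exact_mod_cast h1.symm
  -- the symbol
  obtain ⟨C, C', κ, hC, hκ, hCC, hval⟩ : ∃ (C : ℂ) (C' : ℝ) (κ : ℤ),
      C' = 2 * (if 0 < D then Op else Om) / κ ∧ Odd κ ∧
      (∃ e : ℚ, (e = 1 ∨ e = -1) ∧ C ^ (S.erase (1 : GG q L K →* ℂˣ)).card =
        (e : ℂ) * ((C' ^ (S.erase (1 : GG q L K →* ℂˣ)).card : ℝ) : ℂ)) ∧
      ∀ (F : ℕ) [NeZero F], Odd F → 1 < F → F.Coprime 14 → ∀ ρ : DirichletCharacter ℂ F,
        ρ (-1) = (if 0 < D then 1 else -1) →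
        ∑ u : (ZMod F)ˣ, ρ (u : ZMod F) * II (((u : ZMod F).val : ℚ) / F) =
          C * ∑ u ∈ PU F, ρ (u : ZMod F) * ((s (((u : ZMod F).val : ℚ) / F) : ℤ) : ℂ) := by
    refine ⟨2 * Op / 3, 2 * Op / 3, 3,
      by rw [if_pos hDp]; push_cast; rfl, by decide, ⟨1, Or.inl rfl, ?_⟩, ?_⟩
    · push_cast
      rw [one_mul]
    · intro F _ hFo hF1 _ ρ hρ
      rw [if_pos hDp] at hρ
      exact II_sum hSy.re hFo hF1 hρ
  obtain ⟨N, hNo, hprod⟩ := prod_T hH hK hd0 hdsq hd ε hε3 S hS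
  obtain ⟨m, hm⟩ : ∃ m : ℕ, m = ∑ χ ∈ S.erase 1, (tc L K (fun l => ap E14 l) d χ).card := ⟨_, rfl⟩
  rw [← hm] at hprod ⊢
  -- the characters
  have hcond : ∀ ψ : GG q L K →* ℂˣ, (XX δ (cf q L K ψ)).conductor =
      (cf q L K ψ).conductor * d := fun ψ => (hPR q d hqd (cf q L K ψ) δ hδp).1
  have hpar : ∀ ψ : GG q L K →* ℂˣ, XX δ (cf q L K ψ) (-1) = (if 0 < D then 1 else -1) := by
    intro ψ
    rw [XX_neg, even_cf hK.hre ψ, one_mul, hδ1]
  have hσ : ((if 0 < D then 1 else -1 : ℂ) = 1 ∨ (if 0 < D then 1 else -1 : ℂ) = -1) := by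
    by_cases h : 0 < D
    · left; exact if_pos h
    · right; exact if_neg h
  have hother : ∀ ψ ∈ S.erase 1, gsi (XX δ (cf q L K ψ)) * G (XX δ (cf q L K ψ)) 1 = C *
      (haveI : NeZero ((cf q L K ψ⁻¹).conductor * d) :=
        ⟨mul_ne_zero (cf q L K ψ⁻¹).conductor_ne_zero hd0⟩
      ∑ g, (((ψ⁻¹) g : ℂˣ) : ℂ) * (wd L K (cf q L K ψ⁻¹).conductor_dvd_level ε s g : ℂ)) := by
    intro ψ hψ
    have : NeZero ((cf q L K ψ⁻¹).conductor * d) :=
      ⟨mul_ne_zero (cf q L K ψ⁻¹).conductor_ne_zero hd0⟩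
    have : NeZero ((cf q L K ψ).conductor * d) :=
      ⟨mul_ne_zero (cf q L K ψ).conductor_ne_zero hd0⟩
    have : NeZero (XX δ (cf q L K ψ)).conductor := ⟨(XX δ (cf q L K ψ)).conductor_ne_zero⟩
    have hne : cf q L K ψ ≠ 1 := fun h => (mem_erase.1 hψ).1 (cf_inj (h.trans cf_one.symm))
    have hf1 : 1 < (XX δ (cf q L K ψ)).conductor := by
      rw [hcond]
      have h2 : (cf q L K ψ).conductor ≠ 1 := fun h =>
        hne (((cf q L K ψ).eq_one_iff_conductor_eq_one).2 h)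
      have h3 := (cf q L K ψ).conductor_ne_zero
      exact lt_of_lt_of_le (by omega : 1 < (cf q L K ψ).conductor)
        (Nat.le_mul_of_pos_right _ (Nat.pos_of_ne_zero hd0))
    have hfo : Odd (XX δ (cf q L K ψ)).conductor :=
      Odd.of_dvd_nat (hK.hq.mul hdo) (XX δ (cf q L K ψ)).conductor_dvd_level
    have hf14 : (XX δ (cf q L K ψ)).conductor.Coprime 14 :=
      Nat.Coprime.coprime_dvd_left (XX δ (cf q L K ψ)).conductor_dvd_level
        (Nat.Coprime.mul_left hK.hco hd14)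
    have h2 := hG (XX δ (cf q L K ψ))
    rw [hval (XX δ (cf q L K ψ)).conductor hfo hf1 hf14
      ((XX δ (cf q L K ψ)).primitiveCharacter)⁻¹ (by
        rw [MulChar.inv_apply_eq_inv', prim_par, hpar]
        rcases hσ with h | h
        · rw [h, inv_one]
        · rw [h]; norm_num)] at h2
    rw [sum_X hε2 hδi ψ s (cf q L K ψ).conductor_dvd_level rfl (XX δ (cf q L K ψ)).conductor
      (hcond ψ) (XX δ (cf q L K ψ)).conductor_dvd_level (XX δ (cf q L K ψ)).primitiveCharacter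
      (XX δ (cf q L K ψ)).changeLevel_primitiveCharacter] at h2
    have h3 : wd L K (cf q L K ψ⁻¹).conductor_dvd_level ε s =
        wd L K (cf q L K ψ).conductor_dvd_level ε s := by
      apply wd_congr
      rw [cf_inv, DirichletCharacter.conductor_inv]
    show _ = C * ∑ g, (((ψ⁻¹) g : ℂˣ) : ℂ) *
      (wd L K (cf q L K ψ⁻¹).conductor_dvd_level ε s g : ℂ)
    rw [h3]
    exact h2
  have hT : (∏ ψ ∈ S.erase 1, gsi (XX δ (cf q L K ψ))) *
      ∏ ψ ∈ S.erase 1, G (XX δ (cf q L K ψ)) 1 =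
        C ^ (S.erase (1 : GG q L K →* ℂˣ)).card * (2 ^ m * N) := by
    rw [← prod_mul_distrib, prod_congr rfl hother, prod_mul_distrib, prod_const]
    congr 1
    rw [← hprod]
    exact prod_inv S hS (fun ψ =>
      haveI : NeZero ((cf q L K ψ).conductor * d) :=
        ⟨mul_ne_zero (cf q L K ψ).conductor_ne_zero hd0⟩
      ∑ g, ((ψ g : ℂˣ) : ℂ) * (wd L K (cf q L K ψ).conductor_dvd_level ε s g : ℂ))
  set n := (S.erase (1 : GG q L K →* ℂˣ)).card with hn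
  set F : ℕ := ∏ ψ ∈ S.erase 1, (cf q L K ψ).conductor with hF
  have hF0 : F ≠ 0 := prod_ne_zero_iff.2 fun ψ _ => (cf q L K ψ).conductor_ne_zero
  -- the square of the product of the Gauss sums
  have hT2 : (∏ ψ ∈ S.erase 1, gsi (XX δ (cf q L K ψ))) ^ 2 = (F : ℂ) * (d : ℂ) ^ n := by
    have h1 : ∏ ψ ∈ S.erase 1, gsi (XX δ (cf q L K ψ)) =
        ∏ ψ ∈ S.erase 1, gs (XX δ (cf q L K ψ)) := by
      rw [← prod_inv S hS (fun ψ => gs (XX δ (cf q L K ψ)))]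
      refine prod_congr rfl fun ψ _ => ?_
      rw [gsi_eq, XX_inv hδi, cf_inv]
    have h2 : (∏ ψ ∈ S.erase 1, gsi (XX δ (cf q L K ψ))) ^ 2 =
        ∏ ψ ∈ S.erase 1, (gs (XX δ (cf q L K ψ)) * gsi (XX δ (cf q L K ψ))) := by
      rw [prod_mul_distrib, ← h1, pow_two]
    rw [h2, prod_congr rfl fun ψ _ => gs_mulS hσ (hpar ψ), prod_mul_distrib, prod_const, ← hn]
    have h3 : (if 0 < D then 1 else -1 : ℂ) ^ n = 1 := by
      rcases hσ with h | h
      · rw [h, one_pow]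
      · rw [h, hev.neg_one_pow]
    rw [h3, one_mul]
    have h4 : ∀ ψ ∈ S.erase (1 : GG q L K →* ℂˣ), (((XX δ (cf q L K ψ)).conductor : ℕ) : ℂ) =
        ((cf q L K ψ).conductor : ℂ) * (d : ℂ) := by
      intro ψ _
      rw [hcond]
      push_cast
      rfl
    rw [prod_congr rfl h4, prod_mul_distrib, prod_const, hF, Nat.cast_prod]
  set T : ℂ := ∏ ψ ∈ S.erase 1, gsi (XX δ (cf q L K ψ)) with hTdef
  set PG : ℂ := ∏ ψ ∈ S.erase 1, G (XX δ (cf q L K ψ)) 1 with hPG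
  have hsF : ((Real.sqrt F : ℝ) : ℂ) ^ 2 = (F : ℂ) := by
    rw [← Complex.ofReal_pow, Real.sq_sqrt (Nat.cast_nonneg _)]
    push_cast
    rfl
  have hsd : ((Real.sqrt d : ℝ) : ℂ) ^ 2 = (d : ℂ) := by
    rw [← Complex.ofReal_pow, Real.sq_sqrt (Nat.cast_nonneg _)]
    push_cast
    rfl
  have hsF0 : Real.sqrt F ≠ 0 := by
    rw [Real.sqrt_ne_zero (Nat.cast_nonneg _)]
    exact_mod_cast hF0
  have hsd0 : Real.sqrt d ≠ 0 := by
    rw [Real.sqrt_ne_zero (Nat.cast_nonneg _)]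
    exact_mod_cast hd0
  set Z : ℂ := ((Real.sqrt F : ℝ) : ℂ) * ((Real.sqrt d : ℝ) : ℂ) ^ n with hZ
  have hZ0 : Z ≠ 0 := mul_ne_zero (by exact_mod_cast hsF0) (pow_ne_zero _ (by exact_mod_cast hsd0))
  obtain ⟨e1, he1, hTε⟩ : ∃ e : ℚ, (e = 1 ∨ e = -1) ∧ T = (e : ℂ) * Z := by
    have h2 : T ^ 2 = Z ^ 2 := by
      rw [hT2, hZ, mul_pow, ← pow_mul, mul_comm n 2, pow_mul, hsF, hsd]
    rcases sq_eq_sq_iff_eq_or_eq_neg.1 h2 with h3 | h3
    · exact ⟨1, Or.inl rfl, by push_cast; rw [one_mul]; exact h3⟩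
    · exact ⟨-1, Or.inr rfl, by push_cast; rw [neg_one_mul]; exact h3⟩
  obtain ⟨e2, he2, hCe⟩ := hCC
  set h := classNumber K with hh
  set I := (CU U).index with hIdef
  have hcnf' : (h : ℂ) * ((Real.sqrt F : ℝ) : ℂ) = (I : ℂ) * ((√|(discr K : ℝ)| : ℝ) : ℂ) := by
    have h2 := congrArg (fun x : ℝ => (x : ℂ)) hcnf
    push_cast at h2
    exact_mod_cast hcnf
  have hI0 : (I : ℂ) ≠ 0 := by
    have : I ≠ 0 := by
      intro h0; rw [h0] at hI; exact absurd hI (by decide)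
    exact_mod_cast this
  have hκ0 : (κ : ℂ) ≠ 0 := by
    have : κ ≠ 0 := by
      intro h0; rw [h0] at hκ; exact absurd hκ (by decide)
    exact_mod_cast this
  have hκ0' : (κ : ℝ) ≠ 0 := by
    have : κ ≠ 0 := by
      intro h0; rw [h0] at hκ; exact absurd hκ (by decide)
    exact_mod_cast this
  have he1' : (e1 : ℂ) * e1 = 1 := by
    rcases he1 with rfl | rfl <;> norm_num
  have he12 : e1 * e2 = 1 ∨ e1 * e2 = -1 := by
    rcases he1 with rfl | rfl <;> rcases he2 with rfl | rfl <;> norm_num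
  have hA : Odd (N * h) := hNo.mul (by exact_mod_cast hcl)
  have hB : Odd ((I : ℤ) * κ ^ n) := Odd.mul (by exact_mod_cast hI) hκ.pow
  obtain ⟨hp1, hp2⟩ := padic_odd hA hB he12
  have hfact : Fact (Nat.Prime 2) := ⟨Nat.prime_two⟩
  have h2m : (2 : ℚ) ^ m ≠ 0 := pow_ne_zero _ two_ne_zero
  refine ⟨_, mul_ne_zero h2m hp2, ?_, ?_⟩
  · rw [padicValRat.mul h2m hp2, hp1, add_zero, padicValRat.pow]
    have h3 : padicValRat 2 (2 : ℚ) = 1 := padicValRat.self (by norm_num)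
    rw [h3, mul_one]
  -- the computation
  have hDd : √|(D : ℝ)| = Real.sqrt d := by
    congr 1
    rw [← hD, Nat.cast_natAbs, Int.cast_abs]
  have h5 : PG * Z = (e1 : ℂ) * (e2 * ((C' ^ n : ℝ) : ℂ) * (2 ^ m * N)) := by
    rw [hTε, hCe] at hT
    linear_combination (e1 : ℂ) * hT - Z * PG * he1'
  have h6 : ((C' ^ n : ℝ) : ℂ) * (κ : ℂ) ^ n =
      (((2 * (if 0 < D then Op else Om) / √|(D : ℝ)|) ^ n : ℝ) : ℂ) *
        ((Real.sqrt d : ℝ) : ℂ) ^ n := by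
    have h7 : C' ^ n * (κ : ℝ) ^ n = (2 * (if 0 < D then Op else Om) / √|(D : ℝ)|) ^ n *
        (Real.sqrt d) ^ n := by
      rw [← mul_pow, ← mul_pow, hC, hDd, div_mul_cancel₀ _ hκ0', div_mul_cancel₀ _ hsd0]
    have h8 := congrArg (fun x : ℝ => (x : ℂ)) h7
    push_cast at h8 ⊢
    exact h8
  set Om' : ℂ := (((2 * (if 0 < D then Op else Om) / √|(D : ℝ)|) ^ n : ℝ) : ℂ) with hOm'
  have hsdn : ((Real.sqrt d : ℝ) : ℂ) ^ n ≠ 0 := pow_ne_zero _ (by exact_mod_cast hsd0)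
  have hκn : (κ : ℂ) ^ n ≠ 0 := pow_ne_zero _ hκ0
  have key : PG * ((√|(discr K : ℝ)| : ℝ) : ℂ) * (I * (κ : ℂ) ^ n) * ((Real.sqrt d : ℝ) : ℂ) ^ n =
      (e1 * e2) * (2 ^ m * N * h) * Om' * ((Real.sqrt d : ℝ) : ℂ) ^ n := by
    rw [hZ] at h5
    linear_combination (-(PG * (κ : ℂ) ^ n * ((Real.sqrt d : ℝ) : ℂ) ^ n)) * hcnf' +
      ((h : ℂ) * (κ : ℂ) ^ n) * h5 + ((e1 : ℂ) * e2 * (2 ^ m * N) * h) * h6
  have key2 := mul_right_cancel₀ hsdn key
  have hIκ : (I : ℂ) * (κ : ℂ) ^ n ≠ 0 := mul_ne_zero hI0 hκn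
  apply mul_right_cancel₀ hIκ
  rw [key2]
  push_cast
  field_simp

end

end Pool.Agent.W2helper41.L
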