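import Pool.Agent.W2helper41.L.Cst

/-!
# The sums of the symbols over the classes vanish modulo two
-/

set_option autoImplicit false
set_option linter.unusedSectionVars false
set_option linter.unusedVariables false

open Finset

namespace Pool.Agent.W2helper41.L

open scoped Classical

open Pool.Agent.Y687 (EE Symb2 Good good_all Pos mem_Pos)

open Pool.Agent.Y682.XT (oo oo_neg c2 PU IsH isH_PU mem_PU unit_ne oo_unit_neg evF EE_par' Prm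
  exists_fix ne_unit_mul oo_two)

open Pool.Agent.Y688.XD (unitsMap_neg fib s_val)

/-- units with given residues -/
lemma crt {a b : ℕ} (h : a.Coprime b) {x y : ℕ} (hx : x.Coprime a) (hy : y.Coprime b) :
    ∃ (κ : (ZMod (a * b))ˣ) (n : ℕ), (κ : ZMod (a * b)) = (n : ZMod (a * b)) ∧ n ≡ x [MOD a] ∧
      n ≡ y [MOD b] := by
  obtain ⟨n, h1, h2⟩ := Nat.chineseRemainder h x y
  have h3 : n.Coprime a := by
    have := h1.gcd_eq
    rw [Nat.Coprime, this]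
    exact hx
  have h4 : n.Coprime b := by
    have := h2.gcd_eq
    rw [Nat.Coprime, this]
    exact hy
  exact ⟨ZMod.unitOfCoprime n (Nat.Coprime.mul_right h3 h4), n, ZMod.coe_unitOfCoprime _ _, h1, h2⟩

section

variable {k : Type} [Field k] [CharP k 2] {M : ℕ} [NeZero M]

/-- the symbol modulo two -/
lemma key {s : ℚ → ℤ} {a : ℕ → ℤ} (H : Symb2 s a) (hM : Odd M) (hco : M.Coprime 14)
    {t7 : (ZMod M)ˣ} (ht7 : (t7 : ZMod M) = 7) (u : (ZMod M)ˣ) :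
    ((s (((u : ZMod M).val : ℚ) / M) : ℤ) : k) =
      c2 k ((s 0 : ℤ) : ZMod 2) + c2 k (∑ z ∈ Pos M, oo z) + ∑ z ∈ Pos M, c2 k (oo z) *
        c2 k (oo (((u⁻¹ : (ZMod M)ˣ) : ZMod M) * z) +
          oo (((u⁻¹ * t7⁻¹ : (ZMod M)ˣ) : ZMod M) * z)) := by
  have hMz : ((M : ℕ) : ℤ) ≠ 0 := by exact_mod_cast NeZero.ne M
  have hcop : IsCoprime (14 * ((u : ZMod M).val : ℤ)) ((M : ℕ) : ℤ) := by
    have e1 : Nat.Coprime (14 * (u : ZMod M).val) M :=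
      Nat.Coprime.mul_left hco.symm (ZMod.val_coe_unit_coprime u)
    exact_mod_cast Nat.isCoprime_iff_coprime.2 e1
  obtain ⟨n, hn, hev⟩ := good_all H _ ((u : ZMod M).val : ℤ) ((M : ℕ) : ℤ) rfl hMz hcop
  have hu : ((((u : ZMod M).val : ℤ)) : ZMod M) = (u : ZMod M) := by
    push_cast
    rw [ZMod.natCast_zmod_val]
  have h2 := EE_par' (Nat.odd_iff.1 hM) (a := ((u : ZMod M).val : ℤ)) (n := n)
    (b := ((u⁻¹ : (ZMod M)ˣ) : ZMod M)) (c := ((u⁻¹ * t7⁻¹ : (ZMod M)ˣ) : ZMod M))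
    (by rw [hu]; exact Units.mul_inv u)
    (by
      rw [hu, ← ht7, ← Units.val_mul, ← Units.val_mul, ← Units.val_one]
      congr 1
      rw [mul_comm t7 u, mul_assoc, mul_comm u⁻¹, ← mul_assoc t7, mul_inv_cancel, one_mul,
        mul_inv_cancel]) hn
  have h3 : ((s (((u : ZMod M).val : ℚ) / M) : ℤ) : ZMod 2) = ((s 0 : ℤ) : ZMod 2) + (n : ZMod 2) := by
    obtain ⟨r, hr⟩ := hev
    push_cast at hr
    have h4 : s (((u : ZMod M).val : ℚ) / M) = s 0 + n + (r + r) := by linear_combination hr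
    rw [h4]
    push_cast
    have : (r : ZMod 2) + (r : ZMod 2) = 0 := CharTwo.add_self_eq_zero _
    linear_combination this
  have h5 : ((s (((u : ZMod M).val : ℚ) / M) : ℤ) : k) =
      c2 k ((s (((u : ZMod M).val : ℚ) / M) : ℤ) : ZMod 2) := (map_intCast _ _).symm
  rw [h5, h3, map_add, h2, map_add, map_sum (c2 k) (fun z => oo z * _), ← add_assoc]
  congr 1
  refine sum_congr rfl fun z _ => ?_
  rw [map_mul]

/-- the inner sums -/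
noncomputable def JZ (t7 : (ZMod M)ˣ) (Φ : (ZMod M)ˣ → k) (z : ZMod M) : k :=
  ∑ u ∈ PU M, Φ u * c2 k (oo (((u⁻¹ : (ZMod M)ˣ) : ZMod M) * z) +
    oo (((u⁻¹ * t7⁻¹ : (ZMod M)ˣ) : ZMod M) * z))

lemma sum_key {s : ℚ → ℤ} {a : ℕ → ℤ} (H : Symb2 s a) (hM : Odd M) (hco : M.Coprime 14)
    {t7 : (ZMod M)ˣ} (ht7 : (t7 : ZMod M) = 7) (Φ : (ZMod M)ˣ → k) :
    ∑ u ∈ PU M, Φ u * ((s (((u : ZMod M).val : ℚ) / M) : ℤ) : k) =
      (∑ u ∈ PU M, Φ u) * (c2 k ((s 0 : ℤ) : ZMod 2) + c2 k (∑ z ∈ Pos M, oo z)) +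
        ∑ z ∈ Pos M, c2 k (oo z) * JZ t7 Φ z := by
  have e1 : ∀ u : (ZMod M)ˣ, Φ u * ((s (((u : ZMod M).val : ℚ) / M) : ℤ) : k) =
      Φ u * (c2 k ((s 0 : ℤ) : ZMod 2) + c2 k (∑ z ∈ Pos M, oo z)) +
      ∑ z ∈ Pos M, c2 k (oo z) * (Φ u *
      c2 k (oo (((u⁻¹ : (ZMod M)ˣ) : ZMod M) * z) +
        oo (((u⁻¹ * t7⁻¹ : (ZMod M)ˣ) : ZMod M) * z))) := by
    intro u
    rw [key (k := k) H hM hco ht7 u, mul_add (Φ u), mul_sum]
    congr 1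
    refine sum_congr rfl fun z _ => ?_
    ring
  rw [sum_congr rfl fun u _ => e1 u, sum_add_distrib, sum_mul]
  congr 1
  rw [sum_comm]
  refine sum_congr rfl fun z _ => ?_
  unfold JZ
  rw [mul_sum]

lemma J_even (hM : Odd M) {Φ : (ZMod M)ˣ → k} (hΦ : ∀ u, Φ (-u) = Φ u)
    (t7 : (ZMod M)ˣ) {z : ZMod M} (hz : z ≠ 0) (u : (ZMod M)ˣ) :
    Φ (-u) * c2 k (oo ((((-u)⁻¹ : (ZMod M)ˣ) : ZMod M) * z) +
      oo ((((-u)⁻¹ * t7⁻¹ : (ZMod M)ˣ) : ZMod M) * z)) =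
    Φ u * c2 k (oo (((u⁻¹ : (ZMod M)ˣ) : ZMod M) * z) +
      oo (((u⁻¹ * t7⁻¹ : (ZMod M)ˣ) : ZMod M) * z)) := by
  rw [hΦ]
  congr 2
  have e1 : (-u)⁻¹ = -u⁻¹ := inv_neg
  rw [e1, neg_mul, Units.val_neg, Units.val_neg, neg_mul, neg_mul,
    oo_neg hM (ne_unit_mul hz _), oo_neg hM (ne_unit_mul hz _)]
  have : (1 : ZMod 2) + 1 = 0 := by decide
  linear_combination this

/-- translation -/
lemma J_trans (hM : Odd M) (h1 : 1 < M) {Φ : (ZMod M)ˣ → k} (hΦ : ∀ u, Φ (-u) = Φ u)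
    (t7 : (ZMod M)ˣ) {z : ZMod M} (hz : z ≠ 0) {κ : (ZMod M)ˣ} (hκ : (κ : ZMod M) * z = z) {c : k}
    (hc : ∀ u, Φ (κ * u) = c * Φ u) (hc1 : c ≠ 1) : JZ t7 Φ z = 0 := by
  have hκ' : ((κ⁻¹ : (ZMod M)ˣ) : ZMod M) * z = z := by
    conv_lhs => rw [← hκ]
    rw [← mul_assoc, ← Units.val_mul, inv_mul_cancel, Units.val_one, one_mul]
  have h2 : JZ t7 Φ z = c * JZ t7 Φ z := by
    conv_lhs => unfold JZ
    rw [← (isH_PU hM h1).sum_equiv (Equiv.mulLeft κ) (fun x => mul_neg κ x) _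
      (fun u => J_even hM hΦ t7 hz u)]
    unfold JZ
    rw [mul_sum]
    refine sum_congr rfl fun u _ => ?_
    show Φ (κ * u) * c2 k (oo ((((κ * u)⁻¹ : (ZMod M)ˣ) : ZMod M) * z) +
      oo ((((κ * u)⁻¹ * t7⁻¹ : (ZMod M)ˣ) : ZMod M) * z)) = _
    have e1 : (((κ * u)⁻¹ : (ZMod M)ˣ) : ZMod M) * z = ((u⁻¹ : (ZMod M)ˣ) : ZMod M) * z := by
      rw [mul_inv, mul_comm κ⁻¹, Units.val_mul, mul_assoc, hκ']
    have e2 : (((κ * u)⁻¹ * t7⁻¹ : (ZMod M)ˣ) : ZMod M) * z =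
        ((u⁻¹ * t7⁻¹ : (ZMod M)ˣ) : ZMod M) * z := by
      rw [mul_inv, mul_comm κ⁻¹, mul_assoc, mul_comm κ⁻¹, ← mul_assoc, Units.val_mul, mul_assoc,
        hκ']
    rw [hc, mul_assoc, e1, e2]
  have h3 : (c - 1) * JZ t7 Φ z = 0 := by rw [sub_mul, ← h2, one_mul, sub_self]
  exact (mul_eq_zero.1 h3).resolve_left (sub_ne_zero.2 hc1)

/-- translation -/
lemma sum_trans (hM : Odd M) (h1 : 1 < M) {Φ : (ZMod M)ˣ → k} (hΦ : ∀ u, Φ (-u) = Φ u)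
    {κ : (ZMod M)ˣ} {c : k} (hc : ∀ u, Φ (κ * u) = c * Φ u) (hc1 : c ≠ 1) :
    ∑ u ∈ PU M, Φ u = 0 := by
  have h2 := (isH_PU hM h1).sum_equiv (Equiv.mulLeft κ) (fun x => mul_neg κ x) Φ hΦ
  simp only [Equiv.coe_mulLeft, hc] at h2
  rw [← mul_sum] at h2
  have h3 : (c - 1) * ∑ u ∈ PU M, Φ u = 0 := by rw [sub_mul, h2, one_mul, sub_self]
  exact (mul_eq_zero.1 h3).resolve_left (sub_ne_zero.2 hc1)

end

section

variable {k : Type} [Field k] [CharP k 2] {M' q : ℕ} [NeZero M'] [NeZero (M' * q)]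

/-- an involution without fixed points -/
lemma J_inv (hM : Odd M') (h1 : 1 < M') (hqo : Odd q) (hq : q.Prime)
    {Φ : (ZMod (M' * q))ˣ → k} (hΦ : ∀ u, Φ (-u) = Φ u)
    (t7 : (ZMod (M' * q))ˣ) {z : ZMod (M' * q)} (hz : z ≠ 0) {ν : (ZMod (M' * q))ˣ}
    (hν2 : ν * ν = 1) (hν1 : ν ≠ 1) (hνM : ZMod.unitsMap (dvd_mul_right M' q) ν = 1)
    (hνz : (ν : ZMod (M' * q)) * z = z) (hνΦ : ∀ u, Φ (ν * u) = Φ u) : JZ t7 Φ z = 0 := by
  have hPU := isH_PU hM h1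
  have hMpo : Odd (M' * q) := hM.mul hqo
  have hMp1 : 1 < M' * q := lt_of_lt_of_le h1 (Nat.le_mul_of_pos_right _ hq.pos)
  have hH : IsH (univ.filter (fun w : (ZMod (M' * q))ˣ =>
      ZMod.unitsMap (dvd_mul_right M' q) w ∈ PU M')) := by
    constructor
    · intro b
      simp only [mem_filter, mem_univ, true_and, unitsMap_neg]
      exact hPU.mem _
    · intro b hb
      simp only [mem_filter, mem_univ, true_and, unitsMap_neg] at hb ⊢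
      exact hPU.neg _ hb
  unfold JZ
  rw [← hH.sum_eq (isH_PU hMpo hMp1) _ (fun u => J_even hMpo hΦ t7 hz u)]
  have hinv : ν⁻¹ = ν := inv_eq_of_mul_eq_one_left hν2
  refine sum_involution (fun u _ => ν * u) ?_ ?_ ?_ ?_
  · intro u _
    have e1 : (((ν * u)⁻¹ : (ZMod (M' * q))ˣ) : ZMod (M' * q)) * z =
        ((u⁻¹ : (ZMod (M' * q))ˣ) : ZMod (M' * q)) * z := by
      rw [mul_inv, hinv, mul_comm ν, Units.val_mul, mul_assoc, hνz]
    have e2 : (((ν * u)⁻¹ * t7⁻¹ : (ZMod (M' * q))ˣ) : ZMod (M' * q)) * z =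
        ((u⁻¹ * t7⁻¹ : (ZMod (M' * q))ˣ) : ZMod (M' * q)) * z := by
      rw [mul_inv, hinv, mul_comm ν, mul_assoc, mul_comm ν, ← mul_assoc, Units.val_mul, mul_assoc,
        hνz]
    show _ + Φ (ν * u) * c2 k (oo ((((ν * u)⁻¹ : (ZMod (M' * q))ˣ) : ZMod (M' * q)) * z) +
      oo ((((ν * u)⁻¹ * t7⁻¹ : (ZMod (M' * q))ˣ) : ZMod (M' * q)) * z)) = 0
    rw [hνΦ, e1, e2]
    exact CharTwo.add_self_eq_zero _
  · intro u _ _ h2
    apply hν1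
    exact mul_eq_right.1 h2
  · intro u hu
    rw [mem_filter] at hu ⊢
    refine ⟨mem_univ _, ?_⟩
    rw [map_mul, hνM, one_mul]
    exact hu.2
  · intro u _
    show ν * (ν * u) = u
    rw [← mul_assoc, hν2, one_mul]

end

end Pool.Agent.W2helper41.L
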