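import Pool.Agent.W2helper41.L.Van

/-!
# The sums of the symbols over the classes vanish modulo two, conclusion
-/

set_option autoImplicit false
set_option linter.unusedSectionVars false
set_option linter.unusedVariables false

open Finset

namespace Pool.Agent.W2helper41.L

open scoped Classical

open Pool.Agent.Y687 (EE Symb2 Good good_all Pos mem_Pos)

open Pool.Agent.Y682.XT (oo oo_neg c2 PU IsH isH_PU mem_PU unit_ne oo_unit_neg evF EE_par' Prm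
  exists_fix ne_unit_mul oo_two)

open Pool.Agent.Y688.XD (unitsMap_neg fib s_val)

lemma int_eq {M : ℕ} [NeZero M] {x y : ℤ} (h : (M : ℤ) ∣ x - y) : (x : ZMod M) = (y : ZMod M) := by
  rw [← sub_eq_zero, ← Int.cast_sub, ZMod.intCast_zmod_eq_zero_iff_dvd]
  exact h

lemma dvd_of_mod {n x a : ℕ} (h : n ≡ x [MOD a]) : (a : ℤ) ∣ (n : ℤ) - x := by
  have := (Nat.modEq_iff_dvd.1 h.symm)
  exact this

/-- residue symbols of units congruent to one -/
lemma jc_congr {M : ℕ} [NeZero M] {q : ℕ} (hq : q ∣ M) {κ : (ZMod M)ˣ} {n x : ℕ}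
    (h : (κ : ZMod M) = (n : ZMod M)) (h1 : n ≡ x [MOD q]) : jc q κ = jacobiSym x q := by
  rw [jc_of hq (n := (n : ℤ)) (by rw [h]; push_cast; rfl)]
  have h2 : (n : ℤ) ≡ (x : ℤ) [ZMOD q] := (Int.natCast_modEq_iff).2 h1
  rw [jacobiSym.mod_left, h2, ← jacobiSym.mod_left]

lemma map_congr {M f : ℕ} [NeZero M] [NeZero f] (hf : f ∣ M) {κ : (ZMod M)ˣ} {n : ℕ} {c : (ZMod f)ˣ}
    (h : (κ : ZMod M) = (n : ZMod M)) (h1 : n ≡ (c : ZMod f).val [MOD f]) :
    ZMod.unitsMap hf κ = c := by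
  apply Units.ext
  rw [ZMod.unitsMap_val, h, ZMod.cast_natCast hf]
  rw [← ZMod.natCast_zmod_val (c : ZMod f)]
  exact (ZMod.natCast_eq_natCast_iff _ _ _).2 h1

section

variable {k : Type} [Field k] [CharP k 2]

/-- a unit of order two which fixes `z` -/
lemma caseB {M M' q : ℕ} [NeZero M] [NeZero M'] (hMM : M = M' * q) (hM : Odd M') (h1 : 1 < M')
    (hqo : Odd q) (hq : q.Prime) (hqM : ¬ q ∣ M') {Φ : (ZMod M)ˣ → k} (hΦ : ∀ u, Φ (-u) = Φ u)
    (t7 : (ZMod M)ˣ) {z : ZMod M} (hz : z ≠ 0) (hqz : q ∣ z.val)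
    (hν : ∀ (ν : (ZMod M)ˣ) (n : ℕ), (ν : ZMod M) = (n : ZMod M) → n ≡ 1 [MOD M'] →
      n ≡ q - 1 [MOD q] → ∀ u, Φ (ν * u) = Φ u) : JZ t7 Φ z = 0 := by
  subst hMM
  have hq0 := hq.two_le
  have hcop : M'.Coprime q := ((Nat.Prime.coprime_iff_not_dvd hq).2 hqM).symm
  have hq1 : (q - 1).Coprime q := by
    have h2 : q - 1 + 1 = q := by omega
    have h3 : (q - 1).Coprime (q - 1 + 1) := by simp
    rwa [h2] at h3
  obtain ⟨ν, n, h2, h3, h4⟩ := crt hcop (x := 1) (y := q - 1) (Nat.coprime_one_left M') hq1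
  have d1 : (M' : ℤ) ∣ (n : ℤ) - 1 := dvd_of_mod h3
  have d2 : (q : ℤ) ∣ (n : ℤ) + 1 := by
    have h5 := dvd_of_mod h4
    rw [Nat.cast_sub (by omega)] at h5
    have h6 : (n : ℤ) + 1 = ((n : ℤ) - ((q : ℤ) - (1 : ℕ))) + q := by push_cast; ring
    rw [h6]
    exact dvd_add h5 dvd_rfl
  have hcz : IsCoprime (M' : ℤ) (q : ℤ) := Nat.isCoprime_iff_coprime.2 hcop
  refine J_inv hM h1 hqo hq hΦ t7 hz (ν := ν) ?_ ?_ ?_ ?_ (hν ν n h2 h3 h4)
  · apply Units.ext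
    rw [Units.val_mul, h2, Units.val_one]
    have h5 : ((M' * q : ℕ) : ℤ) ∣ (n : ℤ) * n - 1 := by
      push_cast
      refine hcz.mul_dvd ?_ ?_
      · have : (n : ℤ) * n - 1 = ((n : ℤ) - 1) * (n + 1) := by ring
        rw [this]; exact d1.mul_right _
      · have : (n : ℤ) * n - 1 = ((n : ℤ) + 1) * (n - 1) := by ring
        rw [this]; exact d2.mul_right _
    have := int_eq (M := M' * q) h5
    push_cast at this
    exact this
  · intro h5
    have h6 : ((n : ℤ) : ZMod (M' * q)) = ((1 : ℤ) : ZMod (M' * q)) := by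
      push_cast
      rw [← h2, h5, Units.val_one]
    rw [ZMod.intCast_eq_intCast_iff_dvd_sub] at h6
    have h7 : (q : ℤ) ∣ 1 - (n : ℤ) := (Dvd.intro_left (M' : ℤ) (by push_cast; rfl)).trans h6
    have h8 : (q : ℤ) ∣ 2 := by
      have := dvd_add h7 d2
      have e : (1 : ℤ) - n + (n + 1) = 2 := by ring
      rwa [e] at this
    have h9 : q ∣ 2 := by exact_mod_cast h8
    have h10 := Nat.le_of_dvd (by norm_num) h9
    obtain ⟨r, hr⟩ := hqo
    omega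
  · apply Units.ext
    rw [ZMod.unitsMap_val, h2, ZMod.cast_natCast (dvd_mul_right M' q), Units.val_one]
    have := (ZMod.natCast_eq_natCast_iff n 1 M').2 h3
    rw [this, Nat.cast_one]
  · obtain ⟨c, hc⟩ := hqz
    have h5 : z = ((z.val : ℤ) : ZMod (M' * q)) := by
      push_cast
      rw [ZMod.natCast_zmod_val]
    rw [h2]
    have h6 : (((n : ℤ) * (z.val : ℤ) : ℤ) : ZMod (M' * q)) = ((z.val : ℤ) : ZMod (M' * q)) := by
      apply int_eq
      have h7 : (n : ℤ) * (z.val : ℤ) - (z.val : ℤ) = ((n : ℤ) - 1) * ((q : ℤ) * c) := by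
        rw [hc]; push_cast; ring
      rw [h7]
      obtain ⟨e, he⟩ := d1
      rw [he]
      refine ⟨e * c, ?_⟩
      push_cast
      ring
    rw [Int.cast_mul, ← h5] at h6
    exact_mod_cast h6

variable {f : ℕ} [NeZero f]

lemma mem_dvd {T : Finset ℕ} {q : ℕ} (hq : q ∈ T) : q ∣ f * ∏ r ∈ T, r :=
  dvd_mul_of_dvd_right (dvd_prod_of_mem _ hq) _

lemma lvl_cop {T : Finset ℕ} (hT : Lvl f T) : f.Coprime (∏ r ∈ T, r) := by
  rw [Nat.coprime_prod_right_iff]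
  intro r hr
  exact ((Nat.Prime.coprime_iff_not_dvd (hT r hr).1).2 (hT r hr).2.2).symm

/-- lifting a unit -/
lemma lift {T : Finset ℕ} (hT : Lvl f T) [NeZero (f * ∏ r ∈ T, r)] (c : (ZMod f)ˣ) :
    ∃ (κ : (ZMod (f * ∏ r ∈ T, r))ˣ) (n : ℕ), (κ : ZMod (f * ∏ r ∈ T, r)) = n ∧
      ZMod.unitsMap (dvd_mul_right f _) κ = c ∧ n ≡ (c : ZMod f).val [MOD f] ∧
      n ≡ 1 [MOD (∏ r ∈ T, r)] ∧ ∀ q ∈ T, jc q κ = 1 := by
  obtain ⟨κ, n, h1, h2, h3⟩ := crt (lvl_cop hT) (x := (c : ZMod f).val) (y := 1)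
    (ZMod.val_coe_unit_coprime c) (Nat.coprime_one_left _)
  refine ⟨κ, n, h1, map_congr _ h1 h2, h2, h3, fun q hq => ?_⟩
  rw [jc_congr (mem_dvd hq) h1 (h3.of_dvd (dvd_prod_of_mem _ hq)), Nat.cast_one,
    jacobiSym.one_left]

/-- **the sums over the classes vanish** -/
theorem van {s : ℚ → ℤ} {a : ℕ → ℤ} (H : Symb2 s a) {X : (ZMod f)ˣ →* k} (hf : Odd f)
    (hf1 : 1 < f) (hfc : f.Coprime 14) (hX : ∀ x, X (-x) = X x) (hp : Prm X) {T : Finset ℕ}
    (hT : Lvl f T) (hT7 : 7 ∉ T) [NeZero (f * ∏ r ∈ T, r)] {T1 : Finset ℕ} (hT1 : T1 ⊆ T)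
    (hne : T1.Nonempty) (htr : ∀ q ∈ T1, TrivAt X q) {g : ℕ → ℤ} (hg : Sgn T1 g) :
    ∑ u ∈ PU (f * ∏ r ∈ T, r), WT X (dvd_mul_right f _) T1 g u *
      ((s (((u : ZMod (f * ∏ r ∈ T, r)).val : ℚ) / ((f * ∏ r ∈ T, r : ℕ) : ℚ)) : ℤ) : k) = 0 := by
  have hMo := lvl_odd hf hT
  have hM1 := lvl_lt hf1 hT
  have hdT : ∀ r ∈ T1, r ∣ f * ∏ r ∈ T, r := fun r hr => mem_dvd (hT1 hr)
  have hMc : (f * ∏ r ∈ T, r).Coprime 14 := by
    refine Nat.Coprime.mul_left hfc ?_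
    rw [Nat.coprime_prod_left_iff]
    intro r hr
    rw [Nat.Prime.coprime_iff_not_dvd (hT r hr).1]
    intro h
    have h2 : r ∣ 2 * 7 := by norm_num; exact h
    rcases ((hT r hr).1.dvd_mul).1 h2 with h3 | h3
    · rw [Nat.prime_dvd_prime_iff_eq (hT r hr).1 Nat.prime_two] at h3
      have := (hT r hr).2.1
      rw [h3] at this
      exact absurd this (by decide)
    · rw [Nat.prime_dvd_prime_iff_eq (hT r hr).1 (by norm_num)] at h3
      rw [h3] at hr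
      exact hT7 hr
  obtain ⟨t7, ht7⟩ : ∃ t7 : (ZMod (f * ∏ r ∈ T, r))ˣ, (t7 : ZMod (f * ∏ r ∈ T, r)) = 7 :=
    ⟨ZMod.unitOfCoprime 7 (Nat.Coprime.coprime_dvd_left (by norm_num) hMc.symm), by
      rw [ZMod.coe_unitOfCoprime]; norm_num⟩
  obtain ⟨t2, ht2⟩ : ∃ t2 : (ZMod (f * ∏ r ∈ T, r))ˣ, (t2 : ZMod (f * ∏ r ∈ T, r)) = 2 :=
    ⟨ZMod.unitOfCoprime 2 (Nat.Coprime.coprime_dvd_left (by norm_num) hMc.symm), by
      rw [ZMod.coe_unitOfCoprime]; norm_num⟩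
  obtain ⟨M, hM⟩ : ∃ M, M = f * ∏ r ∈ T, r := ⟨_, rfl⟩
  have hΦ : ∀ u : (ZMod (f * ∏ r ∈ T, r))ˣ, WT X (dvd_mul_right f _) T1 g (-u) =
      WT X (dvd_mul_right f _) T1 g u := by
    intro u
    unfold WT
    rw [unitsMap_neg, hX, ind_neg fun r hr => ⟨hdT r hr, (hT r (hT1 hr)).1, (htr r hr).four⟩]
  have hmul : ∀ κ : (ZMod (f * ∏ r ∈ T, r))ˣ, (∀ q ∈ T, jc q κ = 1) → ∀ u,
      WT X (dvd_mul_right f _) T1 g (κ * u) =
        X (ZMod.unitsMap (dvd_mul_right f _) κ) * WT X (dvd_mul_right f _) T1 g u := by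
    intro κ hκ u
    unfold WT
    rw [map_mul, map_mul, ind_mul hdT, ind_congr (g' := g) fun q hq => ?_, mul_assoc]
    rw [hκ q (hT1 hq), mul_one]
  rw [sum_key H hMo hMc ht7]
  -- the sum of the weights
  have hz0 : ∑ u ∈ PU (f * ∏ r ∈ T, r), WT X (dvd_mul_right f _) T1 g u = 0 := by
    obtain ⟨c, -, hc⟩ := hp 1 (one_dvd f) (by omega)
    obtain ⟨κ, n, -, h2, -, -, h5⟩ := lift hT c
    refine sum_trans hMo hM1 hΦ (κ := κ) (c := X c) (fun u => ?_) hc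
    rw [hmul κ h5, h2]
  rw [hz0, zero_mul, zero_add]
  -- the nonunits
  have hnon : ∀ z : ZMod (f * ∏ r ∈ T, r), z ≠ 0 → ¬ IsUnit z →
      JZ t7 (WT X (dvd_mul_right f _) T1 g) z = 0 := by
    intro z hz hzu
    by_cases hzf : z.val.Coprime f
    · obtain ⟨q, hq, hqz⟩ : ∃ q ∈ T, q ∣ z.val := by
        have h1 : ¬ z.val.Coprime (f * ∏ r ∈ T, r) := by
          intro h
          apply hzu
          have h2 := (ZMod.isUnit_iff_coprime z.val (f * ∏ r ∈ T, r)).2 h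
          rwa [ZMod.natCast_zmod_val] at h2
        obtain ⟨r, hr, hrz, hrM⟩ := Nat.Prime.not_coprime_iff_dvd.1 h1
        rcases (hr.dvd_mul).1 hrM with h | h
        · exact absurd (Nat.dvd_gcd hrz h) (by
            rw [hzf]
            exact hr.one_lt.ne' ∘ Nat.dvd_one.1)
        · rw [hr.prime.dvd_finsetProd_iff] at h
          obtain ⟨q, hq, h3⟩ := h
          rw [Nat.prime_dvd_prime_iff_eq hr (hT q hq).1] at h3
          exact ⟨q, hq, h3 ▸ hrz⟩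
      obtain ⟨hqp, hqo, hqf⟩ := hT q hq
      have hT' : Lvl f (T.erase q) := hT.mono (erase_subset _ _)
      have : NeZero (f * ∏ r ∈ T.erase q, r) := ⟨lvl_ne hT'⟩
      have hMM : f * ∏ r ∈ T, r = (f * ∏ r ∈ T.erase q, r) * q := by
        rw [mul_assoc, mul_comm _ q, mul_prod_erase T (fun r => r) hq]
      refine caseB hMM (lvl_odd hf hT') (lvl_lt hf1 hT') hqo hqp
        (lvl_not_dvd hT' hqp (notMem_erase q T) hqf) hΦ t7 hz hqz ?_
      intro ν n h2 h3 h4 u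
      have h5 : ∀ r ∈ T1, jc r ν = 1 := by
        intro r hr
        by_cases hrq : r = q
        · subst hrq
          rw [jc_congr (hdT r hr) h2 h4]
          have h6 : jacobiSym ((r - 1 : ℕ) : ℤ) r = jacobiSym (-1) r := by
            have e : ((r - 1 : ℕ) : ℤ) % (r : ℤ) = (-1) % (r : ℤ) := by
              rw [Nat.cast_sub hqp.one_lt.le, Nat.cast_one]
              have : ((r : ℤ) - 1) = -1 + r := by ring
              rw [this, Int.add_emod_right]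
            rw [jacobiSym.mod_left, e, ← jacobiSym.mod_left]
          rw [h6, jacobiSym.at_neg_one hqo, ZMod.χ₄_nat_one_mod_four (htr r hr).four]
        · rw [jc_congr (hdT r hr) h2 (h3.of_dvd (mem_dvd (mem_erase.2 ⟨hrq, hT1 hr⟩))), Nat.cast_one,
            jacobiSym.one_left]
      have h7 : ZMod.unitsMap (dvd_mul_right f (∏ r ∈ T, r)) ν = 1 := by
        apply Units.ext
        rw [ZMod.unitsMap_val, h2, ZMod.cast_natCast (dvd_mul_right f _), Units.val_one]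
        have h8 : n ≡ 1 [MOD f] := h3.of_dvd (dvd_mul_right f _)
        have := (ZMod.natCast_eq_natCast_iff n 1 f).2 h8
        rw [this, Nat.cast_one]
      unfold WT
      rw [map_mul, h7, one_mul, ind_mul hdT, ind_congr (g' := g) fun r hr => ?_]
      rw [h5 r hr, mul_one]
    · -- a common divisor with `f`
      obtain ⟨c, hc, hcX⟩ := exists_fix (M := f) (ψ := X) hp (z := ((z.val : ℕ) : ZMod f)) (by
        intro h
        exact hzf ((ZMod.isUnit_iff_coprime z.val f).1 h))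
      obtain ⟨κ, n, h1, h2, h3, h4, h5⟩ := lift hT c
      refine J_trans hMo hM1 hΦ t7 hz (κ := κ) ?_ (c := X c) (fun u => by rw [hmul κ h5, h2]) hcX
      have h6 : z = ((z.val : ℤ) : ZMod (f * ∏ r ∈ T, r)) := by
        push_cast
        rw [ZMod.natCast_zmod_val]
      have h7 : (f : ℤ) ∣ (n : ℤ) * (z.val : ℤ) - (z.val : ℤ) := by
        rw [← ZMod.intCast_zmod_eq_zero_iff_dvd, Int.cast_sub, sub_eq_zero]
        push_cast
        have h8 : ((n : ℕ) : ZMod f) = (c : ZMod f) := by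
          rw [← ZMod.natCast_zmod_val (c : ZMod f)]
          exact (ZMod.natCast_eq_natCast_iff _ _ _).2 h3
        rw [h8]
        exact hc
      have h8 : ((∏ r ∈ T, r : ℕ) : ℤ) ∣ (n : ℤ) * (z.val : ℤ) - (z.val : ℤ) := by
        have h9 := dvd_of_mod h4
        have e : (n : ℤ) * (z.val : ℤ) - (z.val : ℤ) = ((n : ℤ) - ((1 : ℕ) : ℤ)) * (z.val : ℤ) := by
          push_cast; ring
        rw [e]
        exact h9.mul_right _
      have h9 : (((n : ℤ) * (z.val : ℤ) : ℤ) : ZMod (f * ∏ r ∈ T, r)) =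
          ((z.val : ℤ) : ZMod (f * ∏ r ∈ T, r)) := by
        apply int_eq
        rw [Nat.cast_mul]
        exact (Nat.isCoprime_iff_coprime.2 (lvl_cop hT)).mul_dvd h7 h8
      rw [Int.cast_mul, ← h6] at h9
      rw [h1]
      exact_mod_cast h9
  -- the units
  obtain ⟨X', hX'⟩ : ∃ X' : (ZMod f)ˣ →* k, ∀ x, X' x = X x⁻¹ :=
    ⟨X.comp (MulEquiv.inv (ZMod f)ˣ).toMonoidHom, fun x => rfl⟩
  have hX'e : ∀ x, X' (-x) = X' x := by
    intro x
    have e1 : (-x)⁻¹ = -x⁻¹ := inv_neg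
    rw [hX', hX', e1, hX]
  have htr' : ∀ q ∈ T1, TrivAt X' q := by
    intro q hq
    refine ⟨(htr q hq).four, fun t ht => ?_⟩
    have h1 := (htr q hq).one t ht
    have h2 : X t * X t⁻¹ = 1 := by rw [← map_mul, mul_inv_cancel, map_one]
    rw [hX', ← h2, h1, one_mul]
  have hcst := cst hf hf1 hX'e T hT (f * ∏ r ∈ T, r) (dvd_mul_right f _) rfl T1 hT1 htr' t7
  have hunit : ∀ z : (ZMod (f * ∏ r ∈ T, r))ˣ, JZ t7 (WT X (dvd_mul_right f _) T1 g)
      (z : ZMod (f * ∏ r ∈ T, r)) = X (ZMod.unitsMap (dvd_mul_right f _) z) *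
        (X (ZMod.unitsMap (dvd_mul_right f _) t7)⁻¹ *
          SV t7 (WT X' (dvd_mul_right f _) T1 g)) := by
    intro z
    unfold JZ
    rw [← (isH_PU hMo hM1).sum_equiv ((Equiv.inv _).trans (Equiv.mulLeft (z * t7⁻¹)))
      (fun x => by
        show z * t7⁻¹ * (-x)⁻¹ = -(z * t7⁻¹ * x⁻¹)
        have e1 : (-x)⁻¹ = -x⁻¹ := inv_neg
        rw [e1, mul_neg]) _ (fun u => J_even hMo hΦ t7 (unit_ne hM1 z) u)]
    have e1 : ∀ w : (ZMod (f * ∏ r ∈ T, r))ˣ,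
        WT X (dvd_mul_right f _) T1 g (z * t7⁻¹ * w⁻¹) * c2 k
          (oo ((((z * t7⁻¹ * w⁻¹)⁻¹ : (ZMod (f * ∏ r ∈ T, r))ˣ) : ZMod (f * ∏ r ∈ T, r)) *
            (z : ZMod (f * ∏ r ∈ T, r))) +
          oo ((((z * t7⁻¹ * w⁻¹)⁻¹ * t7⁻¹ : (ZMod (f * ∏ r ∈ T, r))ˣ) :
            ZMod (f * ∏ r ∈ T, r)) * (z : ZMod (f * ∏ r ∈ T, r)))) =
        X (ZMod.unitsMap (dvd_mul_right f _) z) *
          (X (ZMod.unitsMap (dvd_mul_right f _) t7)⁻¹ *
          (WT X' (dvd_mul_right f _) T1 (fun q => g q * jc q (z * t7⁻¹)) w * VV k t7 w)) := by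
      intro w
      have f1 : (((z * t7⁻¹ * w⁻¹)⁻¹ : (ZMod (f * ∏ r ∈ T, r))ˣ) : ZMod (f * ∏ r ∈ T, r)) *
          (z : ZMod (f * ∏ r ∈ T, r)) =
          ((t7 * w : (ZMod (f * ∏ r ∈ T, r))ˣ) : ZMod (f * ∏ r ∈ T, r)) := by
        rw [← Units.val_mul]
        congr 1
        rw [mul_inv, mul_inv, inv_inv, inv_inv]
        calc z⁻¹ * t7 * w * z = z⁻¹ * z * (t7 * w) := by
              rw [mul_assoc z⁻¹, mul_assoc z⁻¹, mul_assoc z⁻¹, mul_comm z]
          _ = t7 * w := by rw [inv_mul_cancel, one_mul]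
      have f2 : (((z * t7⁻¹ * w⁻¹)⁻¹ * t7⁻¹ : (ZMod (f * ∏ r ∈ T, r))ˣ) :
          ZMod (f * ∏ r ∈ T, r)) * (z : ZMod (f * ∏ r ∈ T, r)) =
          (w : ZMod (f * ∏ r ∈ T, r)) := by
        rw [Units.val_mul, mul_assoc, mul_comm _ (z : ZMod (f * ∏ r ∈ T, r)), ← mul_assoc, f1,
          ← Units.val_mul]
        congr 1
        rw [mul_comm t7 w, mul_inv_cancel_right]
      rw [f1, f2]
      unfold WT VV
      rw [add_comm (oo (w : ZMod (f * ∏ r ∈ T, r))), ind_mul hdT]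
      have f3 : ind k T1 (fun q => g q * jc q (z * t7⁻¹)) w⁻¹ =
          ind k T1 (fun q => g q * jc q (z * t7⁻¹)) w := by
        unfold ind
        refine if_congr (forall₂_congr fun q hq => ?_) rfl rfl
        rw [jc_inv (hdT q hq)]
      have g1 : ZMod.unitsMap (dvd_mul_right f (∏ r ∈ T, r)) w⁻¹ =
        (ZMod.unitsMap (dvd_mul_right f (∏ r ∈ T, r)) w)⁻¹ := map_inv _ _
      have g2 : ZMod.unitsMap (dvd_mul_right f (∏ r ∈ T, r)) t7⁻¹ =
        (ZMod.unitsMap (dvd_mul_right f (∏ r ∈ T, r)) t7)⁻¹ := map_inv _ _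
      rw [f3, map_mul, map_mul, map_mul, map_mul, g1, g2, hX']
      ring
    have e2 : ∀ w : (ZMod (f * ∏ r ∈ T, r))ˣ,
        ((Equiv.inv (ZMod (f * ∏ r ∈ T, r))ˣ).trans (Equiv.mulLeft (z * t7⁻¹))) w =
          z * t7⁻¹ * w⁻¹ := fun w => rfl
    simp only [e2]
    rw [sum_congr rfl fun w _ => e1 w, ← mul_sum, ← mul_sum]
    congr 2
    refine hcst _ g ?_ hg
    intro q hq
    rcases hg q hq with h1 | h1 <;> rcases jc_sq (hdT q hq) (z * t7⁻¹) with h2 | h2 <;>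
      simp only [h1, h2] <;> norm_num
  -- the sum over the units
  rw [← sum_filter_add_sum_filter_not (Pos (f * ∏ r ∈ T, r)) (fun z => IsUnit z)]
  have h3 : ∑ z ∈ (Pos (f * ∏ r ∈ T, r)).filter (fun z => ¬ IsUnit z),
      c2 k (oo z) * JZ t7 (WT X (dvd_mul_right f _) T1 g) z = 0 := by
    refine sum_eq_zero fun z hz => ?_
    rw [mem_filter, mem_Pos] at hz
    rw [hnon z hz.1.1 hz.2, mul_zero]
  rw [h3, add_zero]
  have h4 : ∑ z ∈ (Pos (f * ∏ r ∈ T, r)).filter (fun z => IsUnit z),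
      c2 k (oo z) * JZ t7 (WT X (dvd_mul_right f _) T1 g) z =
      SV t2 (fun w => X (ZMod.unitsMap (dvd_mul_right f (∏ r ∈ T, r)) w)) *
        (X (ZMod.unitsMap (dvd_mul_right f _) t7)⁻¹ *
          SV t7 (WT X' (dvd_mul_right f _) T1 g)) := by
    rw [show SV t2 (fun w => X (ZMod.unitsMap (dvd_mul_right f (∏ r ∈ T, r)) w)) =
      ∑ u ∈ PU (f * ∏ r ∈ T, r), X (ZMod.unitsMap (dvd_mul_right f (∏ r ∈ T, r)) u) * VV k t2 u
      from rfl, sum_mul]
    symm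
    refine sum_bij (fun (z : (ZMod (f * ∏ r ∈ T, r))ˣ) _ => (z : ZMod (f * ∏ r ∈ T, r)))
      ?_ ?_ ?_ ?_
    · intro z hz
      rw [mem_PU] at hz
      rw [mem_filter, mem_Pos]
      exact ⟨⟨unit_ne hM1 z, hz.le⟩, z.isUnit⟩
    · intro z _ w _ h
      exact Units.ext h
    · intro z hz
      rw [mem_filter, mem_Pos] at hz
      obtain ⟨⟨-, h4⟩, u, rfl⟩ := hz
      refine ⟨u, ?_, rfl⟩
      rw [mem_PU]
      obtain ⟨r, hr⟩ := hMo
      omega
    · intro z hz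
      have e : VV k t2 z = c2 k (oo (z : ZMod (f * ∏ r ∈ T, r))) := by
        unfold VV
        rw [mul_comm t2 z, oo_two hz ht2, add_zero]
      rw [hunit, e]
      ring
  rw [h4]
  -- the first factor vanishes
  obtain ⟨q, hq1⟩ := hne
  have hq := hT1 hq1
  obtain ⟨hqp, hqo, hqf⟩ := hT q hq
  have h5 : ∀ (M : ℕ) [NeZero M] (h : f ∣ M), M = (f * ∏ r ∈ T.erase q, r) * q →
      ∀ t : (ZMod M)ˣ, SV t (fun w => X (ZMod.unitsMap h w)) = 0 := by
    intro M _ h hMM t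
    subst hMM
    have hT' : Lvl f (T.erase q) := hT.mono (erase_subset _ _)
    have : NeZero (f * ∏ r ∈ T.erase q, r) := ⟨lvl_ne hT'⟩
    have hqM := lvl_not_dvd hT' hqp (notMem_erase q T) hqf
    obtain ⟨τ, hτ⟩ : ∃ t : (ZMod (f * ∏ r ∈ T.erase q, r))ˣ,
        (t : ZMod (f * ∏ r ∈ T.erase q, r)) = (q : ZMod (f * ∏ r ∈ T.erase q, r)) :=
      ⟨ZMod.unitOfCoprime q ((Nat.Prime.coprime_iff_not_dvd hqp).2 hqM),
        ZMod.coe_unitOfCoprime _ _⟩
    have hd := dvd_mul_right f (∏ r ∈ T.erase q, r)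
    have h6 := SV_push (k := k) (lvl_odd hf hT') (lvl_lt hf1 hT') hqo hqp hqM hτ t
      (Φ := fun u => X (ZMod.unitsMap hd u)) (fun u => by
        show X (ZMod.unitsMap hd (-u)) = X (ZMod.unitsMap hd u)
        rw [unitsMap_neg, hX])
    have h7 : ∀ w : (ZMod ((f * ∏ r ∈ T.erase q, r) * q))ˣ,
        X (ZMod.unitsMap hd (ZMod.unitsMap (dvd_mul_right _ q) w)) = X (ZMod.unitsMap h w) := by
      intro w
      congr 1
      rw [← MonoidHom.comp_apply, ZMod.unitsMap_comp]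
    rw [SV_congr h7] at h6
    rw [h6]
    have h8 : X (ZMod.unitsMap hd τ) = 1 := by
      refine (htr q hq1).one _ ?_
      rw [ZMod.unitsMap_val, hτ, ZMod.cast_natCast hd]
    have h9 : ∀ u : (ZMod (f * ∏ r ∈ T.erase q, r))ˣ,
        X (ZMod.unitsMap hd u) + X (ZMod.unitsMap hd (τ * u)) = 0 * (1 : k) := by
      intro u
      rw [map_mul, map_mul, h8, one_mul, zero_mul]
      exact CharTwo.add_self_eq_zero _
    rw [SV_congr h9, SV_smul, zero_mul]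
  rw [h5 _ (dvd_mul_right f _) (by
    rw [mul_assoc, mul_comm _ q, mul_prod_erase T (fun r => r) hq]) t2, zero_mul]

end

end Pool.Agent.W2helper41.L
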